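import Mathlib

/-!
# Approximation at all embeddings of a number field
-/

set_option autoImplicit false

open NumberField Module

namespace H584.NF

lemma dense_emb (K : Type) [Field K] [NumberField K] (t : (K →+* ℂ) → ℂ)
    (ht : ∀ φ, t (ComplexEmbedding.conjugate φ) = (starRingEnd ℂ) (t φ)) {δ : ℝ} (hδ : 0 < δ) :
    ∃ (b₀ : 𝓞 K) (b₁ : ℕ), b₁ ≠ 0 ∧ ∀ φ : K →+* ℂ, ‖φ (b₀ : K) / b₁ - t φ‖ < δ := by
  classical
  obtain ⟨ω, hω⟩ : ∃ ω, ω = canonicalEmbedding.latticeBasis K := ⟨_, rfl⟩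
  have hωφ : ∀ i (φ : K →+* ℂ), ω i φ = φ ((RingOfIntegers.basis K i : 𝓞 K) : K) := by
    intro i φ
    rw [hω, canonicalEmbedding.latticeBasis_apply, canonicalEmbedding.apply_at,
      integralBasis_apply]
  have hsum : ∀ φ, t φ = ∑ i, ω.repr t i * ω i φ := by
    intro φ
    have := congrFun (ω.sum_repr t) φ
    rw [Finset.sum_apply] at this
    simpa using this.symm
  have hreal : ∀ i, ((ω.repr t i).re : ℂ) = ω.repr t i := by
    obtain ⟨c, hc⟩ : ∃ c : Free.ChooseBasisIndex ℤ (𝓞 K) → ℂ,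
      c = fun i => (starRingEnd ℂ) (ω.repr t i) := ⟨_, rfl⟩
    have h1 : ∑ i, c i • ω i = t := by
      funext φ
      rw [Finset.sum_apply]
      have h2 := ht (ComplexEmbedding.conjugate φ)
      rw [ComplexEmbedding.involutive_conjugate K φ, hsum (ComplexEmbedding.conjugate φ),
        map_sum] at h2
      rw [h2]
      refine Finset.sum_congr rfl fun i _ => ?_
      rw [map_mul, hωφ, ComplexEmbedding.conjugate_coe_eq, Complex.conj_conj, Pi.smul_apply,
        smul_eq_mul, hωφ, hc]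
    intro i
    have h3 : ω.repr t i = c i := by
      conv_lhs => rw [← h1]
      rw [Basis.repr_sum_self]
    rw [hc] at h3
    simp only at h3
    exact Complex.conj_eq_iff_real.1 h3.symm |>.elim fun r hr => by rw [hr]; simp
  obtain ⟨M, hM0, hM⟩ : ∃ M : ℝ, 0 < M ∧ ∀ φ : K →+* ℂ, ∑ i, ‖ω i φ‖ ≤ M := by
    obtain ⟨M, hM⟩ := (Set.finite_range fun φ : K →+* ℂ => ∑ i, ‖ω i φ‖).bddAbove
    exact ⟨max M 1, lt_max_of_lt_right one_pos,
      fun φ => (hM ⟨φ, rfl⟩).trans (le_max_left _ _)⟩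
  obtain ⟨b, hb⟩ := exists_nat_gt (M / δ)
  have hb0 : (0 : ℝ) < b := (div_pos hM0 hδ).trans hb
  have hb1 : b ≠ 0 := by
    rintro rfl
    simp at hb0
  have hbc : (b : ℂ) ≠ 0 := by exact_mod_cast hb1
  refine ⟨∑ i, (round ((ω.repr t i).re * b) : ℤ) • RingOfIntegers.basis K i, b, hb1, fun φ => ?_⟩
  have h1 : φ ((∑ i, (round ((ω.repr t i).re * b) : ℤ) • RingOfIntegers.basis K i : 𝓞 K) : K) =
      ∑ i, (round ((ω.repr t i).re * b) : ℂ) * ω i φ := by
    rw [RingOfIntegers.coe_eq_algebraMap, map_sum, map_sum]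
    refine Finset.sum_congr rfl fun i _ => ?_
    rw [zsmul_eq_mul, map_mul, map_mul, map_intCast, map_intCast, hωφ]
  have h2 : φ ((∑ i, (round ((ω.repr t i).re * b) : ℤ) • RingOfIntegers.basis K i : 𝓞 K) : K) / b -
      t φ = (∑ i, ((round ((ω.repr t i).re * b) - (ω.repr t i).re * b : ℝ) : ℂ) * ω i φ) / b := by
    rw [h1, hsum φ, eq_div_iff hbc, sub_mul, div_mul_cancel₀ _ hbc, Finset.sum_mul,
      ← Finset.sum_sub_distrib]
    refine Finset.sum_congr rfl fun i _ => ?_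
    have e := hreal i
    obtain ⟨r, hr⟩ : ∃ r : ℝ, r = (ω.repr t i).re := ⟨_, rfl⟩
    rw [← hr] at e ⊢
    rw [← e]
    push_cast
    ring
  rw [h2, norm_div, Complex.norm_natCast, div_lt_iff₀ hb0]
  calc ‖∑ i, ((round ((ω.repr t i).re * b) - (ω.repr t i).re * b : ℝ) : ℂ) * ω i φ‖ ≤
        ∑ i, ‖((round ((ω.repr t i).re * b) - (ω.repr t i).re * b : ℝ) : ℂ) * ω i φ‖ :=
        norm_sum_le _ _
    _ ≤ ∑ i, ‖ω i φ‖ := by
        refine Finset.sum_le_sum fun i _ => ?_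
        rw [norm_mul, Complex.norm_real, Real.norm_eq_abs]
        have h3 := abs_sub_round ((ω.repr t i).re * b)
        rw [abs_sub_comm] at h3
        calc |(round ((ω.repr t i).re * b) : ℝ) - (ω.repr t i).re * b| * ‖ω i φ‖ ≤
              1 * ‖ω i φ‖ := by
              gcongr
              linarith
          _ = ‖ω i φ‖ := one_mul _
    _ ≤ M := hM φ
    _ < δ * b := by
        rw [div_lt_iff₀ hδ] at hb
        linarith

end H584.NF
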