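import Mathlib
import Pool.Agent.H584.SH.Base

/-!
# Ratios of fixed powers in an interval with prescribed residues at three places
-/

set_option autoImplicit false

open Finset

namespace H584.NF

open H584.SH

lemma inv_mod {q : ℕ} (hq : q.Prime) {κ : ℤ} (h : ¬ (q : ℤ) ∣ κ) (l : ℕ) :
    ∃ a : ℤ, ¬ (q : ℤ) ∣ a ∧ (q : ℤ) ^ (l + 1) ∣ a * κ - 1 := by
  have hpi : Prime (q : ℤ) := Nat.prime_iff_prime_int.1 hq
  obtain ⟨a, b, hab⟩ := (hpi.coprime_iff_not_dvd.2 h).symm.pow_right (n := l + 1)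
  refine ⟨a, fun h1 => ?_, ⟨-b, by linear_combination hab⟩⟩
  have h2 : (q : ℤ) ∣ 1 := by
    rw [← hab]
    exact dvd_add (h1.mul_right _) ((dvd_pow_self _ (by omega)).mul_left _)
  exact hpi.not_isUnit (isUnit_of_dvd_one h2)

theorem engine (S₂ S₁ : ℕ → (ℕ → ℤ) → Prop)
    (hS₂ : ∀ L : ℕ, ∃ (q : ℕ) (κ : ℕ → ℤ), q.Prime ∧ L < q ∧ (∀ l, ¬ (q : ℤ) ∣ κ (l + 1)) ∧ S₂ q κ)
    (hS₁ : ∀ L : ℕ, ∃ (q : ℕ) (κ : ℕ → ℤ), q.Prime ∧ L < q ∧ (∀ l, ¬ (q : ℤ) ∣ κ (l + 1)) ∧ S₁ q κ)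
    (M₀ g Δ : ℕ) (hM₀ : M₀ ≠ 0) (hg : 0 < g) (hΔ : Δ ≠ 0) (F : ℕ → ℕ) {r s : ℝ} (hr : 0 < r)
    (hrs : r < s) (N : ℕ) :
    ∃ (q₂ : ℕ) (κ₂ : ℕ → ℤ) (l₂ q₁ : ℕ) (κ₁ : ℕ → ℤ) (l₁ u v W₂ W₁ e₂ e₁ : ℕ),
      S₂ q₂ κ₂ ∧ S₁ q₁ κ₁ ∧ 0 < W₂ ∧ 0 < W₁ ∧ N ≤ v ∧ 0 < u ∧ 0 < v ∧ Nat.Coprime u v ∧
      Nat.Coprime v Δ ∧
      r < (u : ℝ) / v ∧ (u : ℝ) / v < s ∧ (M₀ : ℤ) ∣ u - g * v ∧
      (q₂ : ℤ) ^ (l₂ + 1) ∣ u - κ₂ (l₂ + 1) * v ∧ (q₁ : ℤ) ^ (l₁ + 1) ∣ u - κ₁ (l₁ + 1) * v ∧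
      u ∣ W₂ ^ e₂ ∧ v ∣ W₁ ^ e₁ ∧ F W₂ ≤ q₂ ^ l₂ ∧ F W₁ ≤ q₁ ^ l₁ := by
  -- the first prime
  obtain ⟨p2, κ2, hp2, hp22, hκ2, hs2⟩ := hS₂ (M₀ + g + 2)
  obtain ⟨v2, hv2⟩ := exists_prim hp2 (by omega)
  have notdvd : ∀ {p a : ℕ}, p.Prime → 0 < a → a < p → ¬ p ∣ a := fun hp ha h h2 => by
    have := Nat.le_of_dvd ha h2
    omega
  have cpr : ∀ {p a : ℕ}, p.Prime → 0 < a → a < p → Nat.Coprime a p := fun hp ha h =>
    ((hp.coprime_iff_not_dvd).2 (notdvd hp ha h)).symm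
  have hM2 : Nat.Coprime M₀ (p2 ^ 2) := Nat.Coprime.pow_right _ (cpr hp2 (by omega) (by omega))
  obtain ⟨w2, hw2, hw21, hw22⟩ := exists_crt (a := v2) hM2 hM₀ (pow_ne_zero _ hp2.ne_zero)
  obtain ⟨hpw2, hv2'⟩ := hv2 w2 hw22
  have hpi2 : Prime (p2 : ℤ) := Nat.prime_iff_prime_int.1 hp2
  obtain ⟨l2, hl2⟩ : ∃ l : ℕ, F (g * w2) ≤ p2 ^ l :=
    ⟨F (g * w2), (Nat.lt_two_pow_self.le).trans (Nat.pow_le_pow_left hp2.two_le _)⟩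
  have hg2 : ¬ (p2 : ℤ) ∣ (g : ℤ) := fun h => notdvd hp2 hg (by omega) (Int.natCast_dvd_natCast.1 h)
  obtain ⟨a2, ha2, ha2'⟩ := inv_mod hp2 hg2 l2
  obtain ⟨e2, he2⟩ := hv2' (l2 + 1) (a2 * κ2 (l2 + 1)) (fun h => by
    rcases hpi2.dvd_or_dvd h with h | h
    · exact ha2 h
    · exact hκ2 _ h)
  -- the second prime
  obtain ⟨p1, κ1, hp1, hp12, hκ1, hs1⟩ := hS₁ (w2 + p2 + M₀ + g + Δ + 2)
  obtain ⟨v1, hv1⟩ := exists_prim hp1 (by omega)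
  have hpi1 : Prime (p1 : ℤ) := Nat.prime_iff_prime_int.1 hp1
  have hcop1 : Nat.Coprime (M₀ * p2 ^ (l2 + 1) * (g * w2) * Δ) (p1 ^ 2) := by
    refine Nat.Coprime.pow_right _ ?_
    refine Nat.Coprime.mul_left (Nat.Coprime.mul_left (Nat.Coprime.mul_left ?_ ?_)
      (Nat.Coprime.mul_left ?_ ?_)) ?_
    · exact cpr hp1 (by omega) (by omega)
    · exact Nat.Coprime.pow_left _ (cpr hp1 hp2.pos (by omega))
    · exact cpr hp1 (by omega) (by omega)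
    · exact cpr hp1 (by omega) (by omega)
    · exact cpr hp1 (by omega) (by omega)
  have hmod0 : M₀ * p2 ^ (l2 + 1) * (g * w2) * Δ ≠ 0 := by
    have h1 := hp2.pos
    have h2 : w2 ≠ 0 := by omega
    have h3 : p2 ^ (l2 + 1) ≠ 0 := pow_ne_zero _ h1.ne'
    exact mul_ne_zero (mul_ne_zero (mul_ne_zero hM₀ h3) (mul_ne_zero hg.ne' h2)) hΔ
  obtain ⟨w1, hw1, hw11, hw12⟩ := exists_crt (a := v1) hcop1 hmod0 (pow_ne_zero _ hp1.ne_zero)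
  obtain ⟨hpw1, hv1'⟩ := hv1 w1 hw12
  obtain ⟨l1, hl1⟩ : ∃ l : ℕ, F w1 ≤ p1 ^ l :=
    ⟨F w1, (Nat.lt_two_pow_self.le).trans (Nat.pow_le_pow_left hp1.two_le _)⟩
  obtain ⟨a1, ha1, ha1'⟩ := inv_mod hp1 (hκ1 l1) l1
  have hpw21 : ¬ (p1 : ℤ) ∣ w2 := fun h =>
    notdvd hp1 (show 0 < w2 by omega) (by omega) (Int.natCast_dvd_natCast.1 h)
  have hpg1 : ¬ (p1 : ℤ) ∣ g := fun h =>
    notdvd hp1 hg (by omega) (Int.natCast_dvd_natCast.1 h)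
  have hpa : ¬ (p1 : ℤ) ∣ a1 * (g * (w2 : ℤ) ^ e2) := by
    intro h
    rcases hpi1.dvd_or_dvd h with h | h
    · exact ha1 h
    · rcases hpi1.dvd_or_dvd h with h | h
      · exact hpg1 h
      · exact hpw21 (hpi1.dvd_of_dvd_pow h)
  obtain ⟨e1, he1⟩ := hv1' (l1 + 1) (a1 * (g * (w2 : ℤ) ^ e2)) hpa
  -- congruences for `w1`, `w2`
  have c0 : (w1 : ℤ) ≡ 1 [ZMOD (M₀ : ℤ)] :=
    (Int.natCast_modEq_iff).2 (hw11.of_dvd ⟨p2 ^ (l2 + 1) * (g * w2) * Δ, by ring⟩)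
  have c2 : (w1 : ℤ) ≡ 1 [ZMOD (p2 : ℤ) ^ (l2 + 1)] := by
    have := (Int.natCast_modEq_iff).2
      (hw11.of_dvd (m := p2 ^ (l2 + 1)) ⟨M₀ * (g * w2) * Δ, by ring⟩)
    exact_mod_cast this
  have c3 : Nat.Coprime w1 (g * w2) := by
    have : w1 ≡ 1 [MOD g * w2] := hw11.of_dvd ⟨M₀ * p2 ^ (l2 + 1) * Δ, by ring⟩
    have h2 := Nat.ModEq.gcd_eq this
    rw [Nat.gcd_one_left] at h2
    exact h2
  have c5 : Nat.Coprime w1 Δ := by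
    have : w1 ≡ 1 [MOD Δ] := hw11.of_dvd ⟨M₀ * p2 ^ (l2 + 1) * (g * w2), by ring⟩
    have h2 := Nat.ModEq.gcd_eq this
    rw [Nat.gcd_one_left] at h2
    exact h2
  have c4 : (w2 : ℤ) ≡ 1 [ZMOD (M₀ : ℤ)] := (Int.natCast_modEq_iff).2 hw21
  -- the period
  obtain ⟨Φ, hΦ⟩ : ∃ Φ : ℕ, Φ = (p1 ^ (l1 + 1)).totient * (p2 ^ (l2 + 1)).totient := ⟨_, rfl⟩
  have hΦ0 : 0 < Φ := by
    rw [hΦ]
    exact Nat.mul_pos (Nat.totient_pos.2 (pow_pos hp1.pos _)) (Nat.totient_pos.2 (pow_pos hp2.pos _))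
  have per : ∀ {p : ℕ}, p.Prime → ∀ {w : ℕ}, ¬ (p : ℤ) ∣ w → ∀ {l : ℕ}, (p ^ l).totient ∣ Φ →
      ∀ i : ℕ, (w : ℤ) ^ (Φ * i) ≡ 1 [ZMOD (p : ℤ) ^ l] := by
    intro p hp w hw l hl i
    have h1 : Nat.Coprime w (p ^ l) := by
      refine Nat.Coprime.pow_right _ ?_
      refine ((hp.coprime_iff_not_dvd).2 fun h => hw (Int.natCast_dvd_natCast.2 h)).symm
    obtain ⟨c, hc⟩ := hl
    have h2 : w ^ (Φ * i) ≡ 1 [MOD p ^ l] := by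
      rw [hc, mul_assoc, pow_mul]
      have := (Nat.ModEq.pow_totient h1).pow (c * i)
      rwa [one_pow] at this
    have := (Int.natCast_modEq_iff).2 h2
    exact_mod_cast this
  -- the rotation
  obtain ⟨q, hq⟩ : ∃ q : ℝ, q = Real.log g + e2 * Real.log w2 - e1 * Real.log w1 := ⟨_, rfl⟩
  have hw1' : (1 : ℝ) < w1 := by exact_mod_cast (show 1 < w1 by omega)
  have hw2' : (1 : ℝ) < w2 := by exact_mod_cast (show 1 < w2 by omega)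
  have hlog1 := Real.log_pos hw1'
  have hlog2 := Real.log_pos hw2'
  have hΦ' : (0 : ℝ) < Φ := by exact_mod_cast hΦ0
  have hcop21 : Nat.Coprime w2 w1 := (Nat.Coprime.coprime_mul_left_right c3).symm
  have hirr : Irrational ((Φ * Real.log w2) / (Φ * Real.log w1)) := by
    rw [mul_div_mul_left _ _ hΦ'.ne']
    exact irr_log hw2 hw1 hcop21
  obtain ⟨i, i', hi, hi', hlow, hupp⟩ := rotation (by positivity) (by positivity) hirr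
    (show Real.log r - q < Real.log s - q by
      have := Real.log_lt_log hr hrs
      linarith) (N + 1)
  obtain ⟨y, hy⟩ : ∃ y, y = g * w2 ^ (e2 + Φ * i) := ⟨_, rfl⟩
  obtain ⟨z, hz⟩ : ∃ z, z = w1 ^ (e1 + Φ * i') := ⟨_, rfl⟩
  have hg' : (0 : ℝ) < g := by exact_mod_cast hg
  have hy0 : 0 < y := by rw [hy]; positivity
  have hz0 : 0 < z := by rw [hz]; positivity
  have hy0' : (0 : ℝ) < y := by exact_mod_cast hy0
  have hz0' : (0 : ℝ) < z := by exact_mod_cast hz0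
  have hlogyz : Real.log ((y : ℝ) / z) = q + (i * (Φ * Real.log w2) - i' * (Φ * Real.log w1)) := by
    rw [Real.log_div hy0'.ne' hz0'.ne', hy, hz, hq]
    push_cast
    rw [Real.log_mul hg'.ne' (by positivity), Real.log_pow, Real.log_pow]
    push_cast
    ring
  have hyz1 : r < (y : ℝ) / z := by
    rw [← Real.log_lt_log_iff hr (by positivity), hlogyz]
    linarith
  have hyz2 : (y : ℝ) / z < s := by
    rw [← Real.log_lt_log_iff (by positivity) (hr.trans hrs), hlogyz]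
    linarith
  have hcop : Nat.Coprime y z := by
    rw [hy, hz]
    refine Nat.Coprime.mul_left ?_ ?_
    · exact Nat.Coprime.pow_right _ (Nat.Coprime.coprime_mul_right_right c3).symm
    · exact Nat.Coprime.pow _ _ hcop21
  have hzN : N ≤ z := by
    have h1 : i' ≤ w1 ^ i' := (Nat.lt_pow_self (by omega)).le
    have h2 : w1 ^ i' ≤ w1 ^ (e1 + Φ * i') := Nat.pow_le_pow_right (by omega) (by nlinarith)
    rw [hz]
    omega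
  -- congruences
  have d1 : (M₀ : ℤ) ∣ (y : ℤ) - g * z := by
    have h1 : (z : ℤ) ≡ 1 [ZMOD (M₀ : ℤ)] := by
      rw [hz]
      push_cast
      have := c0.pow (e1 + Φ * i')
      rwa [one_pow] at this
    have h2 : (y : ℤ) ≡ g [ZMOD (M₀ : ℤ)] := by
      rw [hy]
      push_cast
      have := (c4.pow (e2 + Φ * i)).mul_left (g : ℤ)
      rwa [one_pow, mul_one] at this
    have h3 := h1.mul_left (g : ℤ)
    rw [mul_one] at h3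
    exact Int.modEq_iff_dvd.1 (h3.trans h2.symm)
  have d2 : (p2 : ℤ) ^ (l2 + 1) ∣ (y : ℤ) - κ2 (l2 + 1) * z := by
    have h1 : (z : ℤ) ≡ 1 [ZMOD (p2 : ℤ) ^ (l2 + 1)] := by
      rw [hz]
      push_cast
      have := c2.pow (e1 + Φ * i')
      rwa [one_pow] at this
    have h2 : (y : ℤ) ≡ κ2 (l2 + 1) [ZMOD (p2 : ℤ) ^ (l2 + 1)] := by
      rw [hy]
      push_cast
      rw [pow_add (w2 : ℤ) e2]
      have h3 := (Int.modEq_iff_dvd.2 he2).symm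
      have h4 := (h3.mul (per hp2 hpw2 (l := l2 + 1) (by rw [hΦ]; exact dvd_mul_left _ _) i)).mul_left
        (g : ℤ)
      rw [mul_one] at h4
      have h5 : (g : ℤ) * (a2 * κ2 (l2 + 1)) ≡ κ2 (l2 + 1) [ZMOD (p2 : ℤ) ^ (l2 + 1)] := by
        refine (Int.modEq_iff_dvd.2 ?_).symm
        have : (g : ℤ) * (a2 * κ2 (l2 + 1)) - κ2 (l2 + 1) = (a2 * g - 1) * κ2 (l2 + 1) := by ring
        rw [this]
        exact ha2'.mul_right _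
      exact h4.trans h5
    have h6 := (h1.mul_left (κ2 (l2 + 1)))
    rw [mul_one] at h6
    exact Int.modEq_iff_dvd.1 (h6.trans h2.symm)
  have d3 : (p1 : ℤ) ^ (l1 + 1) ∣ (y : ℤ) - κ1 (l1 + 1) * z := by
    have h1 : (z : ℤ) ≡ a1 * (g * (w2 : ℤ) ^ e2) [ZMOD (p1 : ℤ) ^ (l1 + 1)] := by
      rw [hz]
      push_cast
      rw [pow_add (w1 : ℤ) e1]
      have h3 := (Int.modEq_iff_dvd.2 he1).symm
      have h4 := h3.mul (per hp1 hpw1 (l := l1 + 1) (by rw [hΦ]; exact dvd_mul_right _ _) i')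
      rwa [mul_one] at h4
    have h2 : (y : ℤ) ≡ g * (w2 : ℤ) ^ e2 [ZMOD (p1 : ℤ) ^ (l1 + 1)] := by
      rw [hy]
      push_cast
      rw [pow_add (w2 : ℤ) e2]
      have h4 := ((per hp1 hpw21 (l := l1 + 1) (by rw [hΦ]; exact dvd_mul_right _ _) i).mul_left
        ((w2 : ℤ) ^ e2)).mul_left (g : ℤ)
      rwa [mul_one] at h4
    have h6 := h1.mul_left (κ1 (l1 + 1))
    have h7 : κ1 (l1 + 1) * (a1 * (g * (w2 : ℤ) ^ e2)) ≡ g * (w2 : ℤ) ^ e2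
        [ZMOD (p1 : ℤ) ^ (l1 + 1)] := by
      refine (Int.modEq_iff_dvd.2 ?_).symm
      have : κ1 (l1 + 1) * (a1 * (g * (w2 : ℤ) ^ e2)) - g * (w2 : ℤ) ^ e2 =
        (a1 * κ1 (l1 + 1) - 1) * (g * (w2 : ℤ) ^ e2) := by ring
      rw [this]
      exact ha1'.mul_right _
    exact Int.modEq_iff_dvd.1 ((h6.trans h7).trans h2.symm)
  refine ⟨p2, κ2, l2, p1, κ1, l1, y, z, g * w2, w1, e2 + Φ * i + 1, e1 + Φ * i', hs2, hs1,
    by positivity, by omega, hzN, hy0, hz0, hcop, ?_, hyz1, hyz2, d1, d2, d3, ?_, ?_, hl2, hl1⟩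
  · rw [hz]
    exact Nat.Coprime.pow_left _ c5
  · rw [hy]
    refine ⟨g ^ (e2 + Φ * i) * w2, by ring⟩
  · rw [hz]

end H584.NF
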