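import Mathlib
import Pool.Agent.H584.SH.Hens

/-!
# Maps to the `q`-adic integers
-/

set_option autoImplicit false

open Polynomial

namespace H584.NF

open H584.SH

/-- A separable polynomial has a simple root modulo arbitrarily large primes. -/
theorem exists_simple_root {P : ℤ[X]} (hsep : IsCoprime (P.map (Int.castRingHom ℚ))
      ((derivative P).map (Int.castRingHom ℚ))) (hd : 1 ≤ P.natDegree) (L : ℕ) :
    ∃ p : ℕ, p.Prime ∧ L < p ∧ ∃ s : ℤ, (p : ℤ) ∣ P.eval s ∧ ¬ (p : ℤ) ∣ (derivative P).eval s := by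
  obtain ⟨Δ, U, V, hΔ, hUV⟩ := exists_bez hsep
  have hP0 : P ≠ 0 := by
    rintro rfl
    simp at hd
  obtain ⟨a, ha⟩ : ∃ a : ℤ, P.eval a ≠ 0 := by
    by_contra hcon
    push Not at hcon
    exact hP0 (Polynomial.funext fun r => by rw [hcon r, eval_zero])
  obtain ⟨c, hc⟩ : ∃ c, c = P.eval a := ⟨_, rfl⟩
  obtain ⟨N, hN⟩ : ∃ N : ℤ, N = (L.factorial : ℤ) * Δ := ⟨_, rfl⟩
  have hN0 : N ≠ 0 := by
    rw [hN]
    exact mul_ne_zero (by exact_mod_cast Nat.factorial_ne_zero L) hΔ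
  rw [← hc] at ha
  obtain ⟨T, hT⟩ : ∃ T : ℤ[X], T = P.comp (C (c * N) * X + C a) := ⟨_, rfl⟩
  have hTd : 1 ≤ T.natDegree := by
    rw [hT, natDegree_comp, natDegree_add_C, natDegree_C_mul_X _ (mul_ne_zero ha hN0)]
    omega
  have hTC : ∀ v : ℤ, T - C v ≠ 0 := by
    intro v h
    have h2 : T = C v := sub_eq_zero.1 h
    rw [h2, natDegree_C] at hTd
    omega
  obtain ⟨u, hu⟩ : ∃ u : ℤ, ((T - C 0) * (T - C c) * (T - C (-c))).eval u ≠ 0 := by
    by_contra hcon
    push Not at hcon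
    have : (T - C 0) * (T - C c) * (T - C (-c)) = 0 := by
      apply Polynomial.funext
      intro u
      rw [hcon u, eval_zero]
    exact mul_ne_zero (mul_ne_zero (hTC 0) (hTC c)) (hTC (-c)) this
  obtain ⟨s, hs⟩ : ∃ s, s = c * N * u + a := ⟨_, rfl⟩
  have hTu : T.eval u = P.eval s := by
    rw [hT, eval_comp, hs]
    simp
  rw [eval_mul, eval_mul, eval_sub, eval_sub, eval_sub, eval_C, eval_C, eval_C, hTu] at hu
  have hu1 : P.eval s ≠ c := by
    intro h
    rw [h] at hu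
    simp at hu
  have hu2 : P.eval s ≠ -c := by
    intro h
    rw [h] at hu
    simp at hu
  obtain ⟨f, hf⟩ : (s - a) ∣ P.eval s - P.eval a := sub_dvd_eval_sub s a P
  have hval : P.eval s = c * (1 + N * u * f) := by
    rw [← hc] at hf
    have : P.eval s = c + (s - a) * f := by linarith
    rw [this, hs]
    ring
  have hne1 : (1 + N * u * f).natAbs ≠ 1 := by
    intro h
    rcases Int.natAbs_eq_iff.1 h with h | h
    · rw [h] at hval
      exact hu1 (by rw [hval]; simp)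
    · rw [h] at hval
      exact hu2 (by rw [hval]; simp)
  obtain ⟨p, hp, hpd⟩ := Nat.exists_prime_and_dvd hne1
  have hpd' : (p : ℤ) ∣ 1 + N * u * f := Int.natCast_dvd.2 hpd
  have hpN : ¬ (p : ℤ) ∣ N := by
    intro h
    have h2 : (p : ℤ) ∣ 1 := by
      have h3 : (1 : ℤ) = (1 + N * u * f) - N * (u * f) := by ring
      rw [h3]
      exact dvd_sub hpd' (h.mul_right _)
    have := Int.natCast_dvd_natCast.1 (by exact_mod_cast h2 : (p : ℤ) ∣ ((1 : ℕ) : ℤ))
    exact hp.one_lt.ne' (Nat.dvd_one.1 this)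
  have hpP : (p : ℤ) ∣ P.eval s := by
    rw [hval]
    exact hpd'.mul_left _
  have hpD : ¬ (p : ℤ) ∣ (derivative P).eval s := by
    intro h
    apply hpN
    have h2 := congrArg (eval s) hUV
    rw [eval_add, eval_mul, eval_mul, eval_C] at h2
    rw [hN, ← h2]
    exact (dvd_add (hpP.mul_left _) (h.mul_left _)).mul_left _
  refine ⟨p, hp, ?_, s, hpP, hpD⟩
  by_contra hcon
  apply hpN
  rw [hN]
  have : p ∣ L.factorial := (hp.dvd_factorial).2 (by omega)
  exact (Int.natCast_dvd_natCast.2 this).mul_right _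

/-- A number field has an embedding into `ℚ_q` for arbitrarily large primes `q`. -/
theorem exists_padic_hom (L : Type*) [Field L] [NumberField L] (B : ℕ) :
    ∃ (q : ℕ) (_ : Fact q.Prime), B < q ∧ Nonempty (L →+* ℚ_[q]) := by
  obtain ⟨pb, -⟩ : ∃ pb : PowerBasis ℚ L, True := ⟨Field.powerBasisOfFiniteOfSeparable ℚ L, trivial⟩
  obtain ⟨g, hg⟩ : ∃ g, g = minpoly ℚ pb.gen := ⟨_, rfl⟩
  have hint : IsIntegral ℚ pb.gen := pb.isIntegral_gen
  have hirr : Irreducible g := by rw [hg]; exact minpoly.irreducible hint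
  have hsep : IsCoprime g (derivative g) := hirr.separable
  obtain ⟨b, P, hb, hP⟩ := clear_denom g
  have hb' : (b : ℚ) ≠ 0 := by exact_mod_cast hb
  have hsepP : IsCoprime (P.map (Int.castRingHom ℚ)) ((derivative P).map (Int.castRingHom ℚ)) := by
    rw [← derivative_map, hP, derivative_C_mul]
    have hu : IsUnit (C (b : ℚ)) := isUnit_C.2 (isUnit_iff_ne_zero.2 hb')
    rw [isCoprime_mul_unit_left_left hu, isCoprime_mul_unit_left_right hu]
    exact hsep
  have hdeg : 1 ≤ P.natDegree := by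
    have h1 : (P.map (Int.castRingHom ℚ)).natDegree = g.natDegree := by
      rw [hP, natDegree_C_mul hb']
    have h2 := natDegree_map_le (f := Int.castRingHom ℚ) (p := P)
    have h3 : 0 < g.natDegree := by rw [hg]; exact minpoly.natDegree_pos hint
    omega
  obtain ⟨q, hq, hBq, s, hs1, hs2⟩ := exists_simple_root hsepP hdeg B
  have : Fact q.Prime := ⟨hq⟩
  have hval : ∀ F : ℤ[X], aeval (s : ℤ_[q]) F = ((F.eval s : ℤ) : ℤ_[q]) := fun F => by
    have := aeval_algebraMap_apply_eq_algebraMap_eval (A := ℤ_[q]) s F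
    simpa using this
  have hn : ‖aeval (s : ℤ_[q]) P‖ < ‖aeval (s : ℤ_[q]) (derivative P)‖ ^ 2 := by
    have h1 : ‖aeval (s : ℤ_[q]) (derivative P)‖ = 1 := by
      rw [hval]
      refine le_antisymm (PadicInt.norm_le_one _) (not_lt.1 fun h => hs2 ?_)
      exact (PadicInt.norm_int_lt_one_iff_dvd _).1 h
    rw [h1, one_pow, hval]
    exact (PadicInt.norm_int_lt_one_iff_dvd _).2 hs1
  obtain ⟨z, hz, -⟩ := hensels_lemma hn
  refine ⟨q, this, hBq, ⟨(pb.lift (z : ℚ_[q]) ?_).toRingHom⟩⟩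
  rw [← hg]
  have h1 : aeval (z : ℚ_[q]) (P.map (Int.castRingHom ℚ)) = 0 := by
    have h2 : aeval (z : ℚ_[q]) (P.map (Int.castRingHom ℚ)) = aeval (z : ℚ_[q]) P := by
      rw [← aeval_map_algebraMap ℚ (z : ℚ_[q]) P]
      rfl
    rw [h2]
    have h3 := aeval_algebraMap_apply ℚ_[q] z P
    rw [hz, map_zero] at h3
    exact h3
  rw [hP, map_mul, aeval_C] at h1
  rcases mul_eq_zero.1 h1 with h2 | h2
  · rw [eq_ratCast] at h2
    exact absurd (by exact_mod_cast h2) hb
  · exact h2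

end H584.NF
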