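import Mathlib

/-!
# The norm of the radical of an element
-/

set_option autoImplicit false

open UniqueFactorizationMonoid

namespace H584.NF

variable {O : Type*} [CommRing O] [IsDedekindDomain O] [Module.Free ℤ O] [Module.Finite ℤ O]

set_option linter.unusedSectionVars false

/-- the norm of an element -/
noncomputable def nn (x : O) : ℕ := Ideal.absNorm (Ideal.span {x})

/-- the norm of the radical of an ideal -/
noncomputable def RI (I : Ideal O) : ℕ := Ideal.absNorm (radical I)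

/-- the norm of the radical of an element -/
noncomputable def RN (x : O) : ℕ := RI (Ideal.span {x})

lemma RI_ne (I : Ideal O) [CharZero O] : RI I ≠ 0 := by
  unfold RI
  rw [ne_eq, Ideal.absNorm_eq_zero_iff]
  exact radical_ne_zero

lemma RI_pos [CharZero O] (I : Ideal O) : 0 < RI I := Nat.pos_of_ne_zero (RI_ne I)

lemma nn_ne [CharZero O] {x : O} (hx : x ≠ 0) : nn x ≠ 0 := by
  unfold nn
  rw [ne_eq, Ideal.absNorm_eq_zero_iff, Ideal.span_singleton_eq_bot]
  exact hx

lemma nn_pos [CharZero O] {x : O} (hx : x ≠ 0) : 0 < nn x := Nat.pos_of_ne_zero (nn_ne hx)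

lemma nn_mul (x y : O) : nn (x * y) = nn x * nn y := by
  unfold nn
  rw [← Ideal.span_singleton_mul_span_singleton, map_mul]

lemma nn_pow (x : O) (e : ℕ) : nn (x ^ e) = nn x ^ e := by
  unfold nn
  rw [← Ideal.span_singleton_pow, map_pow]

lemma RI_mul [CharZero O] (I J : Ideal O) : RI (I * J) ≤ RI I * RI J := by
  refine Nat.le_of_dvd (Nat.mul_pos (RI_pos I) (RI_pos J)) ?_
  unfold RI
  rw [← map_mul]
  exact map_dvd Ideal.absNorm radical_mul_dvd

lemma RI_pow [CharZero O] (I : Ideal O) (e : ℕ) : RI (I ^ e) ≤ RI I := by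
  refine Nat.le_of_dvd (RI_pos I) ?_
  unfold RI
  exact map_dvd Ideal.absNorm radical_pow_dvd

lemma RI_le [CharZero O] {I : Ideal O} (hI : I ≠ ⊥) : RI I ≤ Ideal.absNorm I := by
  refine Nat.le_of_dvd (Nat.pos_of_ne_zero ?_) ?_
  · rw [ne_eq, Ideal.absNorm_eq_zero_iff]
    exact hI
  · unfold RI
    exact map_dvd Ideal.absNorm radical_dvd_self

lemma RI_mono [CharZero O] {I J : Ideal O} (h : I ∣ J) (hJ : J ≠ ⊥) : RI I ≤ RI J := by
  refine Nat.le_of_dvd (RI_pos J) ?_
  unfold RI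
  exact map_dvd Ideal.absNorm (radical_dvd_radical h hJ)

lemma RN_pos [CharZero O] (x : O) : 0 < RN x := RI_pos _

lemma RN_mul [CharZero O] (x y : O) : RN (x * y) ≤ RN x * RN y := by
  unfold RN
  rw [← Ideal.span_singleton_mul_span_singleton]
  exact RI_mul _ _

lemma RN_pow [CharZero O] (x : O) (e : ℕ) : RN (x ^ e) ≤ RN x := by
  unfold RN
  rw [← Ideal.span_singleton_pow]
  exact RI_pow _ _

lemma RN_le [CharZero O] {x : O} (hx : x ≠ 0) : RN x ≤ nn x :=
  RI_le (by rw [ne_eq, Ideal.span_singleton_eq_bot]; exact hx)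

lemma RN_mono [CharZero O] {x y : O} (h : x ∣ y) (hy : y ≠ 0) : RN x ≤ RN y :=
  RI_mono (by rw [Ideal.dvd_span_singleton]; exact (Ideal.mem_span_singleton.2 h))
    (by rw [ne_eq, Ideal.span_singleton_eq_bot]; exact hy)

/-- The powers of the prime of degree one given by a map to the `q`-adic integers. -/
lemma comap_pow [CharZero O] {q : ℕ} [Fact q.Prime] (ψ : O →+* ℤ_[q]) (l : ℕ) :
    Ideal.absNorm ((Ideal.span {(q : ℤ_[q]) ^ l}).comap ψ) = q ^ l ∧
      (Ideal.span {(q : ℤ_[q])}).comap ψ ^ l = (Ideal.span {(q : ℤ_[q]) ^ l}).comap ψ := by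
  have hq : q.Prime := Fact.out
  have hcard : ∀ l, Ideal.absNorm ((Ideal.span {(q : ℤ_[q]) ^ l}).comap ψ) = q ^ l := by
    intro l
    have : NeZero (q ^ l) := ⟨pow_ne_zero _ hq.ne_zero⟩
    have hs : Function.Surjective ((PadicInt.toZModPow l).comp ψ : O →+* ZMod (q ^ l)) :=
      ZMod.ringHom_surjective _
    have e : (Ideal.span {(q : ℤ_[q]) ^ l}).comap ψ =
        RingHom.ker ((PadicInt.toZModPow l).comp ψ : O →+* ZMod (q ^ l)) := by
      rw [← RingHom.comap_ker, PadicInt.ker_toZModPow]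
    rw [e, Ideal.absNorm_apply, Submodule.cardQuot_apply]
    rw [Nat.card_congr (RingHom.quotientKerEquivOfSurjective hs).toEquiv, Nat.card_zmod]
  refine ⟨hcard l, ?_⟩
  have hle : (Ideal.span {(q : ℤ_[q])}).comap ψ ^ l ≤ (Ideal.span {(q : ℤ_[q]) ^ l}).comap ψ := by
    rw [← Ideal.span_singleton_pow]
    exact Ideal.le_comap_pow ψ l
  obtain ⟨J, hJ⟩ := Ideal.dvd_iff_le.2 hle
  have h1 := congrArg Ideal.absNorm hJ
  rw [map_pow, map_mul, hcard l] at h1
  have h2 : Ideal.absNorm ((Ideal.span {(q : ℤ_[q])}).comap ψ) = q := by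
    have := hcard 1
    rwa [pow_one, pow_one] at this
  rw [h2] at h1
  have h3 : Ideal.absNorm J = 1 := by
    have h4 : 0 < q ^ l := pow_pos hq.pos _
    have h5 : q ^ l * 1 = q ^ l * Ideal.absNorm J := by rw [mul_one]; exact h1
    exact (Nat.eq_of_mul_eq_mul_left h4 h5).symm
  rw [Ideal.absNorm_eq_one_iff] at h3
  rw [hJ, h3, Ideal.mul_top]

/-- The gain from the divisibility by a high power of a prime of degree one. -/
lemma gain [CharZero O] {q : ℕ} [Fact q.Prime] (ψ : O →+* ℤ_[q]) (l : ℕ) {x : O} (hx : x ≠ 0)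
    (h : (q : ℤ_[q]) ^ (l + 1) ∣ ψ x) : RN x * q ^ l ≤ nn x := by
  have hq : q.Prime := Fact.out
  obtain ⟨P, hP⟩ : ∃ P : Ideal O, P = (Ideal.span {(q : ℤ_[q])}).comap ψ := ⟨_, rfl⟩
  have hN : Ideal.absNorm P = q := by
    have := (comap_pow ψ 1).1
    rw [pow_one, pow_one] at this
    rw [hP, this]
  have hmem : x ∈ P ^ (l + 1) := by
    rw [hP, (comap_pow ψ (l + 1)).2, Ideal.mem_comap, Ideal.mem_span_singleton]
    exact h
  obtain ⟨J, hJ⟩ : P ^ (l + 1) ∣ Ideal.span {x} := by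
    rw [Ideal.dvd_span_singleton]
    exact hmem
  have hJ0 : J ≠ ⊥ := by
    rintro rfl
    rw [Ideal.mul_bot, Ideal.span_singleton_eq_bot] at hJ
    exact hx hJ
  have hP0 : P ≠ ⊥ := by
    rintro rfl
    rw [Ideal.absNorm_bot] at hN
    exact hq.ne_zero hN.symm
  have h1 : RN x ≤ q * Ideal.absNorm J := by
    unfold RN
    rw [hJ]
    refine (RI_mul _ _).trans (Nat.mul_le_mul ?_ (RI_le hJ0))
    refine (RI_pow _ _).trans ?_
    rw [← hN]
    exact RI_le hP0
  have h2 : nn x = q ^ (l + 1) * Ideal.absNorm J := by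
    unfold nn
    rw [hJ, map_mul, map_pow, hN]
  rw [h2]
  calc RN x * q ^ l ≤ q * Ideal.absNorm J * q ^ l := Nat.mul_le_mul_right _ h1
    _ = _ := by ring

end H584.NF
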