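import Mathlib
import Pool.Agent.H584.NF.Pad
import Pool.Agent.H584.NF.Rad

/-!
# Congruences forcing the divisibility of a form by a high power of a prime of degree one
-/

set_option autoImplicit false

open Polynomial

namespace H584.NF

open H584.SH

lemma padic_int {q : ℕ} [Fact q.Prime] {x : ℚ_[q]} (h : IsIntegral ℤ x) : ‖x‖ ≤ 1 := by
  have h2 : IsIntegral ℤ_[q] x := h.tower_top
  obtain ⟨y, rfl⟩ := IsIntegrallyClosed.isIntegral_iff.1 h2
  exact PadicInt.norm_le_one y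

theorem source_hom {O : Type*} [CommRing O] [Module.Finite ℤ O] (ι : O →+* ℂ) {P : ℤ[X]}
    (hP : 1 ≤ P.natDegree) (B : ℕ) : ∃ (q : ℕ) (_ : Fact q.Prime), B < q ∧
      ∃ (_ : O →+* ℤ_[q]) (τ : ℤ_[q]), aeval τ P = 0 := by
  have hP0 : P ≠ 0 := by
    rintro rfl
    simp at hP
  obtain ⟨β, hβ⟩ : ∃ β : ℂ, aeval β P = 0 := by
    obtain ⟨β, hβ⟩ := IsAlgClosed.exists_root (P.map (algebraMap ℤ ℂ)) (by
      rw [degree_map_eq_of_injective (algebraMap ℤ ℂ).injective_int]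
      exact (natDegree_pos_iff_degree_pos.1 hP).ne')
    exact ⟨β, by rwa [IsRoot, eval_map_algebraMap] at hβ⟩
  obtain ⟨s, hs⟩ := (Module.Finite.fg_top : (⊤ : Submodule ℤ O).FG)
  obtain ⟨T, hT⟩ : ∃ T : Set ℂ, T = (ι '' (s : Set O)) ∪ {β} := ⟨_, rfl⟩
  have hfin : Finite T := by
    rw [hT]
    exact ((s.finite_toSet.image ι).union (Set.finite_singleton β)).to_subtype
  have hι : ∀ o : O, IsIntegral ℤ (ι o) := fun o =>
    (Algebra.IsIntegral.isIntegral (R := ℤ) o).map ι.toIntAlgHom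
  have hint : ∀ x ∈ T, IsIntegral ℚ x := by
    intro x hx
    rw [hT] at hx
    rcases hx with ⟨o, -, rfl⟩ | hx
    · exact (hι o).tower_top
    · rw [Set.mem_singleton_iff] at hx
      rw [hx, ← isAlgebraic_iff_isIntegral]
      refine ⟨P.map (algebraMap ℤ ℚ), ?_, ?_⟩
      · exact (Polynomial.map_ne_zero_iff (algebraMap ℤ ℚ).injective_int).2 hP0
      · rw [aeval_map_algebraMap]
        exact hβ
  have hfd : FiniteDimensional ℚ (IntermediateField.adjoin ℚ T) :=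
    IntermediateField.finiteDimensional_adjoin hint
  have hnf : NumberField (IntermediateField.adjoin ℚ T) :=
    { to_charZero := inferInstance
      to_finiteDimensional := hfd }
  have hβL : β ∈ IntermediateField.adjoin ℚ T :=
    IntermediateField.subset_adjoin ℚ T (by rw [hT]; exact Or.inr rfl)
  have hιL : ∀ o : O, ι o ∈ IntermediateField.adjoin ℚ T := by
    intro o
    have ho : o ∈ Submodule.span ℤ (s : Set O) := by rw [hs]; trivial
    induction ho using Submodule.span_induction with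
    | mem x hx => exact IntermediateField.subset_adjoin ℚ T (by rw [hT]; exact Or.inl ⟨x, hx, rfl⟩)
    | zero => rw [map_zero]; exact zero_mem _
    | add x y _ _ hx hy => rw [map_add]; exact add_mem hx hy
    | smul a x _ hx =>
      rw [zsmul_eq_mul, map_mul, map_intCast]
      exact mul_mem (intCast_mem _ a) hx
  obtain ⟨q, hq, hBq, ⟨φ⟩⟩ := exists_padic_hom (IntermediateField.adjoin ℚ T)
    (max B P.leadingCoeff.natAbs)
  have hψ : ∀ o : O, ‖φ ⟨ι o, hιL o⟩‖ ≤ 1 := by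
    intro o
    apply padic_int
    have h1 : IsIntegral ℤ (⟨ι o, hιL o⟩ : IntermediateField.adjoin ℚ T) := by
      have h2 : IsIntegral ℤ ((IntermediateField.adjoin ℚ T).val.toRingHom.toIntAlgHom
        (⟨ι o, hιL o⟩ : IntermediateField.adjoin ℚ T)) := hι o
      exact (isIntegral_algHom_iff _ (fun x y h => Subtype.ext h)).1 h2
    exact h1.map φ.toIntAlgHom
  have hτ : ‖φ ⟨β, hβL⟩‖ ≤ 1 := by
    have h1 : aeval (φ ⟨β, hβL⟩) P = 0 := by
      have h2 : aeval (⟨β, hβL⟩ : IntermediateField.adjoin ℚ T) P = 0 := by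
        apply Subtype.ext
        have h3 := aeval_algebraMap_apply ℂ (⟨β, hβL⟩ : IntermediateField.adjoin ℚ T) P
        have h4 : algebraMap (IntermediateField.adjoin ℚ T) ℂ ⟨β, hβL⟩ = β := rfl
        rw [h4, hβ] at h3
        exact h3.symm
      have h5 := Polynomial.aeval_algHom_apply φ.toIntAlgHom
        (⟨β, hβL⟩ : IntermediateField.adjoin ℚ T) P
      rw [h2, map_zero] at h5
      exact h5
    have h6 := padic_int (isIntegral_leadingCoeff_smul P _ h1)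
    have h7 : ‖((P.leadingCoeff : ℤ) : ℚ_[q])‖ = 1 := by
      refine le_antisymm (Padic.norm_int_le_one _) (not_lt.1 fun h => ?_)
      have h8 := Padic.norm_intCast_lt_one_iff.1 h
      have h9 := Int.natCast_dvd.1 h8
      have h10 : P.leadingCoeff.natAbs ≠ 0 := Int.natAbs_ne_zero.2 (leadingCoeff_ne_zero.2 hP0)
      have h11 := Nat.le_of_dvd (Nat.pos_of_ne_zero h10) h9
      have h12 := (le_max_right B P.leadingCoeff.natAbs).trans_lt hBq
      omega
    rw [zsmul_eq_mul, norm_mul, h7, one_mul] at h6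
    exact h6
  refine ⟨q, hq, (le_max_left _ _).trans_lt hBq, ?_⟩
  obtain ⟨τ, hττ⟩ : ∃ τ : ℤ_[q], (τ : ℚ_[q]) = φ ⟨β, hβL⟩ := ⟨⟨_, hτ⟩, rfl⟩
  refine ⟨(φ.comp (ι.codRestrict (IntermediateField.adjoin ℚ T) hιL)).codRestrict
    (PadicInt.subring q) (fun o => hψ o), τ, ?_⟩
  apply Subtype.ext
  have h2 : aeval (⟨β, hβL⟩ : IntermediateField.adjoin ℚ T) P = 0 := by
    apply Subtype.ext
    have h3 := aeval_algebraMap_apply ℂ (⟨β, hβL⟩ : IntermediateField.adjoin ℚ T) P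
    have h4 : algebraMap (IntermediateField.adjoin ℚ T) ℂ ⟨β, hβL⟩ = β := rfl
    rw [h4, hβ] at h3
    exact h3.symm
  have h5 := Polynomial.aeval_algHom_apply φ.toIntAlgHom
    (⟨β, hβL⟩ : IntermediateField.adjoin ℚ T) P
  rw [h2, map_zero] at h5
  have h6 := aeval_algebraMap_apply ℚ_[q] τ P
  have h7 : algebraMap ℤ_[q] ℚ_[q] τ = φ.toIntAlgHom ⟨β, hβL⟩ := hττ
  rw [h7, h5] at h6
  exact h6.symm

/-! ## Forms -/

/-- the form `z ^ e P (x / z)` -/
def hf {R : Type*} [CommRing R] (P : ℤ[X]) (e : ℕ) (x z : R) : R :=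
  ∑ i ∈ Finset.range (e + 1), (P.coeff i : R) * x ^ i * z ^ (e - i)

lemma hf_map {R R' : Type*} [CommRing R] [CommRing R'] (f : R →+* R') (P : ℤ[X]) (e : ℕ)
    (x z : R) : f (hf P e x z) = hf P e (f x) (f z) := by
  unfold hf
  rw [map_sum]
  refine Finset.sum_congr rfl fun i _ => ?_
  rw [map_mul, map_mul, map_pow, map_pow, map_intCast]

lemma hf_mul {R : Type*} [CommRing R] {P : ℤ[X]} {e : ℕ} (hP : P.natDegree ≤ e) (τ z : R) :
    hf P e (τ * z) z = z ^ e * aeval τ P := by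
  rw [aeval_eq_sum_range' (n := e + 1) (by omega), Finset.mul_sum, hf]
  refine Finset.sum_congr rfl fun i hi => ?_
  have hie : i ≤ e := by
    have := Finset.mem_range.1 hi
    omega
  have : z ^ e = z ^ (e - i) * z ^ i := by rw [← pow_add, Nat.sub_add_cancel hie]
  rw [this, zsmul_eq_mul]
  ring

lemma hf_dvd {R : Type*} [CommRing R] {P : ℤ[X]} {e : ℕ} (hP : P.natDegree ≤ e) {M x z τ : R}
    (h : M ∣ x - τ * z) (hM : M ∣ aeval τ P) : M ∣ hf P e x z := by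
  have h1 : x - τ * z ∣ hf P e x z - hf P e (τ * z) z := by
    unfold hf
    rw [← Finset.sum_sub_distrib]
    refine Finset.dvd_sum fun i _ => ?_
    have h2 : (P.coeff i : R) * x ^ i * z ^ (e - i) - (P.coeff i : R) * (τ * z) ^ i * z ^ (e - i) =
      (x ^ i - (τ * z) ^ i) * ((P.coeff i : R) * z ^ (e - i)) := by ring
    rw [h2]
    exact (sub_dvd_pow_sub_pow _ _ _).mul_right _
  have h3 : M ∣ hf P e (τ * z) z := by
    rw [hf_mul hP]
    exact hM.mul_left _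
  have h4 := dvd_add (h.trans h1) h3
  rwa [sub_add_cancel] at h4

section

variable {O : Type*} [CommRing O] [IsDedekindDomain O] [Module.Free ℤ O] [Module.Finite ℤ O]
  [CharZero O]

/-- `u ≡ κ v` forces a small radical of the form `P` at `(b₁ v - b₀ u, b₁ v)` -/
def Src (b₀ : O) (b₁ : ℕ) (P : ℤ[X]) (e : ℕ) (q : ℕ) (κ : ℕ → ℤ) : Prop :=
  ∀ l u v : ℕ, (q : ℤ) ^ (l + 1) ∣ u - κ (l + 1) * v →
    hf P e ((b₁ : O) * v - b₀ * u) ((b₁ : O) * v) ≠ 0 →
      RN (hf P e ((b₁ : O) * v - b₀ * u) ((b₁ : O) * v)) * q ^ l ≤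
        nn (hf P e ((b₁ : O) * v - b₀ * u) ((b₁ : O) * v))

theorem exists_src (ι : O →+* ℂ) {b₀ : O} (hb₀ : b₀ ≠ 0) {b₁ : ℕ} (hb₁ : b₁ ≠ 0) {P : ℤ[X]} {e : ℕ}
    (hPe : P.natDegree ≤ e) (hP : 1 ≤ P.natDegree) (hP1 : P.eval 1 ≠ 0) (L : ℕ) :
    ∃ (q : ℕ) (κ : ℕ → ℤ), q.Prime ∧ L < q ∧ (∀ l, ¬ (q : ℤ) ∣ κ (l + 1)) ∧ Src b₀ b₁ P e q κ := by
  obtain ⟨q, hq, hBq, ψ, τ, hτ⟩ := source_hom ι hP (L + nn b₀ + b₁ + (P.eval 1).natAbs)
  have hqp : q.Prime := Fact.out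
  have unitNat : ∀ a : ℕ, a ≠ 0 → a < q → IsUnit (a : ℤ_[q]) := by
    intro a ha haq
    rw [PadicInt.isUnit_iff]
    refine le_antisymm (PadicInt.norm_le_one _) (not_lt.1 fun h => ?_)
    have h1 : ‖((a : ℤ) : ℤ_[q])‖ < 1 := by exact_mod_cast h
    have h2 := (PadicInt.norm_int_lt_one_iff_dvd _).1 h1
    have h3 := Nat.le_of_dvd (Nat.pos_of_ne_zero ha) (Int.natCast_dvd_natCast.1 h2)
    omega
  -- `ψ b₀` is a unit
  have hb₀u : IsUnit (ψ b₀) := by
    have h1 : ((nn b₀ : ℕ) : O) ∈ Ideal.span {b₀} := Ideal.absNorm_mem _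
    obtain ⟨c, hc⟩ := Ideal.mem_span_singleton.1 h1
    have h2 := congrArg ψ hc
    rw [map_mul, map_natCast] at h2
    have h3 := unitNat _ (nn_ne hb₀) (by omega)
    rw [h2] at h3
    exact isUnit_of_mul_isUnit_left h3
  have hb₁u : IsUnit ((b₁ : ℕ) : ℤ_[q]) := unitNat _ hb₁ (by omega)
  have hτu : IsUnit (1 - τ) := by
    rw [PadicInt.isUnit_iff]
    refine le_antisymm (PadicInt.norm_le_one _) (not_lt.1 fun h => ?_)
    have h1 : (q : ℤ_[q]) ∣ 1 - τ := (PadicInt.norm_lt_one_iff_dvd _).1 h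
    have h2 : (q : ℤ_[q]) ∣ ((P.eval 1 : ℤ) : ℤ_[q]) := by
      have h3 : (1 : ℤ_[q]) - τ ∣ aeval (1 : ℤ_[q]) P - aeval τ P := by
        rw [← eval_map_algebraMap, ← eval_map_algebraMap]
        exact sub_dvd_eval_sub _ _ _
      rw [hτ, sub_zero] at h3
      have h4 : aeval (1 : ℤ_[q]) P = ((P.eval 1 : ℤ) : ℤ_[q]) := by
        have := aeval_algebraMap_apply_eq_algebraMap_eval (A := ℤ_[q]) (1 : ℤ) P
        simpa using this
      rw [h4] at h3
      exact h1.trans h3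
    have h5 := (PadicInt.norm_int_lt_one_iff_dvd _).1 ((PadicInt.norm_lt_one_iff_dvd _).2 h2)
    have h6 := Nat.le_of_dvd (Nat.pos_of_ne_zero (Int.natAbs_ne_zero.2 hP1)) (Int.natCast_dvd.1 h5)
    omega
  obtain ⟨ξ, hξ⟩ : ∃ ξ : ℤ_[q], ψ b₀ * ξ = (1 - τ) * b₁ := by
    obtain ⟨c, hc⟩ := hb₀u.exists_right_inv
    refine ⟨c * ((1 - τ) * b₁), ?_⟩
    rw [← mul_assoc, hc, one_mul]
  have hξu : IsUnit ξ := by
    have : IsUnit (ψ b₀ * ξ) := by
      rw [hξ]
      exact hτu.mul hb₁u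
    exact isUnit_of_mul_isUnit_right this
  obtain ⟨κ, hκ⟩ : ∃ κ : ℕ → ℤ, κ = fun l => ((PadicInt.toZModPow l ξ).val : ℤ) := ⟨_, rfl⟩
  have hκξ : ∀ l : ℕ, (q : ℤ_[q]) ^ l ∣ ((κ l : ℤ) : ℤ_[q]) - ξ := by
    intro l
    have hne : NeZero (q ^ l) := ⟨pow_ne_zero _ hqp.ne_zero⟩
    rw [← Ideal.mem_span_singleton, ← PadicInt.ker_toZModPow, RingHom.mem_ker, map_sub, hκ,
      Int.cast_natCast, map_natCast, ZMod.natCast_zmod_val, sub_self]
  refine ⟨q, κ, hqp, by omega, fun l h => ?_, ?_⟩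
  · have h1 : (q : ℤ_[q]) ∣ ((κ (l + 1) : ℤ) : ℤ_[q]) := by
      obtain ⟨c, hc⟩ := h
      rw [hc]
      push_cast
      exact dvd_mul_right _ _
    have h2 : (q : ℤ_[q]) ∣ ξ := by
      have h3 := (dvd_pow_self (q : ℤ_[q]) (show l + 1 ≠ 0 by omega)).trans (hκξ (l + 1))
      have := dvd_sub h1 h3
      rwa [sub_sub_cancel] at this
    have h4 := (PadicInt.norm_lt_one_iff_dvd _).2 h2
    rw [PadicInt.isUnit_iff.1 hξu] at h4
    exact lt_irrefl _ h4
  · intro l u v huv hne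
    refine gain ψ l hne ?_
    rw [hf_map]
    refine hf_dvd hPe (τ := τ) ?_ (by rw [hτ]; exact dvd_zero _)
    rw [map_sub, map_mul, map_mul, map_natCast, map_natCast, map_natCast]
    have h1 : (b₁ : ℤ_[q]) * v - ψ b₀ * u - τ * (b₁ * v) = ψ b₀ * (ξ * v - u) := by
      linear_combination -(v : ℤ_[q]) * hξ
    rw [h1]
    refine Dvd.dvd.mul_left ?_ _
    have h2 : (q : ℤ_[q]) ^ (l + 1) ∣ ((u - κ (l + 1) * v : ℤ) : ℤ_[q]) := by
      obtain ⟨c, hc⟩ := huv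
      rw [hc]
      push_cast
      exact dvd_mul_right _ _
    have h3 := (hκξ (l + 1)).mul_right (v : ℤ_[q])
    have h4 := dvd_add h2 h3
    have h5 : ξ * v - u = -(((u - κ (l + 1) * v : ℤ) : ℤ_[q]) +
      (((κ (l + 1) : ℤ) : ℤ_[q]) - ξ) * v) := by
      push_cast
      ring
    rw [h5]
    exact (dvd_neg).2 h4

end

end H584.NF
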