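import Mathlib
import Pool.Agent.H584.NF.Eng
import Pool.Agent.H584.NF.Src
import Pool.Agent.H584.SH.Pos

/-!
# Triples of integers of a number field on the boundary
-/

set_option autoImplicit false

open Polynomial

namespace H584.NF

open H584.SH

lemma hf_field {K : Type*} [Field K] {P : ℤ[X]} {e : ℕ} (hP : P.natDegree ≤ e) {x z : K}
    (hz : z ≠ 0) : hf P e x z = z ^ e * aeval (x / z) P := by
  have := hf_mul hP (x / z) z
  rwa [div_mul_cancel₀ _ hz] at this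

lemma hf_smul {R : Type*} [CommRing R] (P : ℤ[X]) (e : ℕ) (c x z : R) :
    hf P e (c * x) (c * z) = c ^ e * hf P e x z := by
  unfold hf
  rw [Finset.mul_sum]
  refine Finset.sum_congr rfl fun i hi => ?_
  have hie : i ≤ e := by
    have := Finset.mem_range.1 hi
    omega
  have : c ^ e = c ^ (e - i) * c ^ i := by rw [← pow_add, Nat.sub_add_cancel hie]
  rw [this, mul_pow, mul_pow]
  ring

lemma hf_X {R : Type*} [CommRing R] (x z : R) : hf X 1 x z = x := by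
  unfold hf
  rw [Finset.sum_range_succ, Finset.sum_range_succ, Finset.sum_range_zero, coeff_X_zero,
    coeff_X_one]
  simp

lemma exists_field.{w} (O : Type w) [CommRing O] [IsDomain O] :
    ∃ (F : Type w) (_ : Field F) (φ : O →+* F), Function.Injective φ :=
  ⟨FractionRing O, inferInstance, algebraMap O (FractionRing O), IsFractionRing.injective O _⟩

set_option linter.unusedSectionVars false

section alg

variable {O : Type*} [CommRing O] [IsDomain O] [CharZero O]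

lemma sum_eq {n m k : ℕ} {A B Q : ℤ[X]} (h : PD n m k A B Q) {x y z : O} (hxy : x + y = z)
    (hz : z ≠ 0) : x ^ (n + m + 1) * hf Q k x z + y ^ (n + k + 1) * hf B m x z =
      z ^ (m + k + 1) * hf A n x z := by
  obtain ⟨F, _, φ, hφ⟩ := exists_field O
  apply hφ
  have hz' : φ z ≠ 0 := fun h0 => hz (hφ (by rw [h0, map_zero]))
  simp only [map_add, map_mul, map_pow, hf_map]
  rw [hf_field h.degA hz', hf_field h.degB hz', hf_field h.degC hz']
  obtain ⟨τ, hτ⟩ : ∃ τ, τ = φ x / φ z := ⟨_, rfl⟩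
  have hx : φ x = τ * φ z := by rw [hτ, div_mul_cancel₀ _ hz']
  have hy : φ y = (1 - τ) * φ z := by
    have := congrArg φ hxy
    rw [map_add, hx] at this
    linear_combination this
  rw [← hτ, hx, hy]
  have h1 := congrArg (aeval τ) h.eq
  simp only [map_sub, map_mul, map_pow, map_one, aeval_X] at h1
  have e1 : φ z ^ (n + m + 1) * φ z ^ k = φ z ^ (n + m + k + 1) := by rw [← pow_add]; congr 1; ring
  have e2 : φ z ^ (n + k + 1) * φ z ^ m = φ z ^ (n + m + k + 1) := by rw [← pow_add]; congr 1; ring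
  have e3 : φ z ^ (m + k + 1) * φ z ^ n = φ z ^ (n + m + k + 1) := by rw [← pow_add]; congr 1; ring
  rw [mul_pow, mul_pow]
  calc τ ^ (n + m + 1) * φ z ^ (n + m + 1) * (φ z ^ k * aeval τ Q) +
        (1 - τ) ^ (n + k + 1) * φ z ^ (n + k + 1) * (φ z ^ m * aeval τ B) =
        (φ z ^ (n + m + 1) * φ z ^ k) * (τ ^ (n + m + 1) * aeval τ Q) +
        (φ z ^ (n + k + 1) * φ z ^ m) * ((1 - τ) ^ (n + k + 1) * aeval τ B) := by ring
    _ = φ z ^ (n + m + k + 1) * aeval τ A := by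
        rw [e1, e2, ← h1]
        ring
    _ = _ := by rw [← e3]; ring

lemma cert {n m k : ℕ} {A B Q : ℤ[X]} (h : PD n m k A B Q) : ∃ (Δ : ℤ) (e : ℕ), Δ ≠ 0 ∧
    ∃ U V : ℤ[X], ∀ x z : O, z ≠ 0 → hf U e x z * (x ^ (n + m + 1) * hf Q k x z) +
      hf V e x z * (z ^ (m + k + 1) * hf A n x z) = Δ * z ^ (n + m + k + 1 + e) := by
  have hc := (h.toPK ℚ).cop.symm
  have hmap : (X ^ (n + m + 1) * Q).map (Int.castRingHom ℚ) =
      X ^ (n + m + 1) * Q.map (Int.castRingHom ℚ) := by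
    rw [Polynomial.map_mul, Polynomial.map_pow, map_X]
  rw [← hmap] at hc
  obtain ⟨Δ, U, V, hΔ, hUV⟩ := exists_bez hc
  refine ⟨Δ, max U.natDegree V.natDegree, hΔ, U, V, fun x z hz => ?_⟩
  obtain ⟨F, _, φ, hφ⟩ := exists_field O
  apply hφ
  have hz' : φ z ≠ 0 := fun h0 => hz (hφ (by rw [h0, map_zero]))
  simp only [map_add, map_mul, map_pow, hf_map, map_intCast]
  rw [hf_field h.degA hz', hf_field h.degC hz', hf_field (le_max_left _ _) hz',
    hf_field (le_max_right _ _) hz']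
  obtain ⟨τ, hτ⟩ : ∃ τ, τ = φ x / φ z := ⟨_, rfl⟩
  have hx : φ x = τ * φ z := by rw [hτ, div_mul_cancel₀ _ hz']
  rw [← hτ, hx]
  have h1 := congrArg (aeval τ) hUV
  simp only [map_add, map_mul, map_pow, aeval_X, aeval_C] at h1
  have h2 : (algebraMap ℤ F) Δ = Δ := eq_intCast _ _
  rw [h2] at h1
  obtain ⟨e, he⟩ : ∃ e, e = max U.natDegree V.natDegree := ⟨_, rfl⟩
  rw [← he, ← h1, mul_pow]
  have e1 : φ z ^ (n + m + 1) * φ z ^ k = φ z ^ (n + m + k + 1) := by rw [← pow_add]; congr 1; ring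
  have e3 : φ z ^ (m + k + 1) * φ z ^ n = φ z ^ (n + m + k + 1) := by rw [← pow_add]; congr 1; ring
  calc φ z ^ e * aeval τ U * (τ ^ (n + m + 1) * φ z ^ (n + m + 1) * (φ z ^ k * aeval τ Q)) +
        φ z ^ e * aeval τ V * (φ z ^ (m + k + 1) * (φ z ^ n * aeval τ A)) =
        φ z ^ e * (φ z ^ (n + m + 1) * φ z ^ k) * (aeval τ U * (τ ^ (n + m + 1) * aeval τ Q)) +
        φ z ^ e * (φ z ^ (m + k + 1) * φ z ^ n) * (aeval τ V * aeval τ A) := by ring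
    _ = _ := by
        rw [e1, e3, pow_add (φ z) (n + m + k + 1) e]
        ring

lemma cop_v {Q : ℤ[X]} {k : ℕ} {v x z : O} (hx : IsCoprime v x) (hz : v ∣ z)
    (hq : IsCoprime v ((Q.coeff k : ℤ) : O)) : IsCoprime v (hf Q k x z) := by
  unfold hf
  rw [Finset.sum_range_succ, Nat.sub_self, pow_zero, mul_one]
  obtain ⟨s, hs⟩ : v ∣ ∑ i ∈ Finset.range k, (Q.coeff i : O) * x ^ i * z ^ (k - i) := by
    refine Finset.dvd_sum fun i hi => ?_
    have : 1 ≤ k - i := by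
      have := Finset.mem_range.1 hi
      omega
    exact ((hz.trans (dvd_pow_self z (by omega))).mul_left _)
  rw [hs, add_comm]
  exact IsCoprime.add_mul_left_right (hq.mul_right hx.pow_right) s

end alg

lemma near {G : ℝ → ℝ} (hG : Continuous G) (h1 : 0 < G 1) : ∃ η κ C : ℝ, 0 < η ∧ 0 < κ ∧
    ∀ ρ : ℝ, |ρ - 1| < η → κ ≤ G ρ ∧ G ρ ≤ C := by
  have hev : ∀ᶠ t in nhds (1 : ℝ), G t ∈ Set.Ioo (G 1 / 2) (G 1 + 1) :=
    hG.continuousAt.eventually (Ioo_mem_nhds (by linarith) (by linarith))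
  obtain ⟨δ, hδ, hball⟩ := Metric.eventually_nhds_iff.1 hev
  refine ⟨δ, G 1 / 2, G 1 + 1, hδ, by linarith, fun ρ hρ => ?_⟩
  have := hball (y := ρ) (by rwa [Real.dist_eq])
  exact ⟨this.1.le, this.2.le⟩

section num

variable {O : Type*} [CommRing O] [IsDedekindDomain O] [Module.Free ℤ O] [Module.Finite ℤ O]
  [CharZero O] {J : Type} [Fintype J] (σ : J → O →+* ℂ)

lemma nn_hf (hσ : ∀ x : O, (nn x : ℝ) = ∏ j, ‖σ j x‖) (P : ℤ[X]) (e : ℕ) (b₀ : O) (b₁ u v : ℕ)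
    (hv : v ≠ 0) : (nn (hf P e ((b₁ : O) * v - b₀ * u) ((b₁ : O) * v)) : ℝ) =
      (v : ℝ) ^ (Fintype.card J * e) *
        ∏ j, ‖hf P e ((b₁ : ℂ) - σ j b₀ * (((u : ℝ) / v : ℝ) : ℂ)) (b₁ : ℂ)‖ := by
  have hv' : (v : ℂ) ≠ 0 := by exact_mod_cast hv
  have h1 : ∀ j, ‖σ j (hf P e ((b₁ : O) * v - b₀ * u) ((b₁ : O) * v))‖ =
      (v : ℝ) ^ e * ‖hf P e ((b₁ : ℂ) - σ j b₀ * (((u : ℝ) / v : ℝ) : ℂ)) (b₁ : ℂ)‖ := by
    intro j
    rw [hf_map, map_sub, map_mul, map_mul, map_natCast, map_natCast, map_natCast]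
    have h2 : (b₁ : ℂ) * v - σ j b₀ * u =
        v * ((b₁ : ℂ) - σ j b₀ * (((u : ℝ) / v : ℝ) : ℂ)) := by
      push_cast
      field_simp
    rw [h2, mul_comm (b₁ : ℂ) v, hf_smul, norm_mul, norm_pow, Complex.norm_natCast]
  rw [hσ, Finset.prod_congr rfl fun j _ => h1 j, Finset.prod_mul_distrib, Finset.prod_const,
    Finset.card_univ, ← pow_mul, mul_comm e]

lemma bounds (hσ : ∀ x : O, (nn x : ℝ) = ∏ j, ‖σ j x‖) {P : ℤ[X]} {e : ℕ} {b₀ : O} {b₁ : ℕ}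
    (hne : hf P e ((b₁ : O) - b₀) (b₁ : O) ≠ 0) : ∃ η κ C : ℝ, 0 < η ∧ 0 < κ ∧
      ∀ u v : ℕ, v ≠ 0 → |(u : ℝ) / v - 1| < η →
        κ * (v : ℝ) ^ (Fintype.card J * e) ≤ nn (hf P e ((b₁ : O) * v - b₀ * u) ((b₁ : O) * v)) ∧
        nn (hf P e ((b₁ : O) * v - b₀ * u) ((b₁ : O) * v)) ≤
          C * (v : ℝ) ^ (Fintype.card J * e) := by
  obtain ⟨G, hG⟩ : ∃ G : ℝ → ℝ, G = fun ρ : ℝ =>
    ∏ j, ‖hf P e ((b₁ : ℂ) - σ j b₀ * (ρ : ℂ)) (b₁ : ℂ)‖ := ⟨_, rfl⟩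
  have hcont : Continuous G := by
    rw [hG]
    unfold hf
    fun_prop
  have hG1 : 0 < G 1 := by
    have h1 := nn_hf σ hσ P e b₀ b₁ 1 1 one_ne_zero
    rw [Nat.cast_one, Nat.cast_one, mul_one, mul_one, one_pow, one_mul, div_one] at h1
    rw [hG]
    simp only
    rw [← h1]
    exact_mod_cast nn_pos hne
  obtain ⟨η, κ, C, hη, hκ, hb⟩ := near hcont hG1
  refine ⟨η, κ, C, hη, hκ, fun u v hv huv => ?_⟩
  rw [nn_hf σ hσ P e b₀ b₁ u v hv]
  have h2 := hb _ huv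
  rw [hG] at h2
  have h3 : (0 : ℝ) ≤ (v : ℝ) ^ (Fintype.card J * e) := by positivity
  constructor
  · rw [mul_comm κ]
    exact mul_le_mul_of_nonneg_left h2.1 h3
  · rw [mul_comm C]
    exact mul_le_mul_of_nonneg_left h2.2 h3

lemma nn_nat (hσ : ∀ x : O, (nn x : ℝ) = ∏ j, ‖σ j x‖) (a : ℕ) :
    nn (a : O) = a ^ Fintype.card J := by
  have h1 := hσ a
  simp only [map_natCast, Complex.norm_natCast, Finset.prod_const, Finset.card_univ] at h1
  exact_mod_cast h1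

lemma RN_nat (hσ : ∀ x : O, (nn x : ℝ) = ∏ j, ‖σ j x‖) {a W e : ℕ} (hW : 0 < W) (h : a ∣ W ^ e) :
    RN (a : O) ≤ W ^ Fintype.card J := by
  have hW' : (W : O) ≠ 0 := by exact_mod_cast hW.ne'
  have h1 : (a : O) ∣ (W : O) ^ e := by
    have := Nat.cast_dvd_cast (α := O) h
    rwa [Nat.cast_pow] at this
  refine (RN_mono h1 (pow_ne_zero _ hW')).trans ((RN_pow _ _).trans ?_)
  rw [← nn_nat σ hσ]
  exact RN_le hW'

theorem gen (hσ : ∀ x : O, (nn x : ℝ) = ∏ j, ‖σ j x‖) (ι : O →+* ℂ) {n m k : ℕ} {A B Q : ℤ[X]}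
    (h : PD n m k A B Q) (hn : 1 ≤ n) (hm : 1 ≤ m) {b₀ : O} {b₁ : ℕ} (hb₀ : b₀ ≠ 0) (hb₁ : b₁ ≠ 0)
    (hX : (b₁ : O) - b₀ ≠ 0) (hA : hf A n ((b₁ : O) - b₀) (b₁ : O) ≠ 0)
    (hB : hf B m ((b₁ : O) - b₀) (b₁ : O) ≠ 0) (hQ : hf Q k ((b₁ : O) - b₀) (b₁ : O) ≠ 0) :
    ∃ (Δ : O) (κ : ℝ), Δ ≠ 0 ∧ 0 < κ ∧ ∀ (T η : ℝ) (N : ℕ), 0 < η → ∃ u v : ℕ, N ≤ v ∧ 0 < u ∧
      0 < v ∧ |(u : ℝ) / v - 1| < η ∧ ∀ x y z a b c : O, x = (b₁ : O) * v - b₀ * u → y = b₀ * u →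
        z = (b₁ : O) * v → a = x ^ (n + m + 1) * hf Q k x z → b = y ^ (n + k + 1) * hf B m x z →
        c = z ^ (m + k + 1) * hf A n x z → a + b = c ∧ (∃ r s : O, r * a + s * c = Δ) ∧
        (κ * (v : ℝ) ^ (Fintype.card J * (n + m + k + 1)) ≤ nn a ∧
          κ * (v : ℝ) ^ (Fintype.card J * (n + m + k + 1)) ≤ nn b ∧
          κ * (v : ℝ) ^ (Fintype.card J * (n + m + k + 1)) ≤ nn c) ∧
        T * RN a ≤ (v : ℝ) ^ (Fintype.card J * (k + 1)) ∧
        T * RN b ≤ (v : ℝ) ^ (Fintype.card J * m) ∧ T * RN c ≤ (v : ℝ) ^ (Fintype.card J * n) := by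
  obtain ⟨d, hd⟩ : ∃ d, d = Fintype.card J := ⟨_, rfl⟩
  have hKQ := h.toPK ℚ
  have hAd : 1 ≤ A.natDegree := by
    have h2 := hKQ.degs.2.1
    have h3 := natDegree_map_le (f := Int.castRingHom ℚ) (p := A)
    omega
  have hBd : 1 ≤ B.natDegree := by
    have h2 := hKQ.degs.2.2
    have h3 := natDegree_map_le (f := Int.castRingHom ℚ) (p := B)
    omega
  have e1 : ∀ P : ℤ[X], (P.map (Int.castRingHom ℚ)).eval 1 = ((P.eval 1 : ℤ) : ℚ) := fun P => by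
    have := eval_intCast_map (Int.castRingHom ℚ) P 1
    rw [Int.cast_one] at this
    rw [this]
    simp
  have hA1 : A.eval 1 ≠ 0 := by
    have h2 := hKQ.one.2
    rw [e1] at h2
    exact_mod_cast h2
  have hB1 : B.eval 1 ≠ 0 := by
    have h2 := hKQ.one.1
    rw [e1] at h2
    exact_mod_cast h2
  have hQk : Q.coeff k ≠ 0 := by
    intro h0
    have h2 := hKQ.degs.1
    have h3 : (Q.map (Int.castRingHom ℚ)).natDegree = k := by
      have h4 : Q.map (Int.castRingHom ℚ) ≠ 0 := by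
        intro h5
        have := hKQ.C0
        rw [h5, eval_zero] at this
        exact this rfl
      rw [natDegree_mul (pow_ne_zero _ X_ne_zero) h4, natDegree_X_pow] at h2
      omega
    have h6 : (Q.map (Int.castRingHom ℚ)).coeff k = 0 := by rw [coeff_map, h0, map_zero]
    have h7 : Q.map (Int.castRingHom ℚ) = 0 := by
      rw [← leadingCoeff_eq_zero, leadingCoeff, h3, h6]
    have := hKQ.C0
    rw [h7, eval_zero] at this
    exact this rfl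
  -- constants
  obtain ⟨ηX, κX, CX, hηX, hκX, bX⟩ := bounds σ hσ (P := X) (e := 1) (b₀ := b₀) (b₁ := b₁)
    (by rw [hf_X]; exact hX)
  obtain ⟨ηA, κA, CA, hηA, hκA, bA⟩ := bounds σ hσ hA
  obtain ⟨ηB, κB, CB, hηB, hκB, bB⟩ := bounds σ hσ hB
  obtain ⟨ηQ, κQ, CQ, hηQ, hκQ, bQ⟩ := bounds σ hσ hQ
  rw [← hd] at bX bA bB bQ ⊢
  obtain ⟨C, hC⟩ : ∃ C : ℕ, 1 ≤ C ∧ CX ≤ C ∧ CA ≤ C ∧ CB ≤ C ∧ CQ ≤ C := by
    obtain ⟨C, hC⟩ := exists_nat_ge (max 1 (max CX (max CA (max CB CQ))))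
    refine ⟨C, ?_, ?_, ?_, ?_, ?_⟩
    · exact_mod_cast (le_max_left _ _).trans hC
    · exact ((le_max_left _ _).trans (le_max_right _ _)).trans hC
    · exact ((le_max_left _ _).trans ((le_max_right _ _).trans (le_max_right _ _))).trans hC
    · exact ((le_max_left _ _).trans ((le_max_right _ _).trans ((le_max_right _ _).trans
        (le_max_right _ _)))).trans hC
    · exact ((le_max_right _ _).trans ((le_max_right _ _).trans ((le_max_right _ _).trans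
        (le_max_right _ _)))).trans hC
  obtain ⟨hC1, hCX, hCA, hCB, hCQ⟩ := hC
  obtain ⟨Δ, e, hΔ, U, V, hUV⟩ := cert (O := O) h
  have hb₁' : (b₁ : O) ≠ 0 := by exact_mod_cast hb₁
  obtain ⟨κ, hκ⟩ : ∃ κ : ℝ, κ = min (κX ^ (n + m + 1) * κQ)
    (min (((1 / 2) ^ d) ^ (n + k + 1) * κB) κA) := ⟨_, rfl⟩
  have hκ0 : 0 < κ := by
    rw [hκ]
    exact lt_min (by positivity) (lt_min (by positivity) hκA)
  have hκ1 : κ ≤ κX ^ (n + m + 1) * κQ := by rw [hκ]; exact min_le_left _ _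
  have hκ2 : κ ≤ ((1 / 2) ^ d) ^ (n + k + 1) * κB := by
    rw [hκ]; exact (min_le_right _ _).trans (min_le_left _ _)
  have hκ3 : κ ≤ κA := by rw [hκ]; exact (min_le_right _ _).trans (min_le_right _ _)
  refine ⟨(Δ : O) * (b₁ : O) ^ (n + m + k + 1 + e), κ,
    mul_ne_zero (by exact_mod_cast hΔ) (pow_ne_zero _ hb₁'), hκ0, fun T η N hη => ?_⟩
  obtain ⟨T', hT'⟩ := exists_nat_ge T
  -- the place at which `x` is small
  obtain ⟨q₀, κ₀, hq₀, -, hκ₀, hs₀⟩ := exists_src ι hb₀ hb₁ (P := X) (e := 1) natDegree_X_le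
    (by rw [natDegree_X]) (by simp) 0
  obtain ⟨l₀, hl₀⟩ : ∃ l : ℕ, T' * C ^ 2 ≤ q₀ ^ l :=
    ⟨T' * C ^ 2, (Nat.lt_two_pow_self.le).trans (Nat.pow_le_pow_left hq₀.two_le _)⟩
  have hM₀ : q₀ ^ (l₀ + 1) ≠ 0 := pow_ne_zero _ hq₀.ne_zero
  obtain ⟨g, hg0, hg⟩ : ∃ g : ℕ, 0 < g ∧ (q₀ : ℤ) ^ (l₀ + 1) ∣ g - κ₀ (l₀ + 1) := by
    refine ⟨(κ₀ (l₀ + 1) % (q₀ : ℤ) ^ (l₀ + 1)).toNat + q₀ ^ (l₀ + 1),
      Nat.add_pos_right _ (Nat.pos_of_ne_zero hM₀), ?_⟩
    push_cast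
    rw [Int.toNat_of_nonneg (Int.emod_nonneg _ (by exact_mod_cast hM₀))]
    have := Int.emod_add_mul_ediv (κ₀ (l₀ + 1)) ((q₀ : ℤ) ^ (l₀ + 1))
    refine ⟨1 - κ₀ (l₀ + 1) / (q₀ : ℤ) ^ (l₀ + 1), ?_⟩
    linear_combination this
  obtain ⟨η', hη'⟩ : ∃ η' : ℝ, η' = min η (min (1 / 2) (min ηX (min ηA (min ηB ηQ)))) := ⟨_, rfl⟩
  have hη'0 : 0 < η' := by
    rw [hη']
    exact lt_min hη (lt_min (by norm_num) (lt_min hηX (lt_min hηA (lt_min hηB hηQ))))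
  have l1 : η' ≤ η := by rw [hη']; exact min_le_left _ _
  have l2 : η' ≤ 1 / 2 := by rw [hη']; exact (min_le_right _ _).trans (min_le_left _ _)
  have l3 : η' ≤ ηX := by
    rw [hη']; exact (min_le_right _ _).trans ((min_le_right _ _).trans (min_le_left _ _))
  have l4 : η' ≤ ηA := by
    rw [hη']; exact (min_le_right _ _).trans ((min_le_right _ _).trans ((min_le_right _ _).trans
      (min_le_left _ _)))
  have l5 : η' ≤ ηB := by
    rw [hη']; exact (min_le_right _ _).trans ((min_le_right _ _).trans ((min_le_right _ _).trans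
      ((min_le_right _ _).trans (min_le_left _ _))))
  have l6 : η' ≤ ηQ := by
    rw [hη']; exact (min_le_right _ _).trans ((min_le_right _ _).trans ((min_le_right _ _).trans
      ((min_le_right _ _).trans (min_le_right _ _))))
  have hQn : (Q.coeff k).natAbs ≠ 0 := Int.natAbs_ne_zero.2 hQk
  obtain ⟨q₂, κ₂, l₂, q₁, κ₁, l₁, u, v, W₂, W₁, e₂, e₁, s2, s1, hW₂, hW₁, hN, hu, hv, huv, hvΔ, g1,
    g2, g3, g4, g5, g6, g7, g8, g9⟩ := engine (Src b₀ b₁ B m) (Src b₀ b₁ A n)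
    (fun L => exists_src ι hb₀ hb₁ h.degB hBd hB1 L) (fun L => exists_src ι hb₀ hb₁ h.degA hAd hA1 L)
    (q₀ ^ (l₀ + 1)) g (nn b₀ * (Q.coeff k).natAbs) hM₀ hg0 (mul_ne_zero (nn_ne hb₀) hQn)
    (fun W => T' * C * (nn b₀ * b₁ ^ d) * W ^ d) (r := 1 - η') (s := 1 + η') (by linarith)
    (by linarith) N
  have hρ : |(u : ℝ) / v - 1| < η' := by
    rw [abs_lt]
    constructor <;> linarith
  refine ⟨u, v, hN, hu, hv, hρ.trans_le l1, ?_⟩
  rintro x y z a b c hx hy hz ha hb hc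
  have bX' := bX u v hv.ne' (hρ.trans_le l3)
  have bA' := bA u v hv.ne' (hρ.trans_le l4)
  have bB' := bB u v hv.ne' (hρ.trans_le l5)
  have bQ' := bQ u v hv.ne' (hρ.trans_le l6)
  have s0' := hs₀ l₀ u v (by
    rw [Nat.cast_pow] at g3
    have h1 : (u : ℤ) - κ₀ (l₀ + 1) * v = (u - g * v) + (g - κ₀ (l₀ + 1)) * v := by ring
    rw [h1]
    exact dvd_add g3 (hg.mul_right _))
  have s2' := s2 l₂ u v g4
  have s1' := s1 l₁ u v g5
  rw [hf_X, ← hx, mul_one] at bX'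
  rw [hf_X, ← hx] at s0'
  rw [← hx, ← hz] at bA' bB' bQ' s2' s1'
  have hv1 : (1 : ℝ) ≤ v := by exact_mod_cast hv
  have hv0 : (0 : ℝ) < v := by linarith
  have hu' : (u : O) ≠ 0 := by exact_mod_cast hu.ne'
  have hv' : (v : O) ≠ 0 := by exact_mod_cast hv.ne'
  have hz0 : z ≠ 0 := by
    rw [hz]
    exact mul_ne_zero hb₁' hv'
  have hy0 : y ≠ 0 := by
    rw [hy]
    exact mul_ne_zero hb₀ hu'
  have nz : ∀ {w : O} {κ' : ℝ} {E : ℕ}, 0 < κ' → κ' * (v : ℝ) ^ E ≤ nn w → w ≠ 0 := by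
    intro w κ' E h1 h2 h3
    have h4 : nn w = 0 := by
      unfold nn
      rw [h3, Ideal.span_singleton_eq_bot.2 rfl, Ideal.absNorm_bot]
    rw [h4, Nat.cast_zero] at h2
    have : 0 < κ' * (v : ℝ) ^ E := by positivity
    linarith
  have hx0 : x ≠ 0 := nz hκX bX'.1
  have hA0 := nz hκA bA'.1
  have hB0 := nz hκB bB'.1
  have hQ0 := nz hκQ bQ'.1
  have hnnb₀ : 1 ≤ nn b₀ := nn_pos hb₀
  have hnnb₁ : 1 ≤ b₁ ^ d := Nat.one_le_pow _ _ (Nat.pos_of_ne_zero hb₁)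
  refine ⟨?_, ?_, ⟨?_, ?_, ?_⟩, ?_, ?_, ?_⟩
  · rw [ha, hb, hc]
    exact sum_eq h (by rw [hx, hy, hz]; ring) hz0
  · have h1 := hUV x z hz0
    rw [← ha, ← hc] at h1
    have hcv : ∀ {t : ℕ}, Nat.Coprime v t → IsCoprime (v : O) (t : O) := fun {t} ht =>
      Nat.isCoprime_iff_coprime.2 ht |>.map (Int.castRingHom O) |> fun h => by simpa using h
    have hvb₀ : IsCoprime (v : O) b₀ := by
      have h3 : Nat.Coprime v (nn b₀) := Nat.Coprime.coprime_mul_right_right hvΔ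
      have h4 : b₀ ∣ ((nn b₀ : ℕ) : O) := Ideal.mem_span_singleton.1 (Ideal.absNorm_mem _)
      exact IsCoprime.of_isCoprime_of_dvd_right (hcv h3) h4
    have hvu : IsCoprime (v : O) (u : O) := hcv huv.symm
    have hvx : IsCoprime (v : O) x := by
      have h3 : IsCoprime (v : O) (-(b₀ * u)) := (hvb₀.mul_right hvu).neg_right
      have h4 := IsCoprime.add_mul_left_right h3 (b₁ : O)
      have h5 : -(b₀ * (u : O)) + v * b₁ = x := by rw [hx]; ring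
      rwa [h5] at h4
    have hvq : IsCoprime (v : O) ((Q.coeff k : ℤ) : O) := by
      have h3 : Nat.Coprime v (Q.coeff k).natAbs := Nat.Coprime.coprime_mul_left_right hvΔ
      refine IsCoprime.of_isCoprime_of_dvd_right (hcv h3) ?_
      rcases Int.natAbs_eq (Q.coeff k) with h4 | h4
      · rw [h4]
        simp
      · rw [h4]
        simp
    have hva : IsCoprime (v : O) a := by
      rw [ha]
      exact (hvx.pow_right).mul_right (cop_v hvx ⟨b₁, by rw [hz]; ring⟩ hvq)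
    obtain ⟨r', s', hrs⟩ : IsCoprime ((v : O) ^ (n + m + k + 1 + e)) a := hva.pow_left
    have h5 : (Δ : O) * z ^ (n + m + k + 1 + e) =
        ((Δ : O) * (b₁ : O) ^ (n + m + k + 1 + e)) * (v : O) ^ (n + m + k + 1 + e) := by
      rw [hz]
      ring
    rw [h5] at h1
    obtain ⟨Δ', hΔ'⟩ : ∃ Δ' : O, Δ' = (Δ : O) * (b₁ : O) ^ (n + m + k + 1 + e) := ⟨_, rfl⟩
    rw [← hΔ'] at h1 ⊢
    refine ⟨r' * hf U e x z + Δ' * s', r' * hf V e x z, ?_⟩
    calc (r' * hf U e x z + Δ' * s') * a + r' * hf V e x z * c =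
          r' * (hf U e x z * a + hf V e x z * c) + Δ' * s' * a := by ring
      _ = Δ' * (r' * (v : O) ^ (n + m + k + 1 + e) + s' * a) := by rw [h1]; ring
      _ = Δ' := by rw [hrs, mul_one]
  · -- lower bound for `a`
    rw [ha, nn_mul, nn_pow]
    push_cast
    calc κ * (v : ℝ) ^ (d * (n + m + k + 1)) ≤
          (κX ^ (n + m + 1) * κQ) * (v : ℝ) ^ (d * (n + m + k + 1)) := by gcongr
      _ = (κX * (v : ℝ) ^ d) ^ (n + m + 1) * (κQ * (v : ℝ) ^ (d * k)) := by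
          rw [mul_pow, ← pow_mul]
          have : d * (n + m + k + 1) = d * (n + m + 1) + d * k := by ring
          rw [this, pow_add]
          ring
      _ ≤ (nn x : ℝ) ^ (n + m + 1) * nn (hf Q k x z) := by
          gcongr
          · exact bX'.1
          · exact bQ'.1
  · -- lower bound for `b`
    rw [hb, nn_mul, nn_pow]
    push_cast
    have h1 : (1 / 2) ^ d * (v : ℝ) ^ d ≤ nn y := by
      rw [hy, nn_mul, nn_nat σ hσ, ← hd]
      push_cast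
      have h2 : (1 / 2 : ℝ) * v ≤ u := by
        have h3 := (abs_lt.1 hρ).1
        have h4 : (1 / 2 : ℝ) ≤ (u : ℝ) / v := by linarith
        rwa [le_div_iff₀ hv0] at h4
      calc (1 / 2 : ℝ) ^ d * (v : ℝ) ^ d = 1 * ((1 / 2) * v) ^ d := by rw [mul_pow]; ring
        _ ≤ (nn b₀ : ℝ) * (u : ℝ) ^ d := by
          gcongr
          exact_mod_cast hnnb₀
    calc κ * (v : ℝ) ^ (d * (n + m + k + 1)) ≤
          (((1 / 2) ^ d) ^ (n + k + 1) * κB) * (v : ℝ) ^ (d * (n + m + k + 1)) := by gcongr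
      _ = ((1 / 2) ^ d * (v : ℝ) ^ d) ^ (n + k + 1) * (κB * (v : ℝ) ^ (d * m)) := by
          rw [mul_pow, ← pow_mul (v : ℝ)]
          have : d * (n + m + k + 1) = d * (n + k + 1) + d * m := by ring
          rw [this, pow_add]
          ring
      _ ≤ (nn y : ℝ) ^ (n + k + 1) * nn (hf B m x z) := by
          gcongr
          exact bB'.1
  · -- lower bound for `c`
    rw [hc, nn_mul, nn_pow]
    push_cast
    have h1 : (v : ℝ) ^ d ≤ nn z := by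
      rw [hz, nn_mul, nn_nat σ hσ, nn_nat σ hσ, ← hd]
      push_cast
      calc (v : ℝ) ^ d = 1 * (v : ℝ) ^ d := (one_mul _).symm
        _ ≤ (b₁ : ℝ) ^ d * (v : ℝ) ^ d := by
          gcongr
          exact_mod_cast hnnb₁
    calc κ * (v : ℝ) ^ (d * (n + m + k + 1)) ≤ κA * (v : ℝ) ^ (d * (n + m + k + 1)) := by gcongr
      _ = ((v : ℝ) ^ d) ^ (m + k + 1) * (κA * (v : ℝ) ^ (d * n)) := by
          rw [← pow_mul]
          have : d * (n + m + k + 1) = d * (m + k + 1) + d * n := by ring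
          rw [this, pow_add]
          ring
      _ ≤ (nn z : ℝ) ^ (m + k + 1) * nn (hf A n x z) := by
          gcongr
          exact bA'.1
  · -- the radical of `a`
    have h1 : RN a ≤ RN x * nn (hf Q k x z) := by
      rw [ha]
      exact (RN_mul _ _).trans (Nat.mul_le_mul (RN_pow _ _) (RN_le hQ0))
    have h2 : (RN x : ℝ) * (q₀ : ℝ) ^ l₀ ≤ C * (v : ℝ) ^ d := by
      have h3 : ((RN x * q₀ ^ l₀ : ℕ) : ℝ) ≤ nn x := by exact_mod_cast s0' hx0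
      push_cast at h3
      refine h3.trans (bX'.2.trans ?_)
      gcongr
    have h4 : (nn (hf Q k x z) : ℝ) ≤ C * (v : ℝ) ^ (d * k) := by
      refine bQ'.2.trans ?_
      gcongr
    have h5 : (T' : ℝ) * (C : ℝ) ^ 2 ≤ (q₀ : ℝ) ^ l₀ := by exact_mod_cast hl₀
    have hq0 : (0 : ℝ) < (q₀ : ℝ) ^ l₀ := by
      have : (0 : ℝ) < q₀ := by exact_mod_cast hq₀.pos
      positivity
    have h6 : (q₀ : ℝ) ^ l₀ * (T' * RN a) ≤ (q₀ : ℝ) ^ l₀ * (v : ℝ) ^ (d * (k + 1)) := by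
      calc (q₀ : ℝ) ^ l₀ * (T' * RN a) ≤ (q₀ : ℝ) ^ l₀ * (T' * (RN x * nn (hf Q k x z))) := by
            gcongr
            exact_mod_cast h1
        _ = T' * ((RN x * (q₀ : ℝ) ^ l₀) * nn (hf Q k x z)) := by ring
        _ ≤ T' * ((C * (v : ℝ) ^ d) * (C * (v : ℝ) ^ (d * k))) := by gcongr
        _ = (T' * (C : ℝ) ^ 2) * ((v : ℝ) ^ d * (v : ℝ) ^ (d * k)) := by ring
        _ ≤ (q₀ : ℝ) ^ l₀ * ((v : ℝ) ^ d * (v : ℝ) ^ (d * k)) := by gcongr
        _ = _ := by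
            rw [← pow_add]
            congr 2
            ring
    have h7 := le_of_mul_le_mul_left h6 hq0
    refine le_trans ?_ h7
    gcongr
  · -- the radical of `b`
    have h1 : RN b ≤ (nn b₀ * W₂ ^ d) * RN (hf B m x z) := by
      rw [hb]
      refine (RN_mul _ _).trans (Nat.mul_le_mul_right _ ((RN_pow _ _).trans ?_))
      rw [hy]
      refine (RN_mul _ _).trans (Nat.mul_le_mul (RN_le hb₀) ?_)
      rw [hd]
      exact RN_nat σ hσ hW₂ g6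
    have h2 : (RN (hf B m x z) : ℝ) * (q₂ : ℝ) ^ l₂ ≤ C * (v : ℝ) ^ (d * m) := by
      have h3 : ((RN (hf B m x z) * q₂ ^ l₂ : ℕ) : ℝ) ≤ nn (hf B m x z) := by exact_mod_cast s2' hB0
      push_cast at h3
      refine h3.trans (bB'.2.trans ?_)
      gcongr
    have h5 : (T' : ℝ) * C * (nn b₀ * (b₁ : ℝ) ^ d) * (W₂ : ℝ) ^ d ≤ (q₂ : ℝ) ^ l₂ := by
      exact_mod_cast g8
    have hq0 : (0 : ℝ) ≤ (q₂ : ℝ) ^ l₂ := by positivity
    have hq0' : (0 : ℝ) < (q₂ : ℝ) ^ l₂ ∨ T' = 0 := by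
      rcases Nat.eq_zero_or_pos T' with h6 | h6
      · exact Or.inr h6
      · left
        have h7 : 0 < T' * C * (nn b₀ * b₁ ^ d) * W₂ ^ d := by positivity
        have h8 : 0 < q₂ ^ l₂ := h7.trans_le g8
        exact_mod_cast h8
    have hb₁1 : (1 : ℝ) ≤ (b₁ : ℝ) ^ d := by exact_mod_cast hnnb₁
    rcases hq0' with hq0' | h6
    · have h6 : (q₂ : ℝ) ^ l₂ * (T' * RN b) ≤ (q₂ : ℝ) ^ l₂ * (v : ℝ) ^ (d * m) := by
        calc (q₂ : ℝ) ^ l₂ * (T' * RN b) ≤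
              (q₂ : ℝ) ^ l₂ * (T' * ((nn b₀ * (W₂ : ℝ) ^ d) * RN (hf B m x z))) := by
              gcongr
              exact_mod_cast h1
          _ = T' * (nn b₀ * 1) * (W₂ : ℝ) ^ d * (RN (hf B m x z) * (q₂ : ℝ) ^ l₂) := by ring
          _ ≤ T' * (nn b₀ * (b₁ : ℝ) ^ d) * (W₂ : ℝ) ^ d * (C * (v : ℝ) ^ (d * m)) := by gcongr
          _ = (T' * C * (nn b₀ * (b₁ : ℝ) ^ d) * (W₂ : ℝ) ^ d) * (v : ℝ) ^ (d * m) := by ring
          _ ≤ _ := by gcongr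
      have h7 := le_of_mul_le_mul_left h6 hq0'
      refine le_trans ?_ h7
      gcongr
    · have h7 : T ≤ 0 := by
        rw [h6, Nat.cast_zero] at hT'
        exact hT'
      have h8 : T * (RN b : ℝ) ≤ 0 := mul_nonpos_of_nonpos_of_nonneg h7 (by positivity)
      exact h8.trans (by positivity)
  · -- the radical of `c`
    have h1 : RN c ≤ (b₁ ^ d * W₁ ^ d) * RN (hf A n x z) := by
      rw [hc]
      refine (RN_mul _ _).trans (Nat.mul_le_mul_right _ ((RN_pow _ _).trans ?_))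
      rw [hz]
      refine (RN_mul _ _).trans (Nat.mul_le_mul ?_ ?_)
      · rw [hd, ← nn_nat σ hσ]
        exact RN_le hb₁'
      · rw [hd]
        exact RN_nat σ hσ hW₁ g7
    have h2 : (RN (hf A n x z) : ℝ) * (q₁ : ℝ) ^ l₁ ≤ C * (v : ℝ) ^ (d * n) := by
      have h3 : ((RN (hf A n x z) * q₁ ^ l₁ : ℕ) : ℝ) ≤ nn (hf A n x z) := by exact_mod_cast s1' hA0
      push_cast at h3
      refine h3.trans (bA'.2.trans ?_)
      gcongr
    have h5 : (T' : ℝ) * C * (nn b₀ * (b₁ : ℝ) ^ d) * (W₁ : ℝ) ^ d ≤ (q₁ : ℝ) ^ l₁ := by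
      exact_mod_cast g9
    have hq0' : (0 : ℝ) < (q₁ : ℝ) ^ l₁ ∨ T' = 0 := by
      rcases Nat.eq_zero_or_pos T' with h6 | h6
      · exact Or.inr h6
      · left
        have h7 : 0 < T' * C * (nn b₀ * b₁ ^ d) * W₁ ^ d := by positivity
        have h8 : 0 < q₁ ^ l₁ := h7.trans_le g9
        exact_mod_cast h8
    have hb₀1 : (1 : ℝ) ≤ nn b₀ := by exact_mod_cast hnnb₀
    rcases hq0' with hq0' | h6
    · have h6 : (q₁ : ℝ) ^ l₁ * (T' * RN c) ≤ (q₁ : ℝ) ^ l₁ * (v : ℝ) ^ (d * n) := by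
        calc (q₁ : ℝ) ^ l₁ * (T' * RN c) ≤
              (q₁ : ℝ) ^ l₁ * (T' * (((b₁ : ℝ) ^ d * (W₁ : ℝ) ^ d) * RN (hf A n x z))) := by
              gcongr
              exact_mod_cast h1
          _ = T' * (1 * (b₁ : ℝ) ^ d) * (W₁ : ℝ) ^ d * (RN (hf A n x z) * (q₁ : ℝ) ^ l₁) := by ring
          _ ≤ T' * (nn b₀ * (b₁ : ℝ) ^ d) * (W₁ : ℝ) ^ d * (C * (v : ℝ) ^ (d * n)) := by gcongr
          _ = (T' * C * (nn b₀ * (b₁ : ℝ) ^ d) * (W₁ : ℝ) ^ d) * (v : ℝ) ^ (d * n) := by ring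
          _ ≤ _ := by gcongr
      have h7 := le_of_mul_le_mul_left h6 hq0'
      refine le_trans ?_ h7
      gcongr
    · have h7 : T ≤ 0 := by
        rw [h6, Nat.cast_zero] at hT'
        exact hT'
      have h8 : T * (RN c : ℝ) ≤ 0 := mul_nonpos_of_nonpos_of_nonneg h7 (by positivity)
      exact h8.trans (by positivity)

end num

end H584.NF
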