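import Mathlib
import Pool.Agent.H584.NF.Gen

/-!
# The principal case
-/

set_option autoImplicit false

open Polynomial

namespace H584.NF

open H584.SH

lemma extract {O : Type*} [CommRing O] [IsDomain O] [IsPrincipalIdealRing O] {a c : O} (hc : c ≠ 0) :
    ∃ g a' c' : O, g ≠ 0 ∧ a = g * a' ∧ c = g * c' ∧ IsCoprime a' c' := by
  obtain ⟨g, hg⟩ := (IsPrincipalIdealRing.principal (Ideal.span {a, c})).principal
  rw [← Ideal.span] at hg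
  have h1 : a ∈ Ideal.span {g} := by rw [← hg]; exact Ideal.subset_span (by simp)
  have h2 : c ∈ Ideal.span {g} := by rw [← hg]; exact Ideal.subset_span (by simp)
  obtain ⟨a', ha⟩ := Ideal.mem_span_singleton.1 h1
  obtain ⟨c', hc'⟩ := Ideal.mem_span_singleton.1 h2
  have hg0 : g ≠ 0 := by
    rintro rfl
    rw [zero_mul] at hc'
    exact hc hc'
  have h3 : g ∈ Ideal.span {a, c} := by rw [hg]; exact Ideal.mem_span_singleton_self g
  obtain ⟨s, t, hst⟩ := Ideal.mem_span_pair.1 h3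
  refine ⟨g, a', c', hg0, ha, hc', s, t, mul_left_cancel₀ hg0 ?_⟩
  rw [mul_one]
  calc g * (s * a' + t * c') = s * (g * a') + t * (g * c') := by ring
    _ = g := by rw [← ha, ← hc', hst]

lemma final_ineq {T C κ V w r : ℝ} {D j d : ℕ} (hκ : 0 < κ) (hV : 0 < V) (hD : 0 < D)
    (hj : j ≤ D) (hC : 1 ≤ C) (hκC : 1 ≤ C * κ) (hw : κ * V ^ (d * D) ≤ w)
    (hr : T * C * r ≤ V ^ (d * j)) : T * r ≤ w ^ ((j : ℝ) / D) := by
  have hD' : (0 : ℝ) < D := by exact_mod_cast hD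
  have hj' : (j : ℝ) ≤ D := by exact_mod_cast hj
  have hw0 : 0 < w := lt_of_lt_of_le (by positivity) hw
  have h1 : V ^ (d * D) ≤ C * w := by
    calc V ^ (d * D) = 1 * V ^ (d * D) := (one_mul _).symm
      _ ≤ (C * κ) * V ^ (d * D) := by gcongr
      _ = C * (κ * V ^ (d * D)) := by ring
      _ ≤ C * w := by gcongr
  have h2 : V ^ (d * j) ≤ (C * w) ^ ((j : ℝ) / D) := by
    have h3 : (V ^ (d * D)) ^ ((j : ℝ) / D) = V ^ (d * j) := by
      rw [← Real.rpow_natCast V (d * D), ← Real.rpow_mul hV.le]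
      have : (((d * D : ℕ) : ℝ)) * ((j : ℝ) / D) = ((d * j : ℕ) : ℝ) := by
        push_cast
        field_simp
      rw [this, Real.rpow_natCast]
    rw [← h3]
    exact Real.rpow_le_rpow (by positivity) h1 (by positivity)
  rw [Real.mul_rpow (by linarith) hw0.le] at h2
  have h4 : C ^ ((j : ℝ) / D) ≤ C := by
    calc C ^ ((j : ℝ) / D) ≤ C ^ (1 : ℝ) :=
          Real.rpow_le_rpow_of_exponent_le hC (by rw [div_le_one hD']; exact hj')
      _ = C := Real.rpow_one C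
  have h5 : C * (T * r) ≤ C * w ^ ((j : ℝ) / D) := by
    calc C * (T * r) = T * C * r := by ring
      _ ≤ V ^ (d * j) := hr
      _ ≤ C ^ ((j : ℝ) / D) * w ^ ((j : ℝ) / D) := h2
      _ ≤ C * w ^ ((j : ℝ) / D) := by gcongr
  exact le_of_mul_le_mul_left h5 (by linarith)

section num

variable {O : Type*} [CommRing O] [IsDedekindDomain O] [Module.Free ℤ O] [Module.Finite ℤ O]
  [CharZero O] [IsPrincipalIdealRing O] {J : Type} [Fintype J] (σ : J → O →+* ℂ)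

theorem gen2 (hσ : ∀ x : O, (nn x : ℝ) = ∏ j, ‖σ j x‖) (j₀ : J) {n m k : ℕ} {A B Q : ℤ[X]}
    (h : PD n m k A B Q) (hn : 1 ≤ n) (hm : 1 ≤ m) {b₀ : O} {b₁ : ℕ} (hb₀ : b₀ ≠ 0) (hb₁ : b₁ ≠ 0)
    (hX : (b₁ : O) - b₀ ≠ 0) (hA : hf A n ((b₁ : O) - b₀) (b₁ : O) ≠ 0)
    (hB : hf B m ((b₁ : O) - b₀) (b₁ : O) ≠ 0) (hQ : hf Q k ((b₁ : O) - b₀) (b₁ : O) ≠ 0)
    (T η N : ℝ) (hη : 0 < η) : ∃ (ρ : ℝ) (a b c : O), |ρ - 1| < η ∧ a ≠ 0 ∧ b ≠ 0 ∧ c ≠ 0 ∧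
      a + b = c ∧ IsCoprime a b ∧ N ≤ nn c ∧
      T * RN a ≤ (nn a : ℝ) ^ (((k + 1 : ℕ) : ℝ) / ((n + m + k + 1 : ℕ) : ℝ)) ∧
      T * RN b ≤ (nn b : ℝ) ^ ((m : ℝ) / ((n + m + k + 1 : ℕ) : ℝ)) ∧
      T * RN c ≤ (nn c : ℝ) ^ ((n : ℝ) / ((n + m + k + 1 : ℕ) : ℝ)) ∧
      ∀ j, σ j a / σ j c =
        (1 - σ j b₀ / b₁ * ρ) ^ (n + m + 1) * aeval (1 - σ j b₀ / b₁ * (ρ : ℂ)) Q /
          aeval (1 - σ j b₀ / b₁ * (ρ : ℂ)) A := by
  obtain ⟨Δ, κ, hΔ, hκ, H⟩ := gen σ hσ (σ j₀) h hn hm hb₀ hb₁ hX hA hB hQ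
  have hnΔ : 0 < nn Δ := nn_pos hΔ
  have hnΔ' : (0 : ℝ) < nn Δ := by exact_mod_cast hnΔ
  have hnΔ1 : (1 : ℝ) ≤ nn Δ := by exact_mod_cast hnΔ
  obtain ⟨d, hd⟩ : ∃ d, d = Fintype.card J := ⟨_, rfl⟩
  have hd1 : 1 ≤ d := by rw [hd]; exact Fintype.card_pos_iff.2 ⟨j₀⟩
  obtain ⟨κ', hκ'⟩ : ∃ κ' : ℝ, κ' = κ / nn Δ := ⟨_, rfl⟩
  have hκ'0 : 0 < κ' := by rw [hκ']; positivity
  obtain ⟨C, hC⟩ : ∃ C : ℝ, C = max 1 (1 / κ') := ⟨_, rfl⟩
  have hC1 : 1 ≤ C := by rw [hC]; exact le_max_left _ _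
  have hCκ : 1 ≤ C * κ' := by
    have : 1 / κ' ≤ C := by rw [hC]; exact le_max_right _ _
    rwa [div_le_iff₀ hκ'0] at this
  obtain ⟨N', hN'⟩ := exists_nat_ge (N * C)
  obtain ⟨u, v, hNv, hu, hv, hρ, HH⟩ := H (T * C) η N' hη
  obtain ⟨x, hx⟩ : ∃ x : O, x = (b₁ : O) * v - b₀ * u := ⟨_, rfl⟩
  obtain ⟨y, hy⟩ : ∃ y : O, y = b₀ * u := ⟨_, rfl⟩
  obtain ⟨z, hz⟩ : ∃ z : O, z = (b₁ : O) * v := ⟨_, rfl⟩
  obtain ⟨a, ha⟩ : ∃ a : O, a = x ^ (n + m + 1) * hf Q k x z := ⟨_, rfl⟩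
  obtain ⟨b, hb⟩ : ∃ b : O, b = y ^ (n + k + 1) * hf B m x z := ⟨_, rfl⟩
  obtain ⟨c, hc⟩ : ∃ c : O, c = z ^ (m + k + 1) * hf A n x z := ⟨_, rfl⟩
  obtain ⟨hsum, hdvd, ⟨La, Lb, Lc⟩, Ra, Rb, Rc⟩ := HH x y z a b c hx hy hz ha hb hc
  rw [← hd] at La Lb Lc Ra Rb Rc
  have hv1 : (1 : ℝ) ≤ v := by exact_mod_cast hv
  have hv0 : (0 : ℝ) < v := by linarith
  have nz : ∀ {w : O} {κ' : ℝ} {E : ℕ}, 0 < κ' → κ' * (v : ℝ) ^ E ≤ nn w → w ≠ 0 := by
    intro w κ' E h1 h2 h3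
    have h4 : nn w = 0 := by
      unfold nn
      rw [h3, Ideal.span_singleton_eq_bot.2 rfl, Ideal.absNorm_bot]
    rw [h4, Nat.cast_zero] at h2
    have : 0 < κ' * (v : ℝ) ^ E := by positivity
    linarith
  have ha0 := nz hκ La
  have hb0 := nz hκ Lb
  have hc0 := nz hκ Lc
  obtain ⟨g, a', c', hg, ea, ec, hcop⟩ := extract (a := a) hc0
  obtain ⟨b', hb'⟩ : ∃ b', b' = c' - a' := ⟨_, rfl⟩
  have eb : b = g * b' := by
    rw [hb', mul_sub, ← ea, ← ec, ← hsum]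
    ring
  have hgΔ : g ∣ Δ := by
    obtain ⟨r₁, s₁, h₁⟩ := hdvd
    rw [← h₁]
    exact dvd_add (Dvd.dvd.mul_left ⟨a', ea⟩ r₁) (Dvd.dvd.mul_left ⟨c', ec⟩ s₁)
  have hng : (nn g : ℝ) ≤ nn Δ := by
    obtain ⟨f, hf⟩ := hgΔ
    have hf0 : f ≠ 0 := by
      rintro rfl
      rw [mul_zero] at hf
      exact hΔ hf
    rw [hf, nn_mul]
    have : 1 ≤ nn f := nn_pos hf0
    push_cast
    have h2 : (1 : ℝ) ≤ nn f := by exact_mod_cast this
    have h3 : (0 : ℝ) ≤ nn g := by positivity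
    nlinarith
  have ha'0 : a' ≠ 0 := by
    rintro rfl
    rw [mul_zero] at ea
    exact ha0 ea
  have hb'0 : b' ≠ 0 := by
    rintro h0
    rw [h0, mul_zero] at eb
    exact hb0 eb
  have hc'0 : c' ≠ 0 := by
    rintro rfl
    rw [mul_zero] at ec
    exact hc0 ec
  have low : ∀ {w w' : O}, w = g * w' → κ * (v : ℝ) ^ (d * (n + m + k + 1)) ≤ nn w →
      κ' * (v : ℝ) ^ (d * (n + m + k + 1)) ≤ nn w' := by
    intro w w' e h1
    rw [e, nn_mul] at h1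
    push_cast at h1
    have h2 : κ * (v : ℝ) ^ (d * (n + m + k + 1)) ≤ nn Δ * nn w' :=
      h1.trans (mul_le_mul_of_nonneg_right hng (by positivity))
    rw [hκ', div_mul_eq_mul_div, div_le_iff₀ hnΔ']
    linarith
  have rad : ∀ {w w' : O} {R : ℝ}, w = g * w' → w ≠ 0 → 0 ≤ R → T * C * RN w ≤ R →
      T * C * RN w' ≤ R := by
    intro w w' R e hw hR h1
    rcases le_or_gt 0 (T * C) with h2 | h2
    · refine le_trans ?_ h1
      have : (RN w' : ℝ) ≤ RN w := by exact_mod_cast RN_mono ⟨g, by rw [e]; ring⟩ hw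
      gcongr
    · have : T * C * RN w' ≤ 0 := mul_nonpos_of_nonpos_of_nonneg h2.le (by positivity)
      linarith
  have hD : 0 < n + m + k + 1 := by omega
  refine ⟨(u : ℝ) / v, a', b', c', hρ, ha'0, hb'0, hc'0, by rw [hb']; ring, ?_, ?_, ?_, ?_, ?_, ?_⟩
  · have : IsCoprime a' (c' + a' * (-1)) := IsCoprime.add_mul_left_right hcop (-1)
    have e : c' + a' * (-1) = b' := by rw [hb']; ring
    rwa [e] at this
  · have h1 := low ec Lc
    have h2 : (N' : ℝ) ≤ (v : ℝ) ^ (d * (n + m + k + 1)) := by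
      calc (N' : ℝ) ≤ v := by exact_mod_cast hNv
        _ = (v : ℝ) ^ 1 := (pow_one _).symm
        _ ≤ (v : ℝ) ^ (d * (n + m + k + 1)) := pow_le_pow_right₀ hv1 (Nat.mul_pos hd1 hD)
    have h3 : N * C ≤ C * nn c' := by
      calc N * C ≤ (v : ℝ) ^ (d * (n + m + k + 1)) := hN'.trans h2
        _ = 1 * (v : ℝ) ^ (d * (n + m + k + 1)) := (one_mul _).symm
        _ ≤ (C * κ') * (v : ℝ) ^ (d * (n + m + k + 1)) := by gcongr
        _ = C * (κ' * (v : ℝ) ^ (d * (n + m + k + 1))) := by ring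
        _ ≤ C * nn c' := by gcongr
    rw [mul_comm] at h3
    exact le_of_mul_le_mul_left h3 (by linarith)
  · exact final_ineq (j := k + 1) hκ'0 hv0 hD (by omega) hC1 hCκ (low ea La)
      (rad ea ha0 (by positivity) Ra)
  · exact final_ineq (j := m) hκ'0 hv0 hD (by omega) hC1 hCκ (low eb Lb)
      (rad eb hb0 (by positivity) Rb)
  · exact final_ineq (j := n) hκ'0 hv0 hD (by omega) hC1 hCκ (low ec Lc)
      (rad ec hc0 (by positivity) Rc)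
  · intro j
    have inj : ∀ w : O, w ≠ 0 → σ j w ≠ 0 := by
      intro w hw h0
      have h1 := hσ w
      rw [Finset.prod_eq_zero (Finset.mem_univ j) (by rw [h0, norm_zero])] at h1
      exact nn_ne hw (by exact_mod_cast h1)
    have hz0 : z ≠ 0 := by
      rw [hz]
      exact mul_ne_zero (by exact_mod_cast hb₁) (by exact_mod_cast hv.ne')
    have hzj := inj z hz0
    have h1 : σ j a' / σ j c' = σ j a / σ j c := by
      rw [ea, ec, map_mul, map_mul, mul_div_mul_left _ _ (inj g hg)]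
    have hb₁' : (b₁ : ℂ) ≠ 0 := by exact_mod_cast hb₁
    have hv' : (v : ℂ) ≠ 0 := by exact_mod_cast hv.ne'
    obtain ⟨t, ht⟩ : ∃ t : ℂ, t = 1 - σ j b₀ / b₁ * (((u : ℝ) / v : ℝ) : ℂ) := ⟨_, rfl⟩
    have hxz : σ j x / σ j z = t := by
      rw [hx, hz, ht, map_sub, map_mul, map_mul, map_natCast, map_natCast, map_natCast]
      push_cast
      field_simp
    have hxt : σ j x = t * σ j z := by rw [← hxz, div_mul_cancel₀ _ hzj]
    rw [h1, ha, hc, map_mul, map_mul, map_pow, map_pow, hf_map, hf_map, hf_field h.degC hzj,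
      hf_field h.degA hzj, hxz, ← ht, hxt, mul_pow]
    have e1 : (σ j z) ^ (n + m + 1) * (σ j z) ^ k = (σ j z) ^ (n + m + k + 1) := by
      rw [← pow_add]; congr 1; ring
    have e3 : (σ j z) ^ (m + k + 1) * (σ j z) ^ n = (σ j z) ^ (n + m + k + 1) := by
      rw [← pow_add]; congr 1; ring
    have e4 : t ^ (n + m + 1) * (σ j z) ^ (n + m + 1) * ((σ j z) ^ k * aeval t Q) =
        (σ j z) ^ (n + m + k + 1) * (t ^ (n + m + 1) * aeval t Q) := by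
      rw [← e1]; ring
    have e5 : (σ j z) ^ (m + k + 1) * ((σ j z) ^ n * aeval t A) =
        (σ j z) ^ (n + m + k + 1) * aeval t A := by
      rw [← e3]; ring
    rw [e4, e5, mul_div_mul_left _ _ (pow_ne_zero _ hzj)]

end num

end H584.NF
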