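import Mathlib
import Pool.Agent.H584.NF.Gen2

/-!
# The Gaussian integers
-/

set_option autoImplicit false

open Polynomial UniqueFactorizationMonoid

namespace H584.NF.Gau

/-- the basis `1, i` -/
noncomputable def bas : Module.Basis (Fin 2) ℤ GaussianInt :=
  Module.Basis.ofEquivFun
    { toFun := fun z => ![z.re, z.im]
      invFun := fun f => ⟨f 0, f 1⟩
      map_add' := fun x y => by
        ext i
        fin_cases i <;> simp
      map_smul' := fun r x => by
        ext i
        fin_cases i <;> simp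
      left_inv := fun z => by
        apply Zsqrtd.ext <;> simp
      right_inv := fun f => by
        ext i
        fin_cases i <;> simp }

instance : Module.Free ℤ GaussianInt := Module.Free.of_basis bas
instance : Module.Finite ℤ GaussianInt := Module.Finite.of_basis bas

lemma norm_eq (x : GaussianInt) : Algebra.norm ℤ x = x.re ^ 2 + x.im ^ 2 := by
  rw [Algebra.norm_eq_matrix_det bas, Matrix.det_fin_two]
  simp only [Algebra.leftMulMatrix_eq_repr_mul]
  have e0 : bas 0 = 1 := by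
    apply bas.equivFun.injective
    ext i
    fin_cases i <;> simp [bas]
  have e1 : bas 1 = ⟨0, 1⟩ := by
    apply bas.equivFun.injective
    ext i
    fin_cases i <;> simp [bas]
  have r : ∀ (z : GaussianInt), bas.repr z 0 = z.re ∧ bas.repr z 1 = z.im := by
    intro z
    constructor <;> simp [bas]
  rw [(r _).1, (r _).1, (r _).2, (r _).2, e0, e1]
  simp
  ring

lemma nn_eq (x : GaussianInt) : (nn x : ℝ) = ‖GaussianInt.toComplex x‖ ^ 2 := by
  unfold nn
  rw [Ideal.absNorm_span_singleton, norm_eq, GaussianInt.toComplex_def, ← Complex.normSq_eq_norm_sq,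
    Complex.normSq_apply]
  have : (0 : ℤ) ≤ x.re ^ 2 + x.im ^ 2 := by positivity
  rw [Nat.cast_natAbs, abs_of_nonneg this]
  simp
  ring

lemma quadrant {Q Q' : GaussianInt} (h : Associated Q Q') (hQ : 0 < Q.re ∧ 0 ≤ Q.im)
    (hQ' : 0 < Q'.re ∧ 0 ≤ Q'.im) : Q = Q' := by
  obtain ⟨u, hu⟩ := h
  have h1 : (u : GaussianInt).re ^ 2 + (u : GaussianInt).im ^ 2 = 1 := by
    have h2 : IsUnit (Algebra.norm ℤ (u : GaussianInt)) := u.isUnit.map _
    rw [norm_eq] at h2
    rcases Int.isUnit_iff.1 h2 with h3 | h3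
    · exact h3
    · have : 0 ≤ (u : GaussianInt).re ^ 2 + (u : GaussianInt).im ^ 2 := by positivity
      omega
  obtain ⟨a, b, hab⟩ : ∃ a b : ℤ, (u : GaussianInt) = ⟨a, b⟩ := ⟨_, _, rfl⟩
  rw [hab] at h1 hu
  simp only at h1
  have hre : Q'.re = Q.re * a - Q.im * b := by
    rw [← hu]
    simp
    ring
  have him : Q'.im = Q.re * b + Q.im * a := by
    rw [← hu]
    simp
  have hb : b ^ 2 ≤ 1 := by nlinarith [sq_nonneg a]
  have ha : a ^ 2 ≤ 1 := by nlinarith [sq_nonneg b]
  have hb' : -1 ≤ b ∧ b ≤ 1 := abs_le.1 (by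
    rw [← sq_abs] at hb
    nlinarith [abs_nonneg b])
  have ha' : -1 ≤ a ∧ a ≤ 1 := abs_le.1 (by
    rw [← sq_abs] at ha
    nlinarith [abs_nonneg a])
  obtain ⟨hb1, hb2⟩ := hb'
  obtain ⟨ha1, ha2⟩ := ha'
  obtain ⟨p1, p2⟩ := hQ
  obtain ⟨p3, p4⟩ := hQ'
  interval_cases a <;> interval_cases b <;> first
    | (exfalso; omega)
    | (apply Zsqrtd.ext <;> omega)

lemma injOn (S : Set GaussianInt) (hS : ∀ Q ∈ S, 0 < Q.re ∧ 0 ≤ Q.im) :
    Set.InjOn (fun Q : GaussianInt => Ideal.span {Q}) S := by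
  intro Q hQ Q' hQ' h
  exact quadrant (Ideal.span_singleton_eq_span_singleton.1 h) (hS Q hQ) (hS Q' hQ')

/-- the normalised prime divisors -/
def PS (n : GaussianInt) : Set GaussianInt :=
  {Q : GaussianInt | Prime Q ∧ Q ∣ n ∧ (0 < Q.re ∧ 0 ≤ Q.im)}

lemma mapsTo {n : GaussianInt} (hn : n ≠ 0) :
    ∀ Q ∈ PS n, Ideal.span {Q} ∈ primeFactors (Ideal.span {n}) := by
  rintro Q ⟨h1, h2, -⟩
  rw [mem_primeFactors]
  have h3 : Prime (Ideal.span {Q}) := by
    rw [Ideal.prime_iff_isPrime (by rw [ne_eq, Ideal.span_singleton_eq_bot]; exact h1.ne_zero)]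
    exact (Ideal.span_singleton_prime h1.ne_zero).2 h1
  have h4 : Ideal.span {Q} ∣ Ideal.span {n} := by
    rw [Ideal.dvd_span_singleton, Ideal.mem_span_singleton]
    exact h2
  rw [mem_normalizedFactors_iff' (by rw [ne_eq, Ideal.zero_eq_bot, Ideal.span_singleton_eq_bot]; exact hn)]
  exact ⟨h3.irreducible, normalize_eq _, h4⟩

lemma rad_sq {n : GaussianInt} (hn : n ≠ 0) :
    (∏ᶠ Q ∈ PS n, ‖GaussianInt.toComplex Q‖) ^ 2 ≤ RN n := by
  classical
  have hinj : Set.InjOn (fun Q : GaussianInt => Ideal.span {Q}) (PS n) :=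
    injOn _ fun Q hQ => hQ.2.2
  have hfin : (PS n).Finite := by
    refine Set.Finite.of_finite_image (Set.Finite.subset
      (primeFactors (Ideal.span {n})).finite_toSet ?_) hinj
    rintro _ ⟨Q, hQ, rfl⟩
    exact mapsTo hn Q hQ
  rw [finprod_mem_eq_finite_toFinset_prod _ hfin, ← Finset.prod_pow]
  have h1 : ∏ Q ∈ hfin.toFinset, ‖GaussianInt.toComplex Q‖ ^ 2 =
      ((∏ P ∈ hfin.toFinset.image (fun Q : GaussianInt => Ideal.span {Q}), Ideal.absNorm P : ℕ) : ℝ) := by
    rw [Finset.prod_image (fun Q hQ Q' hQ' h => hinj (by simpa using hQ) (by simpa using hQ') h),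
      Nat.cast_prod]
    exact Finset.prod_congr rfl fun Q _ => (nn_eq Q).symm
  rw [h1]
  have h2 : RN n = ∏ P ∈ primeFactors (Ideal.span {n}), Ideal.absNorm P := by
    unfold RN RI radical
    rw [map_prod]
    rfl
  rw [h2]
  have h3 : hfin.toFinset.image (fun Q : GaussianInt => Ideal.span {Q}) ⊆
      primeFactors (Ideal.span {n}) := by
    intro P hP
    obtain ⟨Q, hQ, rfl⟩ := Finset.mem_image.1 hP
    exact mapsTo hn Q (by simpa using hQ)
  have h4 := Finset.prod_le_prod_of_subset_of_one_le' (f := fun P : Ideal GaussianInt =>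
    Ideal.absNorm P) h3 fun P hP _ => by
      have hP' : Irreducible P := irreducible_of_normalized_factor P (mem_primeFactors.1 hP)
      refine Nat.one_le_iff_ne_zero.2 ?_
      rw [ne_eq, Ideal.absNorm_eq_zero_iff]
      exact hP'.ne_zero
  exact_mod_cast h4

end H584.NF.Gau
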