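import Mathlib
import Pool.Agent.H584.NF.Gau

/-!
# Triples of Gaussian integers on the boundary plane
-/

set_option autoImplicit false

open Polynomial

namespace H584.NF

open H584.SH

lemma hf_ne {O : Type*} [CommRing O] (τ : O →+* ℂ) {P : ℤ[X]} {e : ℕ} (hP : P.natDegree ≤ e)
    {b₀ : O} {b₁ : ℕ} (hb₁ : b₁ ≠ 0) (h : aeval (1 - τ b₀ / b₁) P ≠ 0) :
    hf P e ((b₁ : O) - b₀) (b₁ : O) ≠ 0 := by
  intro h0
  have h1 := congrArg τ h0
  have hb₁' : (b₁ : ℂ) ≠ 0 := by exact_mod_cast hb₁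
  rw [hf_map, map_zero, map_sub, map_natCast, hf_field hP hb₁', sub_div, div_self hb₁'] at h1
  rcases mul_eq_zero.1 h1 with h2 | h2
  · exact pow_ne_zero _ hb₁' h2
  · exact h h2

lemma target {n m k : ℕ} {A B Q : ℤ[X]} (h : PD n m k A B Q) {z : ℂ} (hz0 : z ≠ 0) (hz1 : z ≠ 1) :
    ∃ t : ℂ, t ≠ 0 ∧ 1 - t ≠ 0 ∧ aeval t A ≠ 0 ∧ aeval t B ≠ 0 ∧ aeval t Q ≠ 0 ∧
      t ^ (n + m + 1) * aeval t Q / aeval t A = z := by
  have hK := h.toPK ℂ
  obtain ⟨AC, hAC⟩ : ∃ AC, AC = A.map (Int.castRingHom ℂ) := ⟨_, rfl⟩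
  obtain ⟨BC, hBC⟩ : ∃ BC, BC = B.map (Int.castRingHom ℂ) := ⟨_, rfl⟩
  obtain ⟨QC, hQC⟩ : ∃ QC, QC = Q.map (Int.castRingHom ℂ) := ⟨_, rfl⟩
  have ev : ∀ (t : ℂ) (P : ℤ[X]), aeval t P = (P.map (Int.castRingHom ℂ)).eval t := fun t P =>
    (eval_map_algebraMap P t).symm
  rw [← hAC, ← hBC, ← hQC] at hK
  obtain ⟨F, hF⟩ : ∃ F, F = X ^ (n + m + 1) * QC - C z * AC := ⟨_, rfl⟩
  have hd : F.natDegree = n + m + k + 1 := by
    have h1 := hK.degs.1
    have h2 : (C z * AC).natDegree ≤ n := (natDegree_C_mul_le z AC).trans hK.degA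
    rw [hF, natDegree_sub_eq_left_of_natDegree_lt (by rw [h1]; omega), h1]
  obtain ⟨t, ht⟩ := IsAlgClosed.exists_root F (by
    refine (natDegree_pos_iff_degree_pos.1 ?_).ne'
    omega)
  rw [IsRoot, hF] at ht
  simp only [eval_sub, eval_mul, eval_pow, eval_X, eval_C] at ht
  have ht' : t ^ (n + m + 1) * QC.eval t = z * AC.eval t := sub_eq_zero.1 ht
  have hA : AC.eval t ≠ 0 := by
    intro h0
    obtain ⟨u, v, huv⟩ := hK.cop
    have h1 := congrArg (eval t) huv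
    simp only [eval_add, eval_mul, eval_pow, eval_X, eval_one] at h1
    rw [ht', h0] at h1
    simp at h1
  have hE := congrArg (eval t) hK.eq
  simp only [eval_sub, eval_mul, eval_pow, eval_X, eval_one] at hE
  rw [ht'] at hE
  have hB' : (1 - t) ^ (n + k + 1) * BC.eval t = (1 - z) * AC.eval t := by linear_combination -hE
  have hB'' : (1 - t) ^ (n + k + 1) * BC.eval t ≠ 0 := by
    rw [hB']
    exact mul_ne_zero (sub_ne_zero.2 hz1.symm) hA
  have hQ'' : t ^ (n + m + 1) * QC.eval t ≠ 0 := by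
    rw [ht']
    exact mul_ne_zero hz0 hA
  refine ⟨t, fun h0 => hQ'' (by rw [h0, zero_pow (by omega), zero_mul]),
    fun h0 => hB'' (by rw [h0, zero_pow (by omega), zero_mul]), ?_, ?_, ?_, ?_⟩
  · rw [ev, ← hAC]; exact hA
  · rw [ev, ← hBC]; exact right_ne_zero_of_mul hB''
  · rw [ev, ← hQC]; exact right_ne_zero_of_mul hQ''
  · rw [ev, ev, ← hAC, ← hQC, ht', mul_div_assoc, div_self hA, mul_one]

/-- the points near `t` -/
lemma nbhd {n m k : ℕ} {A B Q : ℤ[X]} {t : ℂ} (h0 : t ≠ 0) (h1 : 1 - t ≠ 0)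
    (hA : aeval t A ≠ 0) (hB : aeval t B ≠ 0) (hQ : aeval t Q ≠ 0) {ε : ℝ} (hε : 0 < ε) :
    ∃ δ : ℝ, 0 < δ ∧ ∀ s : ℂ, ‖s - t‖ < δ → s ≠ 0 ∧ 1 - s ≠ 0 ∧ aeval s A ≠ 0 ∧ aeval s B ≠ 0 ∧
      aeval s Q ≠ 0 ∧ ‖s ^ (n + m + 1) * aeval s Q / aeval s A -
        t ^ (n + m + 1) * aeval t Q / aeval t A‖ < ε := by
  have cA : Continuous fun s : ℂ => aeval s A := Polynomial.continuous_aeval A
  have cB : Continuous fun s : ℂ => aeval s B := Polynomial.continuous_aeval B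
  have cQ : Continuous fun s : ℂ => aeval s Q := Polynomial.continuous_aeval Q
  have c1 : Continuous fun s : ℂ => 1 - s := by fun_prop
  have cF : ContinuousAt (fun s : ℂ => s ^ (n + m + 1) * aeval s Q / aeval s A) t :=
    ((continuous_pow (n + m + 1)).mul cQ).continuousAt.div cA.continuousAt hA
  have e1 := (continuous_id (X := ℂ)).continuousAt.eventually_ne h0
  have e2 := c1.continuousAt.eventually_ne h1
  have e3 := cA.continuousAt.eventually_ne hA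
  have e4 := cB.continuousAt.eventually_ne hB
  have e5 := cQ.continuousAt.eventually_ne hQ
  have e6 := cF.eventually (Metric.ball_mem_nhds _ hε)
  obtain ⟨δ, hδ, hb⟩ := Metric.eventually_nhds_iff.1
    (e1.and (e2.and (e3.and (e4.and (e5.and e6)))))
  refine ⟨δ, hδ, fun s hs => ?_⟩
  obtain ⟨g1, g2, g3, g4, g5, g6⟩ := hb (y := s) (by rwa [dist_eq_norm])
  exact ⟨g1, g2, g3, g4, g5, by rwa [dist_eq_norm] at g6⟩

lemma gauss_dense (s : ℂ) {δ : ℝ} (hδ : 0 < δ) : ∃ (b₀ : GaussianInt) (b₁ : ℕ), b₁ ≠ 0 ∧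
    ‖GaussianInt.toComplex b₀ / b₁ - s‖ < δ := by
  obtain ⟨b, hb⟩ := exists_nat_gt (1 / δ)
  have hb0 : (0 : ℝ) < b := (one_div_pos.2 hδ).trans hb
  have hb1 : b ≠ 0 := by
    rintro rfl
    simp at hb0
  refine ⟨⟨round (s.re * b), round (s.im * b)⟩, b, hb1, ?_⟩
  have hbc : (b : ℂ) ≠ 0 := by exact_mod_cast hb1
  have h1 : GaussianInt.toComplex ⟨round (s.re * b), round (s.im * b)⟩ / b - s =
      (GaussianInt.toComplex ⟨round (s.re * b), round (s.im * b)⟩ - s * b) / b := by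
    field_simp
  rw [h1, norm_div, Complex.norm_natCast, div_lt_iff₀ hb0]
  have h2 : ‖GaussianInt.toComplex ⟨round (s.re * b), round (s.im * b)⟩ - s * b‖ ≤
      |(round (s.re * b) : ℝ) - s.re * b| + |(round (s.im * b) : ℝ) - s.im * b| := by
    refine (Complex.norm_le_abs_re_add_abs_im _).trans (le_of_eq ?_)
    rw [GaussianInt.toComplex_def]
    simp
  have h3 := abs_sub_round (s.re * b)
  have h4 := abs_sub_round (s.im * b)
  rw [abs_sub_comm] at h3 h4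
  have h5 : 1 < δ * b := by
    rw [div_lt_iff₀ hδ] at hb
    linarith
  linarith

open Gau in
/-- The Gaussian integers on the boundary plane -/
theorem gauss_main {n m k : ℕ} (hn : 1 ≤ n) (hm : 1 ≤ m) (z : ℂ) {ε : ℝ} (hε : 0 < ε) (T N : ℝ) :
    ∃ a b c : GaussianInt, a ≠ 0 ∧ b ≠ 0 ∧ c ≠ 0 ∧ a + b = c ∧ IsCoprime a b ∧
      N ≤ ‖GaussianInt.toComplex c‖ ^ 2 ∧
      ‖GaussianInt.toComplex a / GaussianInt.toComplex c - z‖ < ε ∧
      T * RN a ≤ (‖GaussianInt.toComplex a‖ ^ 2) ^ (((k + 1 : ℕ) : ℝ) / ((n + m + k + 1 : ℕ) : ℝ)) ∧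
      T * RN b ≤ (‖GaussianInt.toComplex b‖ ^ 2) ^ ((m : ℝ) / ((n + m + k + 1 : ℕ) : ℝ)) ∧
      T * RN c ≤ (‖GaussianInt.toComplex c‖ ^ 2) ^ ((n : ℝ) / ((n + m + k + 1 : ℕ) : ℝ)) := by
  -- a target different from `0` and `1`
  obtain ⟨w, hw0, hw1, hwz⟩ : ∃ w : ℂ, w ≠ 0 ∧ w ≠ 1 ∧ ‖w - z‖ < ε / 2 := by
    by_cases h : z ≠ 0 ∧ z ≠ 1
    · exact ⟨z, h.1, h.2, by rw [sub_self, norm_zero]; linarith⟩
    · obtain ⟨r, hr⟩ : ∃ r : ℝ, r = min (ε / 4) (1 / 2) := ⟨_, rfl⟩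
      have hr0 : 0 < r := by rw [hr]; exact lt_min (by linarith) (by norm_num)
      have hr1 : r ≤ ε / 4 := by rw [hr]; exact min_le_left _ _
      have hr2 : r ≤ 1 / 2 := by rw [hr]; exact min_le_right _ _
      have hn : ‖(z + (r : ℂ)) - z‖ < ε / 2 := by
        rw [add_sub_cancel_left, Complex.norm_real, Real.norm_of_nonneg hr0.le]
        linarith
      have hz : z = 0 ∨ z = 1 := by tauto
      rcases hz with rfl | rfl
      · refine ⟨0 + r, ?_, ?_, hn⟩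
        · rw [zero_add]
          exact_mod_cast hr0.ne'
        · rw [zero_add]
          intro h3
          have : r = 1 := by exact_mod_cast h3
          linarith
      · refine ⟨1 + r, ?_, ?_, hn⟩
        · intro h3
          have : 1 + r = 0 := by exact_mod_cast h3
          linarith
        · intro h3
          have : 1 + r = 1 := by exact_mod_cast h3
          linarith
  obtain ⟨A, B, Q, h⟩ := exists_pade n m k
  obtain ⟨t, t0, t1, tA, tB, tQ, ht⟩ := target h hw0 hw1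
  obtain ⟨δ, hδ, hb⟩ := nbhd (n := n) (m := m) (k := k) t0 t1 tA tB tQ (ε := ε / 2) (by linarith)
  obtain ⟨b₀, b₁, hb₁, hbs⟩ := gauss_dense (1 - t) (δ := δ / 2) (by linarith)
  have hnear : ‖(1 - GaussianInt.toComplex b₀ / b₁) - t‖ < δ / 2 := by
    have : (1 - GaussianInt.toComplex b₀ / b₁) - t =
      -(GaussianInt.toComplex b₀ / b₁ - (1 - t)) := by ring
    rwa [this, norm_neg]
  obtain ⟨g1, g2, g3, g4, g5, -⟩ := hb _ (hnear.trans (by linarith))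
  have hb₀ : b₀ ≠ 0 := by
    rintro rfl
    apply g2
    simp
  have hb₁' : (b₁ : ℂ) ≠ 0 := by exact_mod_cast hb₁
  have hX : (b₁ : GaussianInt) - b₀ ≠ 0 := by
    intro h0
    apply g1
    have : b₀ = (b₁ : GaussianInt) := (sub_eq_zero.1 h0).symm
    rw [this, map_natCast, div_self hb₁', sub_self]
  obtain ⟨σ, hσ0⟩ : ∃ σ : Fin 2 → GaussianInt →+* ℂ, σ = ![GaussianInt.toComplex,
    (starRingEnd ℂ).comp GaussianInt.toComplex] := ⟨_, rfl⟩
  have hσ : ∀ x : GaussianInt, (nn x : ℝ) = ∏ j, ‖σ j x‖ := by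
    intro x
    rw [nn_eq, Fin.prod_univ_two, hσ0]
    simp [sq]
  have hσ1 : σ 0 = GaussianInt.toComplex := by rw [hσ0]; rfl
  obtain ⟨M, hM⟩ : ∃ M : ℝ, M = ‖GaussianInt.toComplex b₀ / b₁‖ + 1 := ⟨_, rfl⟩
  have hM0 : 0 < M := by rw [hM]; positivity
  obtain ⟨ρ, a, b, c, hρ, ha, hb0, hc, hsum, hcop, hN, r1, r2, r3, hj⟩ := gen2 σ hσ 0 h hn hm hb₀
    hb₁ hX (hf_ne GaussianInt.toComplex h.degA hb₁ g3) (hf_ne GaussianInt.toComplex h.degB hb₁ g4)
    (hf_ne GaussianInt.toComplex h.degC hb₁ g5) T (δ / (2 * M)) N (by positivity)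
  have h1 := hj 0
  rw [hσ1] at h1
  have hnear2 : ‖(1 - GaussianInt.toComplex b₀ / b₁ * (ρ : ℂ)) - t‖ < δ := by
    have e : (1 - GaussianInt.toComplex b₀ / b₁ * (ρ : ℂ)) - t =
      ((1 - GaussianInt.toComplex b₀ / b₁) - t) -
        (GaussianInt.toComplex b₀ / b₁) * ((ρ - 1 : ℝ) : ℂ) := by
      push_cast
      ring
    rw [e]
    have h2 : ‖(GaussianInt.toComplex b₀ / b₁) * ((ρ - 1 : ℝ) : ℂ)‖ < δ / 2 := by
      rw [norm_mul, Complex.norm_real, Real.norm_eq_abs]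
      have h3 : ‖GaussianInt.toComplex b₀ / b₁‖ ≤ M := by rw [hM]; linarith
      calc ‖GaussianInt.toComplex b₀ / b₁‖ * |ρ - 1| ≤ M * |ρ - 1| :=
            mul_le_mul_of_nonneg_right h3 (abs_nonneg _)
        _ < M * (δ / (2 * M)) := mul_lt_mul_of_pos_left hρ hM0
        _ = δ / 2 := by field_simp
    have := norm_sub_le ((1 - GaussianInt.toComplex b₀ / b₁) - t)
      ((GaussianInt.toComplex b₀ / b₁) * ((ρ - 1 : ℝ) : ℂ))
    linarith
  obtain ⟨-, -, -, -, -, g6⟩ := hb _ hnear2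
  rw [← h1, ht] at g6
  rw [nn_eq] at hN r1 r2 r3
  refine ⟨a, b, c, ha, hb0, hc, hsum, hcop, hN, ?_, r1, r2, r3⟩
  have := norm_sub_le_norm_sub_add_norm_sub (GaussianInt.toComplex a / GaussianInt.toComplex c) w z
  linarith

end H584.NF
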