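import Mathlib
import Pool.Agent.H584.NF.Gen2

/-!
# The general case: triples which are coprime up to a fixed factor
-/

set_option autoImplicit false

open Polynomial

namespace H584.NF

open H584.SH

section num

variable {O : Type*} [CommRing O] [IsDedekindDomain O] [Module.Free ℤ O] [Module.Finite ℤ O]
  [CharZero O] {J : Type} [Fintype J] (σ : J → O →+* ℂ)

theorem gen3 (hσ : ∀ x : O, (nn x : ℝ) = ∏ j, ‖σ j x‖) (j₀ : J) {n m k : ℕ} {A B Q : ℤ[X]}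
    (h : PD n m k A B Q) (hn : 1 ≤ n) (hm : 1 ≤ m) {b₀ : O} {b₁ : ℕ} (hb₀ : b₀ ≠ 0) (hb₁ : b₁ ≠ 0)
    (hX : (b₁ : O) - b₀ ≠ 0) (hA : hf A n ((b₁ : O) - b₀) (b₁ : O) ≠ 0)
    (hB : hf B m ((b₁ : O) - b₀) (b₁ : O) ≠ 0) (hQ : hf Q k ((b₁ : O) - b₀) (b₁ : O) ≠ 0) :
    ∃ Δ : O, Δ ≠ 0 ∧ ∀ T η N : ℝ, 0 < η → ∃ (ρ : ℝ) (a b c : O), |ρ - 1| < η ∧ a ≠ 0 ∧ b ≠ 0 ∧
      c ≠ 0 ∧ a + b = c ∧ (∃ r s : O, r * a + s * c = Δ) ∧ (N ≤ nn a ∧ N ≤ nn b ∧ N ≤ nn c) ∧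
      T * RN a ≤ (nn a : ℝ) ^ (((k + 1 : ℕ) : ℝ) / ((n + m + k + 1 : ℕ) : ℝ)) ∧
      T * RN b ≤ (nn b : ℝ) ^ ((m : ℝ) / ((n + m + k + 1 : ℕ) : ℝ)) ∧
      T * RN c ≤ (nn c : ℝ) ^ ((n : ℝ) / ((n + m + k + 1 : ℕ) : ℝ)) ∧
      ∀ j, σ j a / σ j c =
        (1 - σ j b₀ / b₁ * ρ) ^ (n + m + 1) * aeval (1 - σ j b₀ / b₁ * (ρ : ℂ)) Q /
          aeval (1 - σ j b₀ / b₁ * (ρ : ℂ)) A := by
  obtain ⟨Δ, κ, hΔ, hκ, H⟩ := gen σ hσ (σ j₀) h hn hm hb₀ hb₁ hX hA hB hQ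
  refine ⟨Δ, hΔ, fun T η N hη => ?_⟩
  obtain ⟨d, hd⟩ : ∃ d, d = Fintype.card J := ⟨_, rfl⟩
  have hd1 : 1 ≤ d := by rw [hd]; exact Fintype.card_pos_iff.2 ⟨j₀⟩
  obtain ⟨C, hC⟩ : ∃ C : ℝ, C = max 1 (1 / κ) := ⟨_, rfl⟩
  have hC1 : 1 ≤ C := by rw [hC]; exact le_max_left _ _
  have hCκ : 1 ≤ C * κ := by
    have : 1 / κ ≤ C := by rw [hC]; exact le_max_right _ _
    rwa [div_le_iff₀ hκ] at this
  obtain ⟨N', hN'⟩ := exists_nat_ge (N * C)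
  obtain ⟨u, v, hNv, hu, hv, hρ, HH⟩ := H (T * C) η N' hη
  obtain ⟨x, hx⟩ : ∃ x : O, x = (b₁ : O) * v - b₀ * u := ⟨_, rfl⟩
  obtain ⟨y, hy⟩ : ∃ y : O, y = b₀ * u := ⟨_, rfl⟩
  obtain ⟨z, hz⟩ : ∃ z : O, z = (b₁ : O) * v := ⟨_, rfl⟩
  obtain ⟨a, ha⟩ : ∃ a : O, a = x ^ (n + m + 1) * hf Q k x z := ⟨_, rfl⟩
  obtain ⟨b, hb⟩ : ∃ b : O, b = y ^ (n + k + 1) * hf B m x z := ⟨_, rfl⟩
  obtain ⟨c, hc⟩ : ∃ c : O, c = z ^ (m + k + 1) * hf A n x z := ⟨_, rfl⟩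
  obtain ⟨hsum, hbez, ⟨La, Lb, Lc⟩, Ra, Rb, Rc⟩ := HH x y z a b c hx hy hz ha hb hc
  rw [← hd] at La Lb Lc Ra Rb Rc
  have hv1 : (1 : ℝ) ≤ v := by exact_mod_cast hv
  have hv0 : (0 : ℝ) < v := by linarith
  have nz : ∀ {w : O} {κ' : ℝ} {E : ℕ}, 0 < κ' → κ' * (v : ℝ) ^ E ≤ nn w → w ≠ 0 := by
    intro w κ' E h1 h2 h3
    have h4 : nn w = 0 := by
      unfold nn
      rw [h3, Ideal.span_singleton_eq_bot.2 rfl, Ideal.absNorm_bot]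
    rw [h4, Nat.cast_zero] at h2
    have : 0 < κ' * (v : ℝ) ^ E := by positivity
    linarith
  have ha0 := nz hκ La
  have hb0 := nz hκ Lb
  have hc0 := nz hκ Lc
  have hD : 0 < n + m + k + 1 := by omega
  refine ⟨(u : ℝ) / v, a, b, c, hρ, ha0, hb0, hc0, hsum, hbez, ?_, ?_, ?_, ?_, ?_⟩
  · have h2 : (N' : ℝ) ≤ (v : ℝ) ^ (d * (n + m + k + 1)) := by
      calc (N' : ℝ) ≤ v := by exact_mod_cast hNv
        _ = (v : ℝ) ^ 1 := (pow_one _).symm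
        _ ≤ (v : ℝ) ^ (d * (n + m + k + 1)) := pow_le_pow_right₀ hv1 (Nat.mul_pos hd1 hD)
    have h3 : ∀ w : O, κ * (v : ℝ) ^ (d * (n + m + k + 1)) ≤ nn w → N ≤ nn w := by
      intro w hw
      have h4 : N * C ≤ C * nn w := by
        calc N * C ≤ (v : ℝ) ^ (d * (n + m + k + 1)) := hN'.trans h2
          _ = 1 * (v : ℝ) ^ (d * (n + m + k + 1)) := (one_mul _).symm
          _ ≤ (C * κ) * (v : ℝ) ^ (d * (n + m + k + 1)) := by gcongr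
          _ = C * (κ * (v : ℝ) ^ (d * (n + m + k + 1))) := by ring
          _ ≤ C * nn w := by gcongr
      rw [mul_comm] at h4
      exact le_of_mul_le_mul_left h4 (by linarith)
    exact ⟨h3 a La, h3 b Lb, h3 c Lc⟩
  · exact final_ineq (j := k + 1) hκ hv0 hD (by omega) hC1 hCκ La Ra
  · exact final_ineq (j := m) hκ hv0 hD (by omega) hC1 hCκ Lb Rb
  · exact final_ineq (j := n) hκ hv0 hD (by omega) hC1 hCκ Lc Rc
  · intro j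
    have inj : ∀ w : O, w ≠ 0 → σ j w ≠ 0 := by
      intro w hw h0
      have h1 := hσ w
      rw [Finset.prod_eq_zero (Finset.mem_univ j) (by rw [h0, norm_zero])] at h1
      exact nn_ne hw (by exact_mod_cast h1)
    have hz0 : z ≠ 0 := by
      rw [hz]
      exact mul_ne_zero (by exact_mod_cast hb₁) (by exact_mod_cast hv.ne')
    have hzj := inj z hz0
    have hb₁' : (b₁ : ℂ) ≠ 0 := by exact_mod_cast hb₁
    have hv' : (v : ℂ) ≠ 0 := by exact_mod_cast hv.ne'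
    obtain ⟨t, ht⟩ : ∃ t : ℂ, t = 1 - σ j b₀ / b₁ * (((u : ℝ) / v : ℝ) : ℂ) := ⟨_, rfl⟩
    have hxz : σ j x / σ j z = t := by
      rw [hx, hz, ht, map_sub, map_mul, map_mul, map_natCast, map_natCast, map_natCast]
      push_cast
      field_simp
    have hxt : σ j x = t * σ j z := by rw [← hxz, div_mul_cancel₀ _ hzj]
    rw [ha, hc, map_mul, map_mul, map_pow, map_pow, hf_map, hf_map, hf_field h.degC hzj,
      hf_field h.degA hzj, hxz, ← ht, hxt, mul_pow]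
    have e1 : (σ j z) ^ (n + m + 1) * (σ j z) ^ k = (σ j z) ^ (n + m + k + 1) := by
      rw [← pow_add]; congr 1; ring
    have e3 : (σ j z) ^ (m + k + 1) * (σ j z) ^ n = (σ j z) ^ (n + m + k + 1) := by
      rw [← pow_add]; congr 1; ring
    have e4 : t ^ (n + m + 1) * (σ j z) ^ (n + m + 1) * ((σ j z) ^ k * aeval t Q) =
        (σ j z) ^ (n + m + k + 1) * (t ^ (n + m + 1) * aeval t Q) := by
      rw [← e1]; ring
    have e5 : (σ j z) ^ (m + k + 1) * ((σ j z) ^ n * aeval t A) =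
        (σ j z) ^ (n + m + k + 1) * aeval t A := by
      rw [← e3]; ring
    rw [e4, e5, mul_div_mul_left _ _ (pow_ne_zero _ hzj)]

end num

end H584.NF
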