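import Mathlib
import Pool.Agent.H584.NF.Rad

/-!
# Products of norms of prime ideals
-/

set_option autoImplicit false

open NumberField IsDedekindDomain UniqueFactorizationMonoid

namespace H584.NF

variable {K : Type} [Field K] [NumberField K]

lemma mem_pf {x : 𝓞 K} (hx : x ≠ 0) (P : HeightOneSpectrum (𝓞 K)) (h : x ∈ P.asIdeal) :
    P.asIdeal ∈ primeFactors (Ideal.span {x}) := by
  rw [mem_primeFactors]
  have h3 : Prime P.asIdeal := P.prime
  have h4 : P.asIdeal ∣ Ideal.span {x} := by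
    rw [Ideal.dvd_span_singleton]
    exact h
  rw [mem_normalizedFactors_iff' (by
    rw [ne_eq, Ideal.zero_eq_bot, Ideal.span_singleton_eq_bot]
    exact hx)]
  exact ⟨h3.irreducible, normalize_eq _, h4⟩

lemma RN_eq_prod (x : 𝓞 K) : RN x = ∏ P ∈ primeFactors (Ideal.span {x}), Ideal.absNorm P := by
  unfold RN RI radical
  rw [map_prod]
  rfl

lemma one_le_of_mem {x : 𝓞 K} {P : Ideal (𝓞 K)} (hP : P ∈ primeFactors (Ideal.span {x})) :
    1 ≤ Ideal.absNorm P := by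
  have hP' : Irreducible P := irreducible_of_normalized_factor P (mem_primeFactors.1 hP)
  refine Nat.one_le_iff_ne_zero.2 ?_
  rw [ne_eq, Ideal.absNorm_eq_zero_iff]
  exact hP'.ne_zero

lemma prod_le_RN {x : 𝓞 K} (hx : x ≠ 0) (S : Finset (HeightOneSpectrum (𝓞 K)))
    (hS : ∀ P ∈ S, x ∈ P.asIdeal) : ∏ P ∈ S, Ideal.absNorm P.asIdeal ≤ RN x := by
  classical
  have hinj : Function.Injective (HeightOneSpectrum.asIdeal (R := 𝓞 K)) := fun P Q h =>
    HeightOneSpectrum.ext h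
  have h1 : ∏ P ∈ S, Ideal.absNorm P.asIdeal =
      ∏ P ∈ S.image (HeightOneSpectrum.asIdeal (R := 𝓞 K)), Ideal.absNorm P :=
    (Finset.prod_image fun P _ Q _ h => hinj h).symm
  rw [h1, RN_eq_prod]
  refine Finset.prod_le_prod_of_subset_of_one_le' ?_ fun P hP _ => one_le_of_mem hP
  intro P hP
  obtain ⟨Q, hQ, rfl⟩ := Finset.mem_image.1 hP
  exact mem_pf hx Q (hS Q hQ)

lemma finite_mem {x : 𝓞 K} (hx : x ≠ 0) :
    {P : HeightOneSpectrum (𝓞 K) | x ∈ P.asIdeal}.Finite := by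
  have hinj : Function.Injective (HeightOneSpectrum.asIdeal (R := 𝓞 K)) := fun P Q h =>
    HeightOneSpectrum.ext h
  refine Set.Finite.of_finite_image (Set.Finite.subset
    (primeFactors (Ideal.span {x})).finite_toSet ?_) hinj.injOn
  rintro _ ⟨Q, hQ, rfl⟩
  exact mem_pf hx Q hQ

lemma finprod_le_RN {x : 𝓞 K} (hx : x ≠ 0) :
    (∏ᶠ (P : HeightOneSpectrum (𝓞 K)) (_ : x ∈ P.asIdeal), (Ideal.absNorm P.asIdeal : ℝ)) ≤
      RN x := by
  have h1 := finprod_mem_eq_finite_toFinset_prod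
    (fun P : HeightOneSpectrum (𝓞 K) => (Ideal.absNorm P.asIdeal : ℝ)) (finite_mem hx)
  have h2 : (∏ᶠ (P : HeightOneSpectrum (𝓞 K)) (_ : x ∈ P.asIdeal),
      (Ideal.absNorm P.asIdeal : ℝ)) =
      ∏ P ∈ (finite_mem hx).toFinset, (Ideal.absNorm P.asIdeal : ℝ) := h1
  rw [h2]
  have h3 := prod_le_RN hx (finite_mem hx).toFinset fun P hP => by simpa using hP
  exact_mod_cast h3

end H584.NF
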