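import Mathlib
import Pool.Agent.H584.SH.Pos

/-!
# Solutions of `t ^ M Q(t) = z A(t)`
-/

set_option autoImplicit false

open Polynomial

namespace H584.NF

open H584.SH

lemma aev {L : Type*} [Field L] [CharZero L] (t : L) (P : ℤ[X]) :
    aeval t P = (P.map (Int.castRingHom L)).eval t := (eval_map_algebraMap P t).symm

/-- the polynomials do not vanish at a solution -/
lemma target_ne {n m k : ℕ} {A B Q : ℤ[X]} (h : PD n m k A B Q) {z t : ℂ} (hz0 : z ≠ 0)
    (hz1 : z ≠ 1) (ht' : t ^ (n + m + 1) * aeval t Q = z * aeval t A) :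
    t ≠ 0 ∧ 1 - t ≠ 0 ∧ aeval t A ≠ 0 ∧ aeval t B ≠ 0 ∧ aeval t Q ≠ 0 ∧
      t ^ (n + m + 1) * aeval t Q / aeval t A = z := by
  have hK := h.toPK ℂ
  obtain ⟨AC, hAC⟩ : ∃ AC, AC = A.map (Int.castRingHom ℂ) := ⟨_, rfl⟩
  obtain ⟨BC, hBC⟩ : ∃ BC, BC = B.map (Int.castRingHom ℂ) := ⟨_, rfl⟩
  obtain ⟨QC, hQC⟩ : ∃ QC, QC = Q.map (Int.castRingHom ℂ) := ⟨_, rfl⟩
  rw [aev, aev, ← hAC, ← hQC] at ht'
  rw [aev, aev, aev, ← hAC, ← hQC, ← hBC]
  rw [← hAC, ← hBC, ← hQC] at hK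
  have hA : AC.eval t ≠ 0 := by
    intro h0
    obtain ⟨u, v, huv⟩ := hK.cop
    have h1 := congrArg (eval t) huv
    simp only [eval_add, eval_mul, eval_pow, eval_X, eval_one] at h1
    rw [ht', h0] at h1
    simp at h1
  have hE := congrArg (eval t) hK.eq
  simp only [eval_sub, eval_mul, eval_pow, eval_X, eval_one] at hE
  rw [ht'] at hE
  have hB' : (1 - t) ^ (n + k + 1) * BC.eval t = (1 - z) * AC.eval t := by linear_combination -hE
  have hB'' : (1 - t) ^ (n + k + 1) * BC.eval t ≠ 0 := by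
    rw [hB']
    exact mul_ne_zero (sub_ne_zero.2 hz1.symm) hA
  have hQ'' : t ^ (n + m + 1) * QC.eval t ≠ 0 := by
    rw [ht']
    exact mul_ne_zero hz0 hA
  refine ⟨fun h0 => hQ'' (by rw [h0, zero_pow (by omega), zero_mul]),
    fun h0 => hB'' (by rw [h0, zero_pow (by omega), zero_mul]), hA, ?_, ?_, ?_⟩
  · exact right_ne_zero_of_mul hB''
  · exact right_ne_zero_of_mul hQ''
  · rw [ht', mul_div_assoc, div_self hA, mul_one]

/-- complex solutions -/
lemma target_complex {n m k : ℕ} {A B Q : ℤ[X]} (h : PD n m k A B Q) (z : ℂ) :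
    ∃ t : ℂ, t ^ (n + m + 1) * aeval t Q = z * aeval t A := by
  have hK := h.toPK ℂ
  obtain ⟨F, hF⟩ : ∃ F, F = X ^ (n + m + 1) * Q.map (Int.castRingHom ℂ) -
    C z * A.map (Int.castRingHom ℂ) := ⟨_, rfl⟩
  have hd : F.natDegree = n + m + k + 1 := by
    have h1 := hK.degs.1
    have h2 : (C z * A.map (Int.castRingHom ℂ)).natDegree ≤ n :=
      (natDegree_C_mul_le z _).trans hK.degA
    rw [hF, natDegree_sub_eq_left_of_natDegree_lt (by rw [h1]; omega), h1]
  obtain ⟨t, ht⟩ := IsAlgClosed.exists_root F (by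
    refine (natDegree_pos_iff_degree_pos.1 ?_).ne'
    omega)
  rw [IsRoot, hF] at ht
  simp only [eval_sub, eval_mul, eval_pow, eval_X, eval_C] at ht
  exact ⟨t, by rw [aev, aev]; exact sub_eq_zero.1 ht⟩

/-- `Q` is positive on `(-∞, 1]` -/
lemma Q_pos {n m k : ℕ} {A B Q : ℝ[X]} (h : PK n m k A B Q) (hQ : 0 < Q.eval 0) {t : ℝ}
    (h1 : t ≤ 1) : 0 < Q.eval 1 ∧ Q.eval 1 ≤ Q.eval t := by
  have hs := h.swap
  have e : ∀ s : ℝ, (Q.comp (1 - X)).eval s = Q.eval (1 - s) := fun s => by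
    rw [eval_comp]
    simp
  have hne : (Q.comp (1 - X)).eval 0 ≠ 0 := by rw [hs.B0]; exact hs.A0
  rcases lt_or_gt_of_ne hne with hlt | hgt
  · -- the negative of the solution
    have hs' : PK n k m (-(A.comp (1 - X))) (-(Q.comp (1 - X))) (-(B.comp (1 - X))) :=
      ⟨by linear_combination (-1) * hs.eq, by rw [natDegree_neg]; exact hs.degA,
        by rw [natDegree_neg]; exact hs.degB, by rw [natDegree_neg]; exact hs.degC,
        by rw [eval_neg]; exact neg_ne_zero.2 hs.A0, by rw [eval_neg]; exact neg_ne_zero.2 hs.C0⟩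
    have h2 := pos_coeff k n m _ _ _ hs' (by rw [eval_neg]; linarith)
    have h3 := eval_ge h2 zero_le_one
    rw [eval_neg, eval_neg, e, e] at h3
    rw [e] at hlt
    simp only [sub_zero, sub_self] at h3 hlt
    linarith
  · have h2 := pos_coeff k n m _ _ _ hs hgt
    have h3 := eval_ge h2 (show 0 ≤ 1 - t by linarith)
    rw [e] at h3 hgt
    rw [e] at h3
    have e2 : 1 - (1 - t) = t := by ring
    rw [e2, sub_zero] at h3
    rw [sub_zero] at hgt
    exact ⟨hgt, h3⟩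

lemma eval_le {P : ℝ[X]} {n : ℕ} (hP : P.natDegree ≤ n) {t : ℝ} (ht : 1 ≤ |t|) :
    |P.eval t| ≤ (∑ i ∈ Finset.range (n + 1), |P.coeff i|) * |t| ^ n := by
  rw [eval_eq_sum_range' (Nat.lt_succ_of_le hP), Finset.sum_mul]
  refine (Finset.abs_sum_le_sum_abs _ _).trans (Finset.sum_le_sum fun i hi => ?_)
  rw [abs_mul, abs_pow]
  have : i ≤ n := Nat.lt_succ_iff.1 (Finset.mem_range.1 hi)
  gcongr

/-- real solutions -/
lemma target_real {n m k : ℕ} {A B Q : ℤ[X]} (h : PD n m k A B Q) (hn : Even n) (hm : Even m)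
    {z : ℝ} (hz0 : z ≠ 0) (hz1 : z < 1) :
    ∃ t : ℝ, t ^ (n + m + 1) * aeval t Q = z * aeval t A := by
  have hK := h.toPK ℝ
  obtain ⟨AC, hAC⟩ : ∃ AC, AC = A.map (Int.castRingHom ℝ) := ⟨_, rfl⟩
  obtain ⟨BC, hBC⟩ : ∃ BC, BC = B.map (Int.castRingHom ℝ) := ⟨_, rfl⟩
  obtain ⟨QC, hQC⟩ : ∃ QC, QC = Q.map (Int.castRingHom ℝ) := ⟨_, rfl⟩
  have c0 : ∀ P : ℤ[X], (P.map (Int.castRingHom ℝ)).eval 0 = ((P.eval 0 : ℤ) : ℝ) := fun P => by
    have := eval_intCast_map (Int.castRingHom ℝ) P 0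
    rw [Int.cast_zero] at this
    rw [this]
    simp
  have hA0 : 0 < AC.eval 0 := by
    rw [hAC, c0]
    exact_mod_cast h.A0
  have hB0 : 0 < BC.eval 0 := by
    rw [hBC, c0]
    exact_mod_cast h.B0
  have hQ0 : 0 < QC.eval 0 := by
    rw [hQC, c0]
    exact_mod_cast h.Cpos hn
  simp only [aev]
  rw [← hAC, ← hBC, ← hQC] at hK
  rw [← hAC, ← hQC]
  obtain ⟨F, hF⟩ : ∃ F : ℝ → ℝ, F = fun t => t ^ (n + m + 1) * QC.eval t - z * AC.eval t :=
    ⟨_, rfl⟩
  have hc : Continuous F := by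
    rw [hF]
    exact ((continuous_pow _).mul QC.continuous).sub (continuous_const.mul AC.continuous)
  have hF0 : F 0 = -(z * AC.eval 0) := by
    rw [hF]
    simp only
    rw [zero_pow (by omega)]
    ring
  suffices hs : ∃ t, F t = 0 by
    obtain ⟨t, ht⟩ := hs
    rw [hF] at ht
    exact ⟨t, by simp only at ht; linarith⟩
  rcases lt_or_gt_of_ne hz0 with hneg | hpos
  · -- negative `z`
    obtain ⟨S, hS⟩ : ∃ S : ℝ, S = ∑ i ∈ Finset.range (n + 1), |AC.coeff i| := ⟨_, rfl⟩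
    have hS0 : 0 ≤ S := by
      rw [hS]
      exact Finset.sum_nonneg fun i _ => abs_nonneg _
    have hq := (Q_pos hK hQ0 (le_refl (1 : ℝ))).1
    obtain ⟨r, hr⟩ : ∃ r : ℝ, r = max 1 (|z| * S / QC.eval 1) := ⟨_, rfl⟩
    have hr1 : 1 ≤ r := by rw [hr]; exact le_max_left _ _
    have hr2 : |z| * S ≤ QC.eval 1 * r := by
      have : |z| * S / QC.eval 1 ≤ r := by rw [hr]; exact le_max_right _ _
      rw [div_le_iff₀ hq] at this
      linarith
    have hneg2 : F (-r) ≤ 0 := by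
      have h1 := (Q_pos hK hQ0 (show -r ≤ 1 by linarith)).2
      have h2 := eval_le hK.degA (t := -r) (by rw [abs_neg, abs_of_nonneg (by linarith)]; exact hr1)
      rw [← hS, abs_neg, abs_of_nonneg (show (0 : ℝ) ≤ r by linarith)] at h2
      have hodd : Odd (n + m + 1) := (hn.add hm).add_one
      have h3 : (-r) ^ (n + m + 1) = -(r ^ (n + m + 1)) := hodd.neg_pow r
      have h4 : -(z * AC.eval (-r)) ≤ |z| * (S * r ^ n) := by
        refine (neg_le_abs _).trans ?_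
        rw [abs_mul]
        gcongr
      have h5 : |z| * (S * r ^ n) ≤ QC.eval 1 * r ^ (n + m + 1) := by
        calc |z| * (S * r ^ n) = (|z| * S) * r ^ n := by ring
          _ ≤ (QC.eval 1 * r) * r ^ n := by gcongr
          _ = QC.eval 1 * r ^ (n + 1) := by ring
          _ ≤ QC.eval 1 * r ^ (n + m + 1) := by
              gcongr
              omega
      have h6 : r ^ (n + m + 1) * QC.eval 1 ≤ r ^ (n + m + 1) * QC.eval (-r) := by gcongr
      rw [hF]
      simp only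
      rw [h3]
      linarith
    have hpos2 : 0 ≤ F 0 := by
      rw [hF0]
      have : z * AC.eval 0 < 0 := mul_neg_of_neg_of_pos hneg hA0
      linarith
    obtain ⟨t, -, ht⟩ := intermediate_value_Icc (show -r ≤ 0 by linarith) hc.continuousOn
      (Set.mem_Icc.2 ⟨hneg2, hpos2⟩)
    exact ⟨t, ht⟩
  · -- positive `z`
    have hneg2 : F 0 ≤ 0 := by
      rw [hF0]
      have : 0 < z * AC.eval 0 := mul_pos hpos hA0
      linarith
    have h1 := (pos_all hK hB0 hQ0 zero_le_one (le_refl 1)).1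
    have hpos2 : 0 ≤ F 1 := by
      have h2 := congrArg (eval 1) hK.eq
      simp only [eval_sub, eval_mul, eval_pow, eval_X, eval_one, sub_self] at h2
      rw [zero_pow (by omega), one_pow] at h2
      rw [hF]
      simp only
      rw [one_pow]
      nlinarith
    obtain ⟨t, -, ht⟩ := intermediate_value_Icc (zero_le_one (α := ℝ)) hc.continuousOn
      (Set.mem_Icc.2 ⟨hneg2, hpos2⟩)
    exact ⟨t, ht⟩

end H584.NF
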