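import Mathlib
import Pool.Agent.H584.NF.Gen3
import Pool.Agent.H584.NF.Tgt
import Pool.Agent.H584.NF.Den
import Pool.Agent.H584.NF.GauMain

/-!
# Triples of integers of a number field with prescribed sizes of the radicals and prescribed positions
-/

set_option autoImplicit false

open Polynomial NumberField

namespace H584.NF

open H584.SH

lemma exists_le_all {ι : Type*} [Finite ι] (δ : ι → ℝ) (h : ∀ i, 0 < δ i) :
    ∃ δ₀ : ℝ, 0 < δ₀ ∧ ∀ i, δ₀ ≤ δ i := by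
  rcases isEmpty_or_nonempty ι with hι | hι
  · exact ⟨1, one_pos, fun i => (hι.false i).elim⟩
  · obtain ⟨i₀, hi₀⟩ := Finite.exists_min δ
    exact ⟨δ i₀, h i₀, hi₀⟩

lemma exists_ge_all {ι : Type*} [Finite ι] (f : ι → ℝ) : ∃ M : ℝ, 0 < M ∧ ∀ i, f i ≤ M := by
  obtain ⟨M, hM⟩ := (Set.finite_range f).bddAbove
  exact ⟨max M 1, lt_max_of_lt_right one_pos, fun i => (hM ⟨i, rfl⟩).trans (le_max_left _ _)⟩

variable {K : Type} [Field K] [NumberField K]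

lemma nn_prod (x : 𝓞 K) : (nn x : ℝ) = ∏ φ : K →+* ℂ, ‖(φ.comp (algebraMap (𝓞 K) K)) x‖ := by
  unfold nn
  rw [Ideal.absNorm_span_singleton]
  have h1 := Algebra.norm_eq_prod_embeddings ℚ ℂ (x : K)
  have h2 : (∏ σ : K →ₐ[ℚ] ℂ, ‖σ (x : K)‖) =
      ∏ φ : K →+* ℂ, ‖(φ.comp (algebraMap (𝓞 K) K)) x‖ :=
    Fintype.prod_equiv (RingHom.equivRatAlgHom K ℂ).symm _ _ fun σ => rfl
  rw [← h2, ← norm_prod, ← h1, ← Algebra.coe_norm_int]
  rw [Nat.cast_natAbs]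
  simp

/-- the triples of the shape `(α, β, γ)` at the positions `z` -/
def Shape (K : Type) [Field K] [NumberField K] (α β γ : ℝ) (z : InfinitePlace K → ℂ) : Prop :=
  ∀ ε : ℝ, 0 < ε → ∃ Δ : 𝓞 K, Δ ≠ 0 ∧ ∀ T N : ℝ, ∃ a b c : 𝓞 K, a ≠ 0 ∧ b ≠ 0 ∧ c ≠ 0 ∧
    a + b = c ∧ (∃ r s : 𝓞 K, r * a + s * c = Δ) ∧ (N ≤ nn a ∧ N ≤ nn b ∧ N ≤ nn c) ∧
    T * RN a ≤ (nn a : ℝ) ^ α ∧ T * RN b ≤ (nn b : ℝ) ^ β ∧ T * RN c ≤ (nn c : ℝ) ^ γ ∧
    ∀ w : InfinitePlace K, ‖w.embedding (a : K) / w.embedding (c : K) - z w‖ < ε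

lemma conj_compat (t : InfinitePlace K → ℂ) (ht : ∀ w, w.IsReal → (t w).im = 0) (φ : K →+* ℂ) :
    haveI := Classical.decEq (K →+* ℂ)
    (if ComplexEmbedding.conjugate φ = (InfinitePlace.mk (ComplexEmbedding.conjugate φ)).embedding
      then t (InfinitePlace.mk (ComplexEmbedding.conjugate φ))
      else (starRingEnd ℂ) (t (InfinitePlace.mk (ComplexEmbedding.conjugate φ)))) =
    (starRingEnd ℂ) (if φ = (InfinitePlace.mk φ).embedding then t (InfinitePlace.mk φ)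
      else (starRingEnd ℂ) (t (InfinitePlace.mk φ))) := by
  classical
  have hmk : InfinitePlace.mk (ComplexEmbedding.conjugate φ) = InfinitePlace.mk φ :=
    InfinitePlace.mk_conjugate_eq φ
  rw [hmk]
  by_cases h1 : φ = (InfinitePlace.mk φ).embedding
  · rw [if_pos h1]
    by_cases h2 : ComplexEmbedding.conjugate φ = (InfinitePlace.mk φ).embedding
    · rw [if_pos h2]
      have hr : (InfinitePlace.mk φ).IsReal := by
        refine ⟨φ, ?_, rfl⟩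
        rw [ComplexEmbedding.isReal_iff, h2, ← h1]
      exact (Complex.conj_eq_iff_im.2 (ht _ hr)).symm
    · rw [if_neg h2]
  · rw [if_neg h1, Complex.conj_conj]
    have h2 : ComplexEmbedding.conjugate φ = (InfinitePlace.mk φ).embedding := by
      rcases InfinitePlace.embedding_mk_eq φ with h | h
      · exact absurd h.symm h1
      · exact h.symm
    rw [if_pos h2]

theorem shape1 {n m k : ℕ} (hn : 1 ≤ n) (hm : 1 ≤ m) (en : Even n) (em : Even m)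
    (z : InfinitePlace K → ℂ) (hz : ∀ w : InfinitePlace K, w.IsReal → (z w).im = 0 ∧ (z w).re < 1)
    (h0 : ∀ w, z w ≠ 0) (h1 : ∀ w, z w ≠ 1) :
    Shape K (((k + 1 : ℕ) : ℝ) / ((n + m + k + 1 : ℕ) : ℝ)) ((m : ℝ) / ((n + m + k + 1 : ℕ) : ℝ))
      ((n : ℝ) / ((n + m + k + 1 : ℕ) : ℝ)) z := by
  classical
  intro ε hε
  obtain ⟨A, B, Q, h⟩ := exists_pade n m k
  have hT : ∀ w : InfinitePlace K, ∃ t : ℂ, (w.IsReal → t.im = 0) ∧
      t ^ (n + m + 1) * aeval t Q = z w * aeval t A := by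
    intro w
    by_cases hw : w.IsReal
    · obtain ⟨hi, hr⟩ := hz w hw
      have e : z w = (((z w).re : ℝ) : ℂ) := by
        apply Complex.ext <;> simp [hi]
      obtain ⟨t, ht⟩ := target_real h en em (z := (z w).re)
        (fun h2 => h0 w (by rw [e, h2, Complex.ofReal_zero])) hr
      refine ⟨(t : ℂ), fun _ => Complex.ofReal_im t, ?_⟩
      have hev : ∀ P : ℤ[X], aeval (t : ℂ) P = ((aeval t P : ℝ) : ℂ) := fun P => by
        have := aeval_algebraMap_apply ℂ t P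
        simpa using this
      rw [e, hev, hev, ← Complex.ofReal_pow, ← Complex.ofReal_mul, ← Complex.ofReal_mul, ht]
    · obtain ⟨t, ht⟩ := target_complex h (z w)
      exact ⟨t, fun h2 => absurd h2 hw, ht⟩
  choose t htr ht using hT
  have hne := fun w => target_ne h (h0 w) (h1 w) (ht w)
  have hnb : ∀ w, ∃ δ : ℝ, 0 < δ ∧ ∀ s : ℂ, ‖s - t w‖ < δ → s ≠ 0 ∧ 1 - s ≠ 0 ∧ aeval s A ≠ 0 ∧
      aeval s B ≠ 0 ∧ aeval s Q ≠ 0 ∧ ‖s ^ (n + m + 1) * aeval s Q / aeval s A - z w‖ < ε := by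
    intro w
    obtain ⟨q1, q2, q3, q4, q5, q6⟩ := hne w
    have := nbhd (n := n) (m := m) (k := k) q1 q2 q3 q4 q5 hε
    rwa [q6] at this
  choose δ hδ hb using hnb
  obtain ⟨δ₀, hδ₀, hle⟩ := exists_le_all δ hδ
  obtain ⟨s, hs⟩ : ∃ s : (K →+* ℂ) → ℂ, s = fun φ => if φ = (InfinitePlace.mk φ).embedding then
    1 - t (InfinitePlace.mk φ) else (starRingEnd ℂ) (1 - t (InfinitePlace.mk φ)) := ⟨_, rfl⟩
  obtain ⟨b₀, b₁, hb₁, hbs⟩ := dense_emb K s (fun φ => by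
    rw [hs]
    have := conj_compat (K := K) (fun w => 1 - t w) (fun w hw => by simp [htr w hw]) φ
    convert this) (δ := δ₀ / 2) (by linarith)
  have hsw : ∀ w : InfinitePlace K, s w.embedding = 1 - t w := by
    intro w
    rw [hs]
    simp only [InfinitePlace.mk_embedding, if_true]
  have hb₁' : (b₁ : ℂ) ≠ 0 := by exact_mod_cast hb₁
  have hnear : ∀ w : InfinitePlace K, ‖(1 - w.embedding (b₀ : K) / b₁) - t w‖ < δ₀ / 2 := by
    intro w
    have h2 := hbs w.embedding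
    rw [hsw] at h2
    have : (1 - w.embedding (b₀ : K) / b₁) - t w =
      -(w.embedding (b₀ : K) / b₁ - (1 - t w)) := by ring
    rwa [this, norm_neg]
  obtain ⟨w₀⟩ : Nonempty (InfinitePlace K) := inferInstance
  obtain ⟨τ, hτ⟩ : ∃ τ : 𝓞 K →+* ℂ, τ = w₀.embedding.comp (algebraMap (𝓞 K) K) := ⟨_, rfl⟩
  have hτ0 : τ b₀ = w₀.embedding (b₀ : K) := by rw [hτ]; rfl
  obtain ⟨g1, g2, g3, g4, g5, -⟩ := hb w₀ (1 - τ b₀ / b₁) (by
    rw [hτ0]
    exact (hnear w₀).trans_le (by linarith [hle w₀]))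
  have hb₀ : b₀ ≠ 0 := by
    rintro rfl
    apply g2
    simp
  have hX : (b₁ : 𝓞 K) - b₀ ≠ 0 := by
    intro h2
    apply g1
    have : b₀ = (b₁ : 𝓞 K) := (sub_eq_zero.1 h2).symm
    rw [this, map_natCast, div_self hb₁', sub_self]
  obtain ⟨M, hM0, hM⟩ := exists_ge_all fun w : InfinitePlace K => ‖w.embedding (b₀ : K) / b₁‖
  obtain ⟨Δ, hΔ, H⟩ := gen3 (fun φ : K →+* ℂ => φ.comp (algebraMap (𝓞 K) K)) nn_prod
    w₀.embedding h hn hm hb₀ hb₁ hX (hf_ne τ h.degA hb₁ g3) (hf_ne τ h.degB hb₁ g4)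
    (hf_ne τ h.degC hb₁ g5)
  refine ⟨Δ, hΔ, fun T N => ?_⟩
  obtain ⟨ρ, a, b, c, hρ, ha, hb0, hc, hsum, hbez, hN, r1, r2, r3, hj⟩ :=
    H T (δ₀ / (2 * M)) N (by positivity)
  refine ⟨a, b, c, ha, hb0, hc, hsum, hbez, hN, r1, r2, r3, fun w => ?_⟩
  have h2 := hj w.embedding
  have hc1 : ∀ x : 𝓞 K, (w.embedding.comp (algebraMap (𝓞 K) K)) x = w.embedding (x : K) :=
    fun x => rfl
  rw [hc1, hc1, hc1] at h2
  have hnear2 : ‖(1 - w.embedding (b₀ : K) / b₁ * (ρ : ℂ)) - t w‖ < δ₀ := by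
    have e : (1 - w.embedding (b₀ : K) / b₁ * (ρ : ℂ)) - t w =
      ((1 - w.embedding (b₀ : K) / b₁) - t w) -
        (w.embedding (b₀ : K) / b₁) * ((ρ - 1 : ℝ) : ℂ) := by
      push_cast
      ring
    rw [e]
    have h3 : ‖(w.embedding (b₀ : K) / b₁) * ((ρ - 1 : ℝ) : ℂ)‖ < δ₀ / 2 := by
      rw [norm_mul, Complex.norm_real, Real.norm_eq_abs]
      calc ‖w.embedding (b₀ : K) / b₁‖ * |ρ - 1| ≤ M * |ρ - 1| :=
            mul_le_mul_of_nonneg_right (hM w) (abs_nonneg _)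
        _ < M * (δ₀ / (2 * M)) := mul_lt_mul_of_pos_left hρ hM0
        _ = δ₀ / 2 := by field_simp
    have := norm_sub_le ((1 - w.embedding (b₀ : K) / b₁) - t w)
      ((w.embedding (b₀ : K) / b₁) * ((ρ - 1 : ℝ) : ℂ))
    have := hnear w
    linarith
  obtain ⟨-, -, -, -, -, g6⟩ := hb w _ (hnear2.trans_le (hle w))
  rwa [← h2] at g6

end H584.NF
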