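import Mathlib
import Pool.Agent.H584.NF.Shape

/-!
# All positions
-/

set_option autoImplicit false

open NumberField

namespace H584.NF

variable {K : Type} [Field K] [NumberField K]

lemma emb_ne (w : InfinitePlace K) {c : 𝓞 K} (hc : c ≠ 0) : w.embedding (c : K) ≠ 0 := by
  intro h
  rw [map_eq_zero] at h
  exact hc (by exact_mod_cast h)

lemma nn_neg (x : 𝓞 K) : nn (-x) = nn x := by
  unfold nn
  rw [Ideal.span_singleton_neg]

lemma RN_neg (x : 𝓞 K) : RN (-x) = RN x := by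
  unfold RN
  rw [Ideal.span_singleton_neg]

lemma Shape.swap {α β γ : ℝ} {z : InfinitePlace K → ℂ} (h : Shape K α β γ z) :
    Shape K β α γ (fun w => 1 - z w) := by
  intro ε hε
  obtain ⟨Δ, hΔ, H⟩ := h ε hε
  refine ⟨Δ, hΔ, fun T N => ?_⟩
  obtain ⟨a, b, c, ha, hb, hc, hs, ⟨r, s, hrs⟩, ⟨N1, N2, N3⟩, r1, r2, r3, hp⟩ := H T N
  refine ⟨b, a, c, hb, ha, hc, by rw [← hs, add_comm], ⟨-r, r + s, by rw [← hrs, ← hs]; ring⟩,
    ⟨N2, N1, N3⟩, r2, r1, r3, fun w => ?_⟩
  have hcw := emb_ne w hc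
  have e : w.embedding (b : K) / w.embedding (c : K) - (1 - z w) =
      -(w.embedding (a : K) / w.embedding (c : K) - z w) := by
    have h1 : w.embedding (c : K) = w.embedding (a : K) + w.embedding (b : K) := by
      rw [← map_add, ← hs]
      congr 1
    have h2 : w.embedding (b : K) = w.embedding (c : K) - w.embedding (a : K) := by
      rw [h1]; ring
    rw [h2, sub_div, div_self hcw]
    ring
  rw [e, norm_neg]
  exact hp w

lemma Shape.inv {α β γ : ℝ} {z : InfinitePlace K → ℂ} (h : Shape K α β γ z)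
    (hz : ∀ w, z w ≠ 0) : Shape K γ β α (fun w => (z w)⁻¹) := by
  intro ε hε
  have hnb : ∀ w, ∃ δ : ℝ, 0 < δ ∧ ∀ s : ℂ, ‖s - z w‖ < δ → ‖s⁻¹ - (z w)⁻¹‖ < ε := by
    intro w
    have h1 : ContinuousAt (fun s : ℂ => s⁻¹) (z w) := continuousAt_inv₀ (hz w)
    obtain ⟨δ, hδ, hb⟩ := Metric.eventually_nhds_iff.1
      (h1.eventually (Metric.ball_mem_nhds _ hε))
    refine ⟨δ, hδ, fun s hs => ?_⟩
    have := hb (y := s) (by rwa [dist_eq_norm])
    rwa [dist_eq_norm] at this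
  choose δ hδ hb using hnb
  obtain ⟨δ₀, hδ₀, hle⟩ := exists_le_all δ hδ
  obtain ⟨Δ, hΔ, H⟩ := h δ₀ hδ₀
  refine ⟨Δ, hΔ, fun T N => ?_⟩
  obtain ⟨a, b, c, ha, hb', hc, hs, ⟨r, s, hrs⟩, ⟨N1, N2, N3⟩, r1, r2, r3, hp⟩ := H T N
  refine ⟨c, -b, a, hc, neg_ne_zero.2 hb', ha, by rw [← hs]; ring, ⟨s, r, by rw [← hrs]; ring⟩,
    ⟨N3, by rw [nn_neg]; exact N2, N1⟩, r3, by rw [nn_neg, RN_neg]; exact r2, r1, fun w => ?_⟩
  have := hb w _ ((hp w).trans_le (hle w))
  rwa [inv_div] at this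

lemma Shape.of_near {α β γ : ℝ} {z : InfinitePlace K → ℂ}
    (h : ∀ ε : ℝ, 0 < ε → ∃ z' : InfinitePlace K → ℂ, (∀ w, ‖z' w - z w‖ < ε) ∧ Shape K α β γ z') :
    Shape K α β γ z := by
  intro ε hε
  obtain ⟨z', hz', hS⟩ := h (ε / 2) (by linarith)
  obtain ⟨Δ, hΔ, H⟩ := hS (ε / 2) (by linarith)
  refine ⟨Δ, hΔ, fun T N => ?_⟩
  obtain ⟨a, b, c, ha, hb', hc, hs, hbez, hN, r1, r2, r3, hp⟩ := H T N
  refine ⟨a, b, c, ha, hb', hc, hs, hbez, hN, r1, r2, r3, fun w => ?_⟩
  have := norm_sub_le_norm_sub_add_norm_sub (w.embedding (a : K) / w.embedding (c : K)) (z' w)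
    (z w)
  have := hz' w
  have := hp w
  linarith

lemma pert (z : ℂ) (s : ℝ) (hs : s = 1 ∨ s = -1) {ε : ℝ} (hε : 0 < ε) : ∃ r : ℝ, 0 < r ∧ r < ε ∧
    z + ((s * r : ℝ) : ℂ) ≠ 0 ∧ z + ((s * r : ℝ) : ℂ) ≠ 1 := by
  classical
  obtain ⟨r, hr, hrn⟩ := (Set.Ioo_infinite hε).exists_notMem_finset
    ({-(s * z.re), s * (1 - z.re)} : Finset ℝ)
  simp only [Finset.mem_insert, Finset.mem_singleton, not_or] at hrn
  have hs2 : s * s = 1 := by rcases hs with rfl | rfl <;> norm_num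
  refine ⟨r, hr.1, hr.2, fun h => hrn.1 ?_, fun h => hrn.2 ?_⟩
  · have h1 := congrArg Complex.re h
    simp only [Complex.add_re, Complex.ofReal_re, Complex.zero_re] at h1
    have h2 : s * (s * r) = s * (-z.re) := by
      congr 1
      linarith
    rw [← mul_assoc, hs2, one_mul] at h2
    linarith
  · have h1 := congrArg Complex.re h
    simp only [Complex.add_re, Complex.ofReal_re, Complex.one_re] at h1
    have h2 : s * (s * r) = s * (1 - z.re) := by
      congr 1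
      linarith
    rw [← mul_assoc, hs2, one_mul] at h2
    exact h2

/-- positive rational numbers with the sum one -/
lemma exists_den {α β γ : ℚ} (hα : 0 < α) (hβ : 0 < β) (hγ : 0 < γ) (h : α + β + γ = 1) :
    ∃ L u v w : ℕ, 0 < L ∧ 0 < u ∧ 0 < v ∧ 0 < w ∧ u + v + w = L ∧ (α : ℝ) = u / L ∧
      (β : ℝ) = v / L ∧ (γ : ℝ) = w / L := by
  obtain ⟨a, ha⟩ := Int.eq_ofNat_of_zero_le (Rat.num_pos.2 hα).le
  obtain ⟨b, hb⟩ := Int.eq_ofNat_of_zero_le (Rat.num_pos.2 hβ).le
  obtain ⟨c, hc⟩ := Int.eq_ofNat_of_zero_le (Rat.num_pos.2 hγ).le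
  have ha0 : 0 < a := by have := Rat.num_pos.2 hα; omega
  have hb0 : 0 < b := by have := Rat.num_pos.2 hβ; omega
  have hc0 : 0 < c := by have := Rat.num_pos.2 hγ; omega
  have e1 : α = (a : ℚ) / α.den := by
    conv_lhs => rw [← Rat.num_div_den α, ha]
    simp
  have e2 : β = (b : ℚ) / β.den := by
    conv_lhs => rw [← Rat.num_div_den β, hb]
    simp
  have e3 : γ = (c : ℚ) / γ.den := by
    conv_lhs => rw [← Rat.num_div_den γ, hc]
    simp
  have d1 : (0 : ℚ) < α.den := by exact_mod_cast α.pos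
  have d2 : (0 : ℚ) < β.den := by exact_mod_cast β.pos
  have d3 : (0 : ℚ) < γ.den := by exact_mod_cast γ.pos
  have p1 := α.pos
  have p2 := β.pos
  have p3 := γ.pos
  have f1 : α = ((a * β.den * γ.den : ℕ) : ℚ) / ((α.den * β.den * γ.den : ℕ) : ℚ) := by
    conv_lhs => rw [e1]
    push_cast
    field_simp
  have f2 : β = ((α.den * b * γ.den : ℕ) : ℚ) / ((α.den * β.den * γ.den : ℕ) : ℚ) := by
    conv_lhs => rw [e2]
    push_cast
    field_simp
  have f3 : γ = ((α.den * β.den * c : ℕ) : ℚ) / ((α.den * β.den * γ.den : ℕ) : ℚ) := by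
    conv_lhs => rw [e3]
    push_cast
    field_simp
  obtain ⟨L, hL⟩ : ∃ L, L = α.den * β.den * γ.den := ⟨_, rfl⟩
  obtain ⟨u, hu⟩ : ∃ u, u = a * β.den * γ.den := ⟨_, rfl⟩
  obtain ⟨v, hv⟩ : ∃ v, v = α.den * b * γ.den := ⟨_, rfl⟩
  obtain ⟨w, hw⟩ : ∃ w, w = α.den * β.den * c := ⟨_, rfl⟩
  rw [← hL, ← hu] at f1
  rw [← hL, ← hv] at f2
  rw [← hL, ← hw] at f3
  have hL0 : 0 < L := by rw [hL]; positivity
  have hu0 : 0 < u := by rw [hu]; positivity
  have hv0 : 0 < v := by rw [hv]; positivity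
  have hw0 : 0 < w := by rw [hw]; positivity
  have hL0' : (0 : ℚ) < L := by exact_mod_cast hL0
  have cast : ∀ {q : ℚ} {i : ℕ}, q = (i : ℚ) / L → (q : ℝ) = (i : ℝ) / L := by
    intro q i hq
    rw [hq]
    push_cast
    rfl
  refine ⟨L, u, v, w, hL0, hu0, hv0, hw0, ?_, cast f1, cast f2, cast f3⟩
  rw [f1, f2, f3, ← add_div, ← add_div, div_eq_one_iff_eq hL0'.ne'] at h
  exact_mod_cast h

lemma shape_open {α β γ : ℚ} (hα : 0 < α) (hβ : 0 < β) (hγ : 0 < γ) (h : α + β + γ = 1)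
    (z : InfinitePlace K → ℂ) (hz : ∀ w : InfinitePlace K, w.IsReal → (z w).im = 0 ∧ (z w).re < 1)
    (h0 : ∀ w, z w ≠ 0) (h1 : ∀ w, z w ≠ 1) : Shape K α β γ z := by
  obtain ⟨L, u, v, w, hL, hu, hv, hw, hsum, e1, e2, e3⟩ := exists_den hα hβ hγ h
  have hL' : (0 : ℝ) < L := by exact_mod_cast hL
  have hS := shape1 (K := K) (n := 2 * w) (m := 2 * v) (k := 2 * u - 1) (by omega) (by omega)
    (even_two_mul _) (even_two_mul _) z hz h0 h1
  have i2 : 2 * w + 2 * v + (2 * u - 1) + 1 = 2 * L := by omega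
  have k1 : ((2 * u - 1 + 1 : ℕ) : ℝ) / (2 * w + 2 * v + (2 * u - 1) + 1 : ℕ) = α := by
    have i1 : 2 * u - 1 + 1 = 2 * u := by omega
    rw [i1, i2, e1]
    push_cast
    field_simp
  have k2 : ((2 * v : ℕ) : ℝ) / (2 * w + 2 * v + (2 * u - 1) + 1 : ℕ) = β := by
    rw [i2, e2]
    push_cast
    field_simp
  have k3 : ((2 * w : ℕ) : ℝ) / (2 * w + 2 * v + (2 * u - 1) + 1 : ℕ) = γ := by
    rw [i2, e3]
    push_cast
    field_simp
  rwa [k1, k2, k3] at hS

lemma shape_closed {α β γ : ℚ} (hα : 0 < α) (hβ : 0 < β) (hγ : 0 < γ) (h : α + β + γ = 1)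
    (z : InfinitePlace K → ℂ) (hz : ∀ w : InfinitePlace K, w.IsReal → (z w).im = 0 ∧ (z w).re ≤ 1) :
    Shape K α β γ z := by
  refine Shape.of_near fun ε hε => ?_
  have hp := fun w => pert (z w) (-1) (Or.inr rfl) hε
  choose r hr0 hrε hne0 hne1 using hp
  refine ⟨fun w => z w + (((-1) * r w : ℝ) : ℂ), fun w => ?_, shape_open hα hβ hγ h _
    (fun w hw => ?_) hne0 hne1⟩
  · rw [add_sub_cancel_left, Complex.norm_real, Real.norm_eq_abs, neg_one_mul, abs_neg,
      abs_of_pos (hr0 w)]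
    exact hrε w
  · obtain ⟨g1, g2⟩ := hz w hw
    constructor
    · rw [Complex.add_im, Complex.ofReal_im, g1, add_zero]
    · rw [Complex.add_re, Complex.ofReal_re]
      have := hr0 w
      linarith

/-- all positions which avoid one of the intervals `(-∞, 0)`, `(0, 1)`, `(1, ∞)` -/
theorem shape_avoid {α β γ : ℚ} (hα : 0 < α) (hβ : 0 < β) (hγ : 0 < γ) (h : α + β + γ = 1)
    (z : InfinitePlace K → ℂ) (hz : ∀ w : InfinitePlace K, w.IsReal → (z w).im = 0)
    (hc : (∀ w : InfinitePlace K, w.IsReal → (z w).re ≤ 1) ∨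
      (∀ w : InfinitePlace K, w.IsReal → 0 ≤ (z w).re) ∨
      ∀ w : InfinitePlace K, w.IsReal → (z w).re ≤ 0 ∨ 1 ≤ (z w).re) : Shape K α β γ z := by
  rcases hc with hc | hc | hc
  · exact shape_closed hα hβ hγ h z fun w hw => ⟨hz w hw, hc w hw⟩
  · have h1 := (shape_closed (K := K) hβ hα hγ (by linarith) (fun w => 1 - z w) fun w hw =>
      ⟨by simp [hz w hw], by
        have := hc w hw
        simp only [Complex.sub_re, Complex.one_re]
        linarith⟩).swap
    have e : (fun w => 1 - (fun w => 1 - z w) w) = z := by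
      funext w
      ring
    rwa [e] at h1
  · refine Shape.of_near fun ε hε => ?_
    classical
    obtain ⟨s, hs⟩ : ∃ s : InfinitePlace K → ℝ, s = fun w => if (z w).re ≤ 0 then -1 else 1 :=
      ⟨_, rfl⟩
    have hs1 : ∀ w, s w = 1 ∨ s w = -1 := by
      intro w
      rw [hs]
      simp only
      split_ifs
      · exact Or.inr rfl
      · exact Or.inl rfl
    have hp := fun w => pert (z w) (s w) (hs1 w) hε
    choose r hr0 hrε hne0 hne1 using hp
    obtain ⟨z', hz'⟩ : ∃ z' : InfinitePlace K → ℂ, z' = fun w => z w + ((s w * r w : ℝ) : ℂ) :=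
      ⟨_, rfl⟩
    have hne0' : ∀ w, z' w ≠ 0 := fun w => by rw [hz']; exact hne0 w
    have hne1' : ∀ w, z' w ≠ 1 := fun w => by rw [hz']; exact hne1 w
    refine ⟨z', fun w => ?_, ?_⟩
    · rw [hz']
      simp only
      rw [add_sub_cancel_left, Complex.norm_real, Real.norm_eq_abs, abs_mul]
      have : |s w| = 1 := by rcases hs1 w with h2 | h2 <;> rw [h2] <;> simp
      rw [this, one_mul, abs_of_pos (hr0 w)]
      exact hrε w
    · have h1 := (shape_open (K := K) hγ hβ hα (by linarith) (fun w => (z' w)⁻¹) (fun w hw => ?_)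
        (fun w => inv_ne_zero (hne0' w)) (fun w h2 => hne1' w (inv_eq_one.1 h2))).inv
          fun w => inv_ne_zero (hne0' w)
      · have e : (fun w => ((fun w => (z' w)⁻¹) w)⁻¹) = z' := by
          funext w
          exact inv_inv _
        rwa [e] at h1
      · have hi : (z' w).im = 0 := by
          rw [hz']
          simp only [Complex.add_im, Complex.ofReal_im]
          rw [hz w hw, add_zero]
        have hre : (z' w).re < 0 ∨ 1 < (z' w).re := by
          rw [hz']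
          simp only [Complex.add_re, Complex.ofReal_re]
          have h3 := hr0 w
          rw [hs]
          simp only
          split_ifs with h4
          · left; linarith
          · right
            rcases hc w hw with h5 | h5
            · exact absurd h5 h4
            · linarith
        have e : z' w = (((z' w).re : ℝ) : ℂ) := by
          apply Complex.ext <;> simp [hi]
        have e2 : (z' w)⁻¹ = (((z' w).re⁻¹ : ℝ) : ℂ) := by
          conv_lhs => rw [e]
          exact (Complex.ofReal_inv _).symm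
        rw [e2]
        refine ⟨Complex.ofReal_im _, ?_⟩
        rw [Complex.ofReal_re]
        rcases hre with h3 | h3
        · have : (z' w).re⁻¹ < 0 := inv_neg''.2 h3
          linarith
        · exact inv_lt_one_of_one_lt₀ h3

end H584.NF
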