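import Mathlib
import Pool.Agent.H584.NF.Shape2
import Pool.Agent.H584.NF.RadK

/-!
# Heights
-/

set_option autoImplicit false

open NumberField IsDedekindDomain Height

namespace H584.NF

variable {K : Type} [Field K] [NumberField K]

lemma nn_place (x : 𝓞 K) : (nn x : ℝ) = ∏ w : InfinitePlace K, (w (x : K)) ^ w.mult := by
  rw [InfinitePlace.prod_eq_abs_norm, ← Algebra.coe_norm_int]
  unfold nn
  rw [Ideal.absNorm_span_singleton, Nat.cast_natAbs]
  push_cast
  rfl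

/-- the lower bound for the height of a tuple of integers whose ideal contains `Δ` -/
lemma nn_le_mulHeight {ι : Type} [Finite ι] {x : ι → 𝓞 K} {Δ : 𝓞 K} (hΔ : Δ ≠ 0)
    (h : Δ ∈ Ideal.span (Set.range x)) (i : ι) (hi : x i ≠ 0) :
    (nn (x i) : ℝ) ≤ nn Δ * mulHeight fun j => (x j : K) := by
  have hx : x ≠ 0 := fun h0 => hi (by rw [h0]; rfl)
  have hx' : (fun j => (x j : K)) ≠ 0 := by
    intro h0
    apply hi
    have := congrFun h0 i
    simp only [Pi.zero_apply] at this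
    exact RingOfIntegers.coe_eq_zero_iff.1 this
  have h1 := absNorm_mul_finprod_finitePlace_eq_one hx
  rw [NumberField.mulHeight_eq hx']
  obtain ⟨A, hA⟩ : ∃ A : ℝ, A = ∏ v : InfinitePlace K, (⨆ j, v (x j : K)) ^ v.mult := ⟨_, rfl⟩
  obtain ⟨F, hF⟩ : ∃ F : ℝ, F = ∏ᶠ v : FinitePlace K, ⨆ j, v (x j : K) := ⟨_, rfl⟩
  rw [← hF] at h1
  rw [← hA, ← hF]
  obtain ⟨I, hI⟩ : ∃ I : ℝ, I = ((Ideal.span (Set.range x)).absNorm : ℝ) := ⟨_, rfl⟩
  rw [← hI] at h1
  have hIΔ : I ≤ nn Δ := by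
    rw [hI]
    unfold nn
    have h2 : Ideal.span {Δ} ≤ Ideal.span (Set.range x) :=
      (Ideal.span_singleton_le_iff_mem _).2 h
    have h3 := Ideal.absNorm_dvd_absNorm_of_le h2
    exact_mod_cast Nat.le_of_dvd (nn_pos hΔ) h3
  have hI0 : 0 ≤ I := by rw [hI]; positivity
  have hnA : (nn (x i) : ℝ) ≤ A := by
    rw [nn_place, hA]
    refine Finset.prod_le_prod (fun v _ => pow_nonneg (apply_nonneg _ _) _) fun v _ => ?_
    refine pow_le_pow_left₀ (apply_nonneg _ _) ?_ _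
    exact le_ciSup (f := fun j => v (x j : K)) (Set.finite_range _).bddAbove i
  have hF0 : 0 < F := by
    by_contra hcon
    rw [not_lt] at hcon
    have : I * F ≤ 0 := mul_nonpos_of_nonneg_of_nonpos hI0 hcon
    linarith
  have hA0 : 0 ≤ A := le_trans (by positivity) hnA
  calc (nn (x i) : ℝ) ≤ A := hnA
    _ = (I * F) * A := by rw [h1, one_mul]
    _ ≤ (nn Δ * F) * A := by gcongr
    _ = nn Δ * (A * F) := by ring

/-- the same for an integer which is at most twice the maximum at the infinite places -/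
lemma nn_le_mulHeight' {ι : Type} [Finite ι] {x : ι → 𝓞 K} (hx : x ≠ 0) {Δ : 𝓞 K} (hΔ : Δ ≠ 0)
    (h : Δ ∈ Ideal.span (Set.range x)) (y : 𝓞 K)
    (hy : ∀ v : InfinitePlace K, v (y : K) ≤ 2 * ⨆ j, v (x j : K)) :
    (nn y : ℝ) ≤ 2 ^ Module.finrank ℚ K * (nn Δ * mulHeight fun j => (x j : K)) := by
  have hx' : (fun j => (x j : K)) ≠ 0 := by
    intro h0
    apply hx
    funext i
    have := congrFun h0 i
    simp only [Pi.zero_apply] at this
    exact RingOfIntegers.coe_eq_zero_iff.1 this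
  have h1 := absNorm_mul_finprod_finitePlace_eq_one hx
  rw [NumberField.mulHeight_eq hx']
  obtain ⟨A, hA⟩ : ∃ A : ℝ, A = ∏ v : InfinitePlace K, (⨆ j, v (x j : K)) ^ v.mult := ⟨_, rfl⟩
  obtain ⟨F, hF⟩ : ∃ F : ℝ, F = ∏ᶠ v : FinitePlace K, ⨆ j, v (x j : K) := ⟨_, rfl⟩
  rw [← hF] at h1
  rw [← hA, ← hF]
  obtain ⟨I, hI⟩ : ∃ I : ℝ, I = ((Ideal.span (Set.range x)).absNorm : ℝ) := ⟨_, rfl⟩
  rw [← hI] at h1
  have hIΔ : I ≤ nn Δ := by
    rw [hI]
    unfold nn
    have h2 : Ideal.span {Δ} ≤ Ideal.span (Set.range x) :=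
      (Ideal.span_singleton_le_iff_mem _).2 h
    have h3 := Ideal.absNorm_dvd_absNorm_of_le h2
    exact_mod_cast Nat.le_of_dvd (nn_pos hΔ) h3
  have hI0 : 0 ≤ I := by rw [hI]; positivity
  have hs0 : ∀ v : InfinitePlace K, 0 ≤ ⨆ j, v (x j : K) := fun v =>
    Real.iSup_nonneg fun j => apply_nonneg _ _
  have hA0 : 0 ≤ A := by
    rw [hA]
    exact Finset.prod_nonneg fun v _ => pow_nonneg (hs0 v) _
  have hnA : (nn y : ℝ) ≤ 2 ^ Module.finrank ℚ K * A := by
    rw [nn_place, hA, ← InfinitePlace.sum_mult_eq, ← Finset.prod_pow_eq_pow_sum,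
      ← Finset.prod_mul_distrib]
    refine Finset.prod_le_prod (fun v _ => pow_nonneg (apply_nonneg _ _) _) fun v _ => ?_
    rw [← mul_pow]
    exact pow_le_pow_left₀ (apply_nonneg _ _) (hy v) _
  have hF0 : 0 < F := by
    by_contra hcon
    rw [not_lt] at hcon
    have : I * F ≤ 0 := mul_nonpos_of_nonneg_of_nonpos hI0 hcon
    linarith
  refine hnA.trans ?_
  have : A ≤ nn Δ * (A * F) := by
    calc A = (I * F) * A := by rw [h1, one_mul]
      _ ≤ (nn Δ * F) * A := by gcongr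
      _ = nn Δ * (A * F) := by ring
  gcongr

/-- the sum of `log N(v)` over the primes `v` in a set, all of which contain `a` -/
lemma finsum_le_log {a : 𝓞 K} (ha : a ≠ 0) (p : HeightOneSpectrum (𝓞 K) → Prop)
    (hp : ∀ v, p v → a ∈ v.asIdeal) :
    ∑ᶠ (v : HeightOneSpectrum (𝓞 K)) (_ : p v), Real.log (Ideal.absNorm v.asIdeal : ℝ) ≤
      Real.log (RN a) := by
  have hfin : {v : HeightOneSpectrum (𝓞 K) | p v}.Finite := (finite_mem ha).subset hp
  have h1 : ∑ᶠ (v : HeightOneSpectrum (𝓞 K)) (_ : p v), Real.log (Ideal.absNorm v.asIdeal : ℝ) =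
      ∑ v ∈ hfin.toFinset, Real.log (Ideal.absNorm v.asIdeal : ℝ) :=
    finsum_mem_eq_finite_toFinset_sum
      (fun v : HeightOneSpectrum (𝓞 K) => Real.log (Ideal.absNorm v.asIdeal : ℝ)) hfin
  have h2 : ∀ v ∈ hfin.toFinset, (Ideal.absNorm v.asIdeal : ℝ) ≠ 0 := by
    intro v _
    have : Ideal.absNorm v.asIdeal ≠ 0 := by
      rw [ne_eq, Ideal.absNorm_eq_zero_iff]
      exact v.ne_bot
    exact_mod_cast this
  rw [h1, ← Real.log_prod h2]
  have h3 := prod_le_RN ha hfin.toFinset fun v hv => hp v (by simpa using hv)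
  refine Real.log_le_log (Finset.prod_pos fun v hv => ?_) (by exact_mod_cast h3)
  have := h2 v hv
  positivity

lemma mem_of_val_lt {a c : 𝓞 K} (v : HeightOneSpectrum (𝓞 K))
    (h : v.valuation K (a : K) < v.valuation K (c : K)) : a ∈ v.asIdeal := by
  rw [← HeightOneSpectrum.valuation_lt_one_iff_mem (K := K)]
  exact h.trans_le (HeightOneSpectrum.valuation_le_one v c)

end H584.NF
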