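import Mathlib
import Pool.Agent.H584.NF.Hgt

/-!
# The shapes in terms of heights
-/

set_option autoImplicit false

open NumberField IsDedekindDomain Height

namespace H584.NF

variable {K : Type} [Field K] [NumberField K]

lemma log_step {C H R n T s S : ℝ} (hC : 1 ≤ C) (hH : 1 ≤ H) (hR : 0 < R) (hn0 : 0 ≤ n)
    (hn : n ≤ C * H) (hs : 0 ≤ s) (hsS : s ≤ S) (h : Real.exp T * C ^ S * R ≤ n ^ s) :
    Real.log R ≤ s * Real.log H - T := by
  have h1 : n ^ s ≤ C ^ s * H ^ s := by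
    rw [← Real.mul_rpow (by linarith) (by linarith)]
    exact Real.rpow_le_rpow hn0 hn hs
  have h2 : C ^ s ≤ C ^ S := Real.rpow_le_rpow_of_exponent_le hC hsS
  have hCS : 0 < C ^ S := Real.rpow_pos_of_pos (by linarith) _
  have hHs : 0 < H ^ s := Real.rpow_pos_of_pos (by linarith) _
  have h3 : C ^ S * (Real.exp T * R) ≤ C ^ S * H ^ s := by
    calc C ^ S * (Real.exp T * R) = Real.exp T * C ^ S * R := by ring
      _ ≤ n ^ s := h
      _ ≤ C ^ s * H ^ s := h1
      _ ≤ C ^ S * H ^ s := by gcongr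
  have h4 := le_of_mul_le_mul_left h3 hCS
  have h5 := Real.log_le_log (by positivity) h4
  rw [Real.log_mul (Real.exp_pos T).ne' hR.ne', Real.log_exp, Real.log_rpow (by linarith)] at h5
  linarith

theorem hpts {α β γ : ℝ} (hα : 0 ≤ α) (hβ : 0 ≤ β) (hγ : 0 ≤ γ) {z : InfinitePlace K → ℂ}
    (h : Shape K α β γ z) {ε : ℝ} (hε : 0 < ε) (T N : ℝ) : ∃ a b c : 𝓞 K, a ≠ 0 ∧ b ≠ 0 ∧ c ≠ 0 ∧
      a + b = c ∧ N ≤ logHeight ![(a : K), (c : K)] ∧
      Real.log (RN a) ≤ α * logHeight ![(a : K), (c : K)] - T ∧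
      Real.log (RN b) ≤ β * logHeight ![(a : K), (c : K)] - T ∧
      Real.log (RN c) ≤ γ * logHeight ![(a : K), (c : K)] - T ∧
      ∀ w : InfinitePlace K, ‖w.embedding ((a : K) / (c : K)) - z w‖ < ε := by
  obtain ⟨Δ, hΔ, H⟩ := h ε hε
  obtain ⟨C, hC⟩ : ∃ C : ℝ, C = 2 ^ Module.finrank ℚ K * nn Δ := ⟨_, rfl⟩
  have hC1 : 1 ≤ C := by
    rw [hC]
    have h1 : (1 : ℝ) ≤ nn Δ := by exact_mod_cast nn_pos hΔ
    have h2 : (1 : ℝ) ≤ 2 ^ Module.finrank ℚ K := one_le_pow₀ (by norm_num)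
    nlinarith
  obtain ⟨a, b, c, ha, hb, hc, hs, ⟨r, s, hrs⟩, ⟨N1, N2, N3⟩, r1, r2, r3, hp⟩ :=
    H (Real.exp T * C ^ (α + β + γ)) (C * Real.exp N)
  obtain ⟨Hh, hHh⟩ : ∃ Hh : ℝ, Hh = mulHeight ![(a : K), (c : K)] := ⟨_, rfl⟩
  have hH1 : 1 ≤ Hh := by rw [hHh]; exact one_le_mulHeight _
  have hL : logHeight ![(a : K), (c : K)] = Real.log Hh := by
    rw [hHh, logHeight_eq_log_mulHeight]
  have hx : (![a, c] : Fin 2 → 𝓞 K) ≠ 0 := by
    intro h0
    have := congrFun h0 0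
    simp only [Matrix.cons_val_zero, Pi.zero_apply] at this
    exact ha this
  have hfun : (fun j => ((![a, c] : Fin 2 → 𝓞 K) j : K)) = ![(a : K), (c : K)] := by
    funext j
    fin_cases j <;> rfl
  have hmem : Δ ∈ Ideal.span (Set.range (![a, c] : Fin 2 → 𝓞 K)) := by
    rw [← hrs]
    refine Ideal.add_mem _ (Ideal.mul_mem_left _ _ (Ideal.subset_span ⟨0, rfl⟩))
      (Ideal.mul_mem_left _ _ (Ideal.subset_span ⟨1, rfl⟩))
  have key : ∀ y : 𝓞 K, (∀ v : InfinitePlace K, v (y : K) ≤ v (a : K) + v (c : K)) →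
      (nn y : ℝ) ≤ C * Hh := by
    intro y hy
    have h1 := nn_le_mulHeight' hx hΔ hmem y (fun v => by
      have hb : BddAbove (Set.range fun j => v ((![a, c] : Fin 2 → 𝓞 K) j : K)) :=
        (Set.finite_range _).bddAbove
      have h2 : v (a : K) ≤ ⨆ j, v ((![a, c] : Fin 2 → 𝓞 K) j : K) := le_ciSup hb 0
      have h3 : v (c : K) ≤ ⨆ j, v ((![a, c] : Fin 2 → 𝓞 K) j : K) := le_ciSup hb 1
      have := hy v
      linarith)
    rw [hfun, ← hHh] at h1
    calc (nn y : ℝ) ≤ _ := h1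
      _ = C * Hh := by rw [hC]; ring
  have ka := key a fun v => le_add_of_nonneg_right (apply_nonneg _ _)
  have kc := key c fun v => le_add_of_nonneg_left (apply_nonneg _ _)
  have kb := key b fun v => by
    have e : (b : K) = (c : K) - (a : K) := by
      have : b = c - a := by rw [← hs]; ring
      rw [this]
      push_cast
      rfl
    rw [e, add_comm, ← InfinitePlace.norm_embedding_eq, ← InfinitePlace.norm_embedding_eq,
      ← InfinitePlace.norm_embedding_eq, map_sub]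
    exact norm_sub_le _ _
  have pos : ∀ y : 𝓞 K, (0 : ℝ) < RN y := fun y => by exact_mod_cast RN_pos y
  refine ⟨a, b, c, ha, hb, hc, hs, ?_, ?_, ?_, ?_, fun w => ?_⟩
  · rw [hL]
    have h1 : C * Real.exp N ≤ C * Hh := N3.trans kc
    have h2 := le_of_mul_le_mul_left h1 (by linarith)
    have h3 := Real.log_le_log (Real.exp_pos N) h2
    rwa [Real.log_exp] at h3
  · rw [hL]
    exact log_step hC1 hH1 (pos a) (by positivity) ka hα (by linarith) r1
  · rw [hL]
    exact log_step hC1 hH1 (pos b) (by positivity) kb hβ (by linarith) r2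
  · rw [hL]
    exact log_step hC1 hH1 (pos c) (by positivity) kc hγ (by linarith) r3
  · rw [map_div₀]
    exact hp w

end H584.NF
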