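import Mathlib
import Pool.Agent.H584.NF.Shape2

/-!
# The shapes over principal rings of integers
-/

set_option autoImplicit false

open NumberField

namespace H584.NF

variable {K : Type} [Field K] [NumberField K]

lemma cancel_gcd {g a' : 𝓞 K} {D s T : ℝ} (hD : 1 ≤ D) (hg : (nn g : ℝ) ≤ D) (hs : 0 ≤ s)
    (hs1 : s ≤ 1) (hT : 0 ≤ T) (hga : g * a' ≠ 0)
    (h : T * D * RN (g * a') ≤ (nn (g * a') : ℝ) ^ s) : T * RN a' ≤ (nn a' : ℝ) ^ s := by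
  have h1 : (RN a' : ℝ) ≤ RN (g * a') := by exact_mod_cast RN_mono ⟨g, by ring⟩ hga
  have h2 : (nn (g * a') : ℝ) ^ s ≤ D * (nn a' : ℝ) ^ s := by
    rw [nn_mul]
    push_cast
    rw [Real.mul_rpow (by positivity) (by positivity)]
    have h3 : (nn g : ℝ) ^ s ≤ D := by
      calc (nn g : ℝ) ^ s ≤ D ^ s := Real.rpow_le_rpow (by positivity) hg hs
        _ ≤ D ^ (1 : ℝ) := Real.rpow_le_rpow_of_exponent_le hD hs1
        _ = D := Real.rpow_one D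
    gcongr
  have h4 : D * (T * RN a') ≤ D * (nn a' : ℝ) ^ s := by
    calc D * (T * RN a') = T * D * RN a' := by ring
      _ ≤ T * D * RN (g * a') := by gcongr
      _ ≤ (nn (g * a') : ℝ) ^ s := h
      _ ≤ _ := h2
  exact le_of_mul_le_mul_left h4 (by linarith)

theorem pid_triple [IsPrincipalIdealRing (𝓞 K)] {α β γ : ℝ} (hα : 0 ≤ α) (hα1 : α ≤ 1)
    (hβ : 0 ≤ β) (hβ1 : β ≤ 1) (hγ : 0 ≤ γ) (hγ1 : γ ≤ 1) {z : InfinitePlace K → ℂ}
    (h : Shape K α β γ z) {ε : ℝ} (hε : 0 < ε) (T N : ℝ) : ∃ a b c : 𝓞 K, a ≠ 0 ∧ b ≠ 0 ∧ c ≠ 0 ∧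
      a + b = c ∧ IsCoprime a b ∧ (N ≤ nn a ∧ N ≤ nn b ∧ N ≤ nn c) ∧ T * RN a ≤ (nn a : ℝ) ^ α ∧
      T * RN b ≤ (nn b : ℝ) ^ β ∧ T * RN c ≤ (nn c : ℝ) ^ γ ∧
      ∀ w : InfinitePlace K, ‖w.embedding (a : K) / w.embedding (c : K) - z w‖ < ε := by
  obtain ⟨Δ, hΔ, H⟩ := h ε hε
  obtain ⟨D, hD⟩ : ∃ D : ℝ, D = nn Δ := ⟨_, rfl⟩
  have hD1 : 1 ≤ D := by
    rw [hD]
    exact_mod_cast nn_pos hΔ
  obtain ⟨a, b, c, ha, hb, hc, hs, ⟨r, s, hrs⟩, ⟨N1, N2, N3⟩, r1, r2, r3, hp⟩ :=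
    H (max T 0 * D) (max N 0 * D)
  obtain ⟨g, a', c', hg, ea, ec, hcop⟩ := extract (a := a) hc
  obtain ⟨b', hb'⟩ : ∃ b', b' = c' - a' := ⟨_, rfl⟩
  have eb : b = g * b' := by
    rw [hb', mul_sub, ← ea, ← ec, ← hs]
    ring
  have hgΔ : g ∣ Δ := by
    rw [← hrs]
    exact dvd_add (Dvd.dvd.mul_left ⟨a', ea⟩ r) (Dvd.dvd.mul_left ⟨c', ec⟩ s)
  have hng : (nn g : ℝ) ≤ D := by
    rw [hD]
    obtain ⟨f, hf⟩ := hgΔ
    have hf0 : f ≠ 0 := by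
      rintro rfl
      rw [mul_zero] at hf
      exact hΔ hf
    rw [hf, nn_mul]
    have h1 : 1 ≤ nn f := nn_pos hf0
    exact_mod_cast Nat.le_mul_of_pos_right _ h1
  have big : ∀ {w w' : 𝓞 K}, w = g * w' → max N 0 * D ≤ nn w → N ≤ nn w' := by
    intro w w' e h1
    rw [e, nn_mul] at h1
    push_cast at h1
    have h2 : max N 0 * D ≤ D * nn w' := h1.trans (mul_le_mul_of_nonneg_right hng (by positivity))
    rw [mul_comm] at h2
    exact (le_max_left N 0).trans (le_of_mul_le_mul_left h2 (by linarith))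
  have rad : ∀ {w w' : 𝓞 K} {s : ℝ}, w = g * w' → w ≠ 0 → 0 ≤ s → s ≤ 1 →
      max T 0 * D * RN w ≤ (nn w : ℝ) ^ s → T * RN w' ≤ (nn w' : ℝ) ^ s := by
    intro w w' s e hw hs0 hs1 h1
    rw [e] at h1 hw
    refine le_trans ?_ (cancel_gcd hD1 hng hs0 hs1 (le_max_right T 0) hw h1)
    have := le_max_left T 0
    gcongr
  refine ⟨a', b', c', ?_, ?_, ?_, by rw [hb']; ring, ?_, ⟨big ea N1, big eb N2, big ec N3⟩,
    rad ea ha hα hα1 r1, rad eb hb hβ hβ1 r2, rad ec hc hγ hγ1 r3, fun w => ?_⟩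
  · rintro rfl
    rw [mul_zero] at ea
    exact ha ea
  · intro h0
    rw [h0, mul_zero] at eb
    exact hb eb
  · rintro rfl
    rw [mul_zero] at ec
    exact hc ec
  · have : IsCoprime a' (c' + a' * (-1)) := IsCoprime.add_mul_left_right hcop (-1)
    have e : c' + a' * (-1) = b' := by rw [hb']; ring
    rwa [e] at this
  · have h1 := hp w
    rw [ea, ec] at h1
    have e : ∀ x : 𝓞 K, w.embedding ((g * x : 𝓞 K) : K) =
        w.embedding (g : K) * w.embedding (x : K) := fun x => by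
      rw [← map_mul]
      congr 1
    rwa [e, e, mul_div_mul_left _ _ (emb_ne w hg)] at h1

end H584.NF
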